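import Pool.Agent.Lib.MP_464db4_gt.YT.MeanA

/-!
# YT-MeanB: images and finite averages of means
* `A` with `A Λ = Λ`: `v ∈ Λ → A v ∈ Λ`; `A` is onto because the image is an `ℝ`-subspace containing the spanning set `Λ`, so `A` is invertible.
  Mean property of the image measure: `∫ u(z + A a) dμ(a) = ∫ (u∘A)(A⁻¹z + a) dμ(a) = ∫ u(A a) dμ(a)`, `u ∘ A` is `Λ`-periodic.
  (`MeasureTheory.integral_map`, `Measure.isProbabilityMeasure_map`.)  Bounded support: `‖A a‖ ≤ C ‖a‖`.
* average of a finite nonempty family: `μ = ∑ (card s)⁻¹ • μ_i`.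
-/

namespace YT

open Complex Matrix MeasureTheory
open scoped ContDiff ComplexConjugate ComplexOrder

variable {κ : Type} [Fintype κ] [DecidableEq κ] {Λ : Submodule ℤ (κ → ℂ)}

private theorem surj_of_pres (h2 : Submodule.span ℝ (Λ : Set (κ → ℂ)) = ⊤) {A : Matrix κ κ ℂ}
    (hA : (fun v => A *ᵥ v) '' (Λ : Set (κ → ℂ)) = Λ) : Function.Surjective (fun v => A *ᵥ v) := by
  set f : (κ → ℂ) →ₗ[ℝ] (κ → ℂ) := (A.mulVecLin).restrictScalars ℝ with hf
  have h3 : Submodule.map f (Submodule.span ℝ (Λ : Set (κ → ℂ))) = ⊤ := by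
    rw [Submodule.map_span]
    have : (f '' (Λ : Set (κ → ℂ))) = (Λ : Set (κ → ℂ)) := hA
    rw [this, h2]
  intro w
  have hw : w ∈ Submodule.map f (Submodule.span ℝ (Λ : Set (κ → ℂ))) := by
    rw [h3]
    exact Submodule.mem_top
  obtain ⟨v, -, hv⟩ := hw
  exact ⟨v, hv⟩

/-- A matrix preserving a full lattice is invertible. -/
theorem isUnit_of_pres (h2 : Submodule.span ℝ (Λ : Set (κ → ℂ)) = ⊤) {A : Matrix κ κ ℂ}
    (hA : (fun v => A *ᵥ v) '' (Λ : Set (κ → ℂ)) = Λ) : IsUnit A.det := by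
  rw [← Matrix.isUnit_iff_isUnit_det]
  exact Matrix.mulVec_surjective_iff_isUnit.1 (surj_of_pres h2 hA)

theorem mem_of_pres {A : Matrix κ κ ℂ} (hA : (fun v => A *ᵥ v) '' (Λ : Set (κ → ℂ)) = Λ) {v : κ → ℂ} (hv : v ∈ Λ) :
    A *ᵥ v ∈ Λ := by
  have h : (fun v => A *ᵥ v) v ∈ (fun v => A *ᵥ v) '' (Λ : Set (κ → ℂ)) := Set.mem_image_of_mem _ hv
  rw [hA] at h
  exact h

theorem isMean_map {μ : Measure (κ → ℂ)} (h : IsMean Λ μ) (h2 : Submodule.span ℝ (Λ : Set (κ → ℂ)) = ⊤) {A : Matrix κ κ ℂ}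
    (hA : (fun v => A *ᵥ v) '' (Λ : Set (κ → ℂ)) = Λ) : IsMean Λ (μ.map (fun v => A *ᵥ v)) := by
  have hprob := h.prob
  set L : (κ → ℂ) →L[ℂ] (κ → ℂ) := LinearMap.toContinuousLinearMap A.mulVecLin with hL
  have hLA : ∀ v, L v = A *ᵥ v := fun v => rfl
  have hcont : Continuous (fun v : κ → ℂ => A *ᵥ v) := L.continuous
  have hmeas : Measurable (fun v : κ → ℂ => A *ᵥ v) := hcont.measurable
  refine ⟨Measure.isProbabilityMeasure_map hmeas.aemeasurable, ?_, ?_⟩
  · obtain ⟨R, hR⟩ := h.bdd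
    refine ⟨‖L‖ * R, ?_⟩
    rw [ae_map_iff hmeas.aemeasurable (measurableSet_le measurable_norm measurable_const)]
    filter_upwards [hR] with a ha
    rw [← hLA a]
    exact (L.le_opNorm a).trans (mul_le_mul_of_nonneg_left ha (norm_nonneg L))
  · intro u hu hp z
    obtain ⟨w, hw⟩ := surj_of_pres h2 hA z
    have hw' : A *ᵥ w = z := hw
    have hu' : Continuous (fun a : κ → ℂ => u (z + a)) := hu.comp (continuous_const.add continuous_id)
    rw [integral_map (f := fun a : κ → ℂ => u (z + a)) hmeas.aemeasurable hu'.aestronglyMeasurable,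
      integral_map hmeas.aemeasurable hu.aestronglyMeasurable]
    have h3 := h.mean (fun a => u (A *ᵥ a)) (hu.comp hcont) (by
      intro v hv a
      show u (A *ᵥ (a + v)) = u (A *ᵥ a)
      rw [Matrix.mulVec_add]
      exact hp _ (mem_of_pres hA hv) _) w
    rw [← h3]
    congr 1
    ext a
    show u (z + A *ᵥ a) = u (A *ᵥ (w + a))
    rw [Matrix.mulVec_add, hw']

theorem isMean_avg {α : Type} (s : Finset α) (hs : s.Nonempty) (m : α → Measure (κ → ℂ)) (hm : ∀ a ∈ s, IsMean Λ (m a)) :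
    IsMean Λ ((s.card : ENNReal)⁻¹ • ∑ a ∈ s, m a) := by
  have hc0 : (s.card : ENNReal) ≠ 0 := by
    have := Finset.card_pos.2 hs
    exact_mod_cast this.ne'
  have hcT : (s.card : ENNReal) ≠ ⊤ := ENNReal.natCast_ne_top _
  refine ⟨⟨?_⟩, ?_, ?_⟩
  · rw [Measure.smul_apply, Measure.finsetSum_apply, smul_eq_mul]
    have : ∀ a ∈ s, m a Set.univ = 1 := fun a ha => (hm a ha).prob.measure_univ
    rw [Finset.sum_congr rfl this, Finset.sum_const, nsmul_eq_mul, mul_one]
    exact ENNReal.inv_mul_cancel hc0 hcT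
  · have hex : ∀ a : α, ∃ R : ℝ, a ∈ s → ∀ᵐ x ∂(m a), ‖x‖ ≤ R := by
      intro a
      by_cases ha : a ∈ s
      · obtain ⟨R, hR⟩ := (hm a ha).bdd
        exact ⟨R, fun _ => hR⟩
      · exact ⟨0, fun h => absurd h ha⟩
    choose R hR using hex
    refine ⟨s.sup' hs R, ?_⟩
    refine Measure.ae_smul_measure ?_ _
    rw [ae_finsetSum_measure_iff]
    intro a ha
    filter_upwards [hR a ha] with x hx
    exact hx.trans (Finset.le_sup' R ha)
  · intro u hu hp z
    rw [integral_smul_measure, integral_smul_measure]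
    congr 1
    rw [integral_finsetSum_measure, integral_finsetSum_measure]
    · exact Finset.sum_congr rfl fun a ha => (hm a ha).mean u hu hp z
    · intro a ha
      exact (hm a ha).integrable hu
    · intro a ha
      exact (hm a ha).integrable (hu.comp (continuous_const.add continuous_id))

end YT
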