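import Pool.Agent.Lib.MP_464db4_gt.YT.ExB
import Pool.Agent.Lib.MP_464db4_gt.YT.AvgB

/-!
# YT-ExC: invariance of the primitive
The primitive `prim μ g` is invariant under the translations of `Λ` (periodicity of `g`) and under the maps `T.F γ` (the measure `μ` is invariant under the
linear maps `T.A γ`, and `g` is invariant).
-/

namespace YT

open Complex Matrix MeasureTheory
open scoped ContDiff ComplexConjugate ComplexOrder

variable {ι κ : Type} [Fintype ι] [DecidableEq ι] [Fintype κ] [DecidableEq κ] {D : Set (ι → ℂ)} {G : Type}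
  {T : TorusData ι κ D G} {μ : Measure (κ → ℂ)} {g : (ι ⊕ κ → ℂ) → Matrix (ι ⊕ κ) (ι ⊕ κ) ℂ}

private theorem exC_integrable {Λ : Submodule ℤ (κ → ℂ)} (hμ : IsMean Λ μ) {u : ℝ × (κ → ℂ) → ℂ} (hu : Continuous u) :
    Integrable u (muI μ) := by
  have := hμ.prob
  obtain ⟨R, hR⟩ := hμ.bdd
  obtain ⟨C, hC⟩ := ((isCompact_Icc (a := (0 : ℝ)) (b := 1)).prod
    (isCompact_closedBall (0 : κ → ℂ) R)).exists_bound_of_continuousOn hu.continuousOn
  unfold muI
  refine Integrable.of_bound hu.aestronglyMeasurable C ?_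
  filter_upwards [Measure.quasiMeasurePreserving_fst.ae (ae_restrict_mem (μ := (volume : Measure ℝ))
    (measurableSet_Icc (a := (0 : ℝ)) (b := 1))), Measure.quasiMeasurePreserving_snd.ae hR] with p h1 h2
  exact hC p ⟨h1, by rwa [mem_closedBall_zero_iff]⟩

private theorem exC_map (hprob : IsProbabilityMeasure μ) {A : Matrix κ κ ℂ} (hA : μ.map (fun v => A *ᵥ v) = μ) :
    (muI μ).map (Prod.map id (fun v => A *ᵥ v)) = muI μ := by
  have hm : Measurable (fun v : κ → ℂ => A *ᵥ v) :=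
    (Continuous.matrix_mulVec continuous_const continuous_id).measurable
  have h1 : MeasurePreserving (fun v : κ → ℂ => A *ᵥ v) μ μ := ⟨hm, hA⟩
  have h2 : MeasurePreserving (id : ℝ → ℝ) (volume.restrict (Set.Icc (0 : ℝ) 1)) (volume.restrict (Set.Icc (0 : ℝ) 1)) :=
    MeasurePreserving.id _
  exact (h2.prod h1).map_eq

private theorem exC_subst (hprob : IsProbabilityMeasure μ) {A : Matrix κ κ ℂ} (hA : μ.map (fun v => A *ᵥ v) = μ)
    {u : ℝ × (κ → ℂ) → ℂ} (hu : Continuous u) :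
    ∫ p, u p ∂(muI μ) = ∫ p, u (p.1, A *ᵥ p.2) ∂(muI μ) := by
  have hc : Continuous (Prod.map id (fun v : κ → ℂ => A *ᵥ v) : ℝ × (κ → ℂ) → ℝ × (κ → ℂ)) :=
    continuous_id.prodMap (Continuous.matrix_mulVec continuous_const continuous_id)
  conv_lhs => rw [← exC_map hprob hA]
  rw [integral_map hc.aemeasurable hu.aestronglyMeasurable]
  rfl

private theorem exC_cont {f : (ι ⊕ κ → ℂ) → ℂ} (hf : ContinuousOn f (tot κ D)) {x : ι ⊕ κ → ℂ} (hx : x ∈ tot κ D) (l : κ) :
    Continuous (fun p : ℝ × (κ → ℂ) => conj (p.2 l) * f (x + pt 0 (p.1 • p.2))) :=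
  (Complex.continuous_conj.comp ((continuous_apply l).comp continuous_snd)).mul
    (hf.comp_continuous (continuous_const.add (continuous_pt0.comp (continuous_fst.smul continuous_snd)))
      (fun _ => add_mem_tot hx _))

/-- The pointwise identity. -/
private theorem exC_alg (J : Matrix (ι ⊕ κ) (ι ⊕ κ) ℂ) (A : Matrix κ κ ℂ) (h0 : ∀ i l, J (Sum.inl i) (Sum.inr l) = 0)
    (hA : ∀ m l, J (Sum.inr m) (Sum.inr l) = A m l) (M : Matrix (ι ⊕ κ) (ι ⊕ κ) ℂ) (i : ι ⊕ κ) (a : κ → ℂ) :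
    ∑ k, ∑ l, (conj ((A *ᵥ a) l) * M k (Sum.inr l)) * J k i =
      ∑ l, conj (a l) * (Jᵀ * M * mconj J) i (Sum.inr l) := by
  have h1 : ∀ l : κ, (Jᵀ * M * mconj J) i (Sum.inr l) = ∑ k, ∑ m : κ, J k i * M k (Sum.inr m) * conj (A m l) := by
    intro l
    rw [conj_entry]
    refine Finset.sum_congr rfl fun k _ => ?_
    rw [Fintype.sum_sum_type]
    simp only [h0, hA, map_zero, mul_zero, Finset.sum_const_zero, zero_add]
  simp only [h1, Finset.mul_sum]
  conv_rhs => rw [Finset.sum_comm]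
  refine Finset.sum_congr rfl fun k _ => ?_
  conv_rhs => rw [Finset.sum_comm]
  refine Finset.sum_congr rfl fun m _ => ?_
  have h2 : conj ((A *ᵥ a) m) = ∑ l, conj (A m l) * conj (a l) := by
    rw [Matrix.mulVec, dotProduct, map_sum]
    refine Finset.sum_congr rfl fun l _ => ?_
    rw [map_mul]
  rw [h2, Finset.sum_mul, Finset.sum_mul]
  refine Finset.sum_congr rfl fun l _ => ?_
  ring

theorem prim_inv (hD : IsOpen D) (hμ : IsMean T.Λ μ) (hA : ∀ γ, μ.map (fun v => T.A γ *ᵥ v) = μ) (hg : IsKahler (tot κ D) T.total g) :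
    ∀ F ∈ T.total, ∀ x ∈ tot κ D, ∀ i, ∑ k, prim μ g (F x) k * jac F x k i = prim μ g x i := by
  intro F hF x hx i
  have hprob := hμ.prob
  rcases hF with ⟨γ, rfl⟩ | ⟨v, hv, rfl⟩
  · obtain ⟨J, hJ⟩ : ∃ J, J = jac (T.F γ) x := ⟨_, rfl⟩
    have hFx : T.F γ x ∈ tot κ D := F_mem_tot T γ hx
    have hJblk := jac_F hD T γ hx
    rw [← hJ] at hJblk
    have hcont : ∀ k l, Continuous (fun p : ℝ × (κ → ℂ) =>
        conj (p.2 l) * g (T.F γ x + pt 0 (p.1 • p.2)) k (Sum.inr l)) := fun k l =>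
      exC_cont (hg.smooth k (Sum.inr l)).continuousOn hFx l
    have hA' : Continuous (fun p : ℝ × (κ → ℂ) => ((p.1, T.A γ *ᵥ p.2) : ℝ × (κ → ℂ))) :=
      continuous_fst.prodMk (Continuous.matrix_mulVec continuous_const continuous_snd)
    have hint : ∀ k l, Integrable (fun p : ℝ × (κ → ℂ) =>
        (conj ((T.A γ *ᵥ p.2) l) * g (T.F γ x + pt 0 (p.1 • (T.A γ *ᵥ p.2))) k (Sum.inr l)) * J k i) (muI μ) := fun k l =>
      (exC_integrable hμ ((hcont k l).comp hA')).mul_const _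
    have hint2 : ∀ l, Integrable (fun p : ℝ × (κ → ℂ) =>
        conj (p.2 l) * g (x + pt 0 (p.1 • p.2)) i (Sum.inr l)) (muI μ) := fun l =>
      exC_integrable hμ (exC_cont (hg.smooth i (Sum.inr l)).continuousOn hx l)
    rw [← hJ]
    have h1 : ∀ k, prim μ g (T.F γ x) k * J k i = -I * ∑ l : κ, ∫ p,
        (conj ((T.A γ *ᵥ p.2) l) * g (T.F γ x + pt 0 (p.1 • (T.A γ *ᵥ p.2))) k (Sum.inr l)) * J k i ∂(muI μ) := by
      intro k
      unfold prim
      rw [mul_assoc, Finset.sum_mul]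
      congr 1
      refine Finset.sum_congr rfl fun l _ => ?_
      rw [exC_subst hprob (hA γ) (hcont k l), integral_mul_const]
    have h2 : ∑ k, prim μ g (T.F γ x) k * J k i = -I * ∫ p, ∑ k, ∑ l,
        (conj ((T.A γ *ᵥ p.2) l) * g (T.F γ x + pt 0 (p.1 • (T.A γ *ᵥ p.2))) k (Sum.inr l)) * J k i ∂(muI μ) := by
      rw [integral_finsetSum _ fun k _ => integrable_finsetSum _ fun l _ => hint k l, Finset.mul_sum]
      refine Finset.sum_congr rfl fun k _ => ?_
      rw [h1 k, integral_finsetSum _ fun l _ => hint k l]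
    rw [h2]
    unfold prim
    rw [← integral_finsetSum _ fun l _ => hint2 l]
    congr 1
    refine integral_congr_ae (Filter.Eventually.of_forall fun p => ?_)
    show ∑ k, ∑ l, (conj ((T.A γ *ᵥ p.2) l) * g (T.F γ x + pt 0 (p.1 • (T.A γ *ᵥ p.2))) k (Sum.inr l)) * J k i =
      ∑ l, conj (p.2 l) * g (x + pt 0 (p.1 • p.2)) i (Sum.inr l)
    have hy : x + pt 0 (p.1 • p.2) ∈ tot κ D := add_mem_tot hx _
    have hJy : jac (T.F γ) (x + pt 0 (p.1 • p.2)) = J := by
      rw [hJ, jac_F hD T γ hy, jac_F hD T γ hx, bas_add_pt]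
    have h4 := hg.inv (T.F γ) (Or.inl ⟨γ, rfl⟩) (x + pt 0 (p.1 • p.2)) hy
    rw [hJy, F_add, Matrix.mulVec_smul] at h4
    rw [← h4]
    refine exC_alg J (T.A γ) ?_ ?_ _ i p.2
    · intro i l
      rw [hJblk]
      rfl
    · intro m l
      rw [hJblk]
      rfl
  · have h1 : ∀ k, prim μ g (shift v x) k = prim μ g x k := by
      intro k
      unfold prim
      congr 1
      refine Finset.sum_congr rfl fun l _ => ?_
      refine integral_congr_ae (Filter.Eventually.of_forall fun p => ?_)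
      show conj (p.2 l) * g (shift v x + pt 0 (p.1 • p.2)) k (Sum.inr l) =
        conj (p.2 l) * g (x + pt 0 (p.1 • p.2)) k (Sum.inr l)
      have h5 : shift v x + pt 0 (p.1 • p.2) = x + pt 0 (p.1 • p.2 + v) := by
        have h6 := pt_add (0 : ι → ℂ) 0 (p.1 • p.2) v
        rw [add_zero] at h6
        unfold shift
        rw [h6]
        abel
      rw [h5, periodic hg hx hv]
    rw [jac_shift]
    simp only [h1, Matrix.one_apply]
    simp

theorem prim_isPrimitive (hD : IsOpen D) (hμ : IsMean T.Λ μ) (hA : ∀ γ, μ.map (fun v => T.A γ *ᵥ v) = μ)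
    (hg : IsKahler (tot κ D) T.total g) : IsPrimitive (tot κ D) T.total g (avg μ g) (prim μ g) :=
  ⟨fun i => prim_smooth hD hμ hg i, prim_inv hD hμ hA hg, fun x hx i j => prim_sym hD hμ hg hx i j,
    fun x hx i j => prim_eq hD hμ hg hx i j⟩

end YT
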