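import Pool.Agent.Lib.MP_464db4_gt.YT.MeanB

/-!
# YT-MeanC: the finite group of isometries of the lattice and the invariant mean
`O = {A | A Λ = Λ and Aᵀ h Ā = h}` with `h` positive definite.
* `finite_iso`: `q(v) = ∑ v_l h_lm conj(v_m)` (real, `= 0` only for `v = 0`) satisfies `q(A v) = q(v)` for `A ∈ O`, and `q(v) ≥ c ‖v‖²` with `c > 0` (compactness of the
  unit sphere, or any argument), so the images `A b_i` of the elements of a `ℤ`-basis `b` of `Λ` lie in `{v ∈ Λ | ‖v‖² ≤ q(b_i)/c}`, which is finite because `Λ` is discrete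
  (`Metric.finite_isBounded_inter_isClosed` / `ZSpan.setFinite_inter` / `IsDiscrete`, bounded closed subsets of a discrete closed set are finite), and `A` is determined by
  the `A b_i` (they span over `ℝ`, `A` is linear).
* `O` is closed under multiplication and contains `1`; for `B ∈ O` the map `A ↦ B A` is a bijection of the finite set `O` (injective since `B` is invertible).
* `μ = (card O)⁻¹ • ∑_{A ∈ O} (μ0.map A)`; `μ.map B = (card O)⁻¹ • ∑ μ0.map (B A) = μ` (`Measure.map_map`, `Matrix.mulVec_mulVec`, `Finset.sum_bij`/`sum_nbij`, `Measure.map_smul`, `Measure.map_finset_sum`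
  or additivity of `Measure.mapₗ`).
-/

namespace YT

open Complex Matrix MeasureTheory
open scoped ContDiff ComplexConjugate ComplexOrder

variable {κ : Type} [Fintype κ] [DecidableEq κ] {Λ : Submodule ℤ (κ → ℂ)}

/-- The isometries of `(Λ, h)`. -/
def isoSet (Λ : Submodule ℤ (κ → ℂ)) (h : Matrix κ κ ℂ) : Set (Matrix κ κ ℂ) :=
  {A | (fun v => A *ᵥ v) '' (Λ : Set (κ → ℂ)) = Λ ∧ Aᵀ * h * mconj A = h}

/-- The real quadratic form of `h`. -/
private noncomputable def qf (h : Matrix κ κ ℂ) (v : κ → ℂ) : ℝ := (v ⬝ᵥ (h *ᵥ star v)).re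

omit [DecidableEq κ] in
private theorem qf_pos {h : Matrix κ κ ℂ} (hh : h.PosDef) {v : κ → ℂ} (hv : v ≠ 0) : 0 < qf h v := by
  have h1 : star v ≠ 0 := by
    intro h0
    apply hv
    rw [← star_star v, h0, star_zero]
  have h2 := (posDef_iff_dotProduct_mulVec.mp hh).2 h1
  rw [star_star] at h2
  exact (Complex.lt_def.1 h2).1

omit [DecidableEq κ] in
private theorem qf_smul (h : Matrix κ κ ℂ) (t : ℝ) (v : κ → ℂ) : qf h (t • v) = t ^ 2 * qf h v := by
  have h1 : star (t • v) = t • star v := by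
    ext i
    simp
  unfold qf
  rw [h1, Matrix.mulVec_smul, dotProduct_smul, smul_dotProduct, Complex.real_smul, Complex.real_smul, ← mul_assoc,
    ← Complex.ofReal_mul, Complex.re_ofReal_mul]
  ring

omit [DecidableEq κ] in
private theorem qf_inv {h A : Matrix κ κ ℂ} (hA : Aᵀ * h * mconj A = h) (v : κ → ℂ) : qf h (A *ᵥ v) = qf h v := by
  have h1 : star (A *ᵥ v) = mconj A *ᵥ star v := by
    ext i
    simp [Matrix.mulVec, dotProduct, mconj, Matrix.map_apply]
  unfold qf
  rw [h1]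
  congr 1
  nth_rewrite 2 [← hA]
  rw [← Matrix.mulVec_mulVec, ← Matrix.mulVec_mulVec, Matrix.dotProduct_mulVec v Aᵀ, Matrix.vecMul_transpose]

omit [DecidableEq κ] in
private theorem qf_cont (h : Matrix κ κ ℂ) : Continuous (qf h) := by
  unfold qf
  refine Complex.continuous_re.comp ?_
  exact Continuous.dotProduct continuous_id (Continuous.matrix_mulVec continuous_const continuous_star)

omit [DecidableEq κ] in
private theorem qf_bound {h : Matrix κ κ ℂ} (hh : h.PosDef) : ∃ c : ℝ, 0 < c ∧ ∀ v : κ → ℂ, c * ‖v‖ ^ 2 ≤ qf h v := by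
  rcases isEmpty_or_nonempty κ with hk | hk
  · refine ⟨1, one_pos, fun v => ?_⟩
    have hv : v = 0 := Subsingleton.elim _ _
    subst hv
    have : qf h (0 : κ → ℂ) = 0 := by simp [qf]
    rw [this, norm_zero]
    norm_num
  · obtain ⟨v0, hv0, hmin⟩ := (isCompact_sphere (0 : κ → ℂ) 1).exists_isMinOn
      (NormedSpace.sphere_nonempty.2 zero_le_one) (qf_cont h).continuousOn
    have hv0n : ‖v0‖ = 1 := by simpa using hv0
    have hv0' : v0 ≠ 0 := by
      intro h0
      rw [h0, norm_zero] at hv0n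
      exact zero_ne_one hv0n
    refine ⟨qf h v0, qf_pos hh hv0', fun v => ?_⟩
    by_cases hv : v = 0
    · subst hv
      have : qf h (0 : κ → ℂ) = 0 := by simp [qf]
      rw [this, norm_zero]
      norm_num
    · have hn : 0 < ‖v‖ := norm_pos_iff.2 hv
      have h1 : (‖v‖⁻¹ • v) ∈ Metric.sphere (0 : κ → ℂ) 1 := by
        rw [mem_sphere_zero_iff_norm, norm_smul, norm_inv, norm_norm, inv_mul_cancel₀ hn.ne']
      have h2 := hmin h1
      replace h2 : qf h v0 ≤ qf h (‖v‖⁻¹ • v) := h2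
      rw [qf_smul] at h2
      have h3 : qf h v0 * ‖v‖ ^ 2 ≤ (‖v‖⁻¹ ^ 2 * qf h v) * ‖v‖ ^ 2 :=
        mul_le_mul_of_nonneg_right h2 (by positivity)
      have h4 : (‖v‖⁻¹ ^ 2 * qf h v) * ‖v‖ ^ 2 = qf h v := by
        field_simp
      linarith

theorem finite_isoSet (h1 : DiscreteTopology Λ) (h2 : Submodule.span ℝ (Λ : Set (κ → ℂ)) = ⊤) {h : Matrix κ κ ℂ} (hh : h.PosDef) :
    (isoSet Λ h).Finite := by
  obtain ⟨c, hc, hq⟩ := qf_bound hh
  obtain ⟨b, hbΛ, hbs, hbl⟩ := exists_linearIndependent ℝ (Λ : Set (κ → ℂ))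
  have hbfin : b.Finite := hbl.setFinite
  have hdisc : ∀ R : ℝ, (Metric.closedBall (0 : κ → ℂ) R ∩ (Λ : Set (κ → ℂ))).Finite := by
    intro R
    have hcl : IsClosed (Λ : Set (κ → ℂ)) := by
      have : DiscreteTopology Λ.toAddSubgroup := h1
      exact AddSubgroup.isClosed_of_discrete (H := Λ.toAddSubgroup)
    exact Metric.finite_isBounded_inter_isClosed (isDiscrete_iff_discreteTopology.2 h1) Metric.isBounded_closedBall hcl
  have : Finite b := hbfin
  let t : Set (b → (κ → ℂ)) := Set.pi Set.univ fun x : b =>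
    Metric.closedBall (0 : κ → ℂ) (Real.sqrt (qf h x / c)) ∩ (Λ : Set (κ → ℂ))
  have ht : t.Finite := Set.Finite.pi fun x => hdisc _
  refine Set.Finite.of_injOn (f := fun A : Matrix κ κ ℂ => fun x : b => A *ᵥ (x : κ → ℂ)) (t := t) ?_ ?_ ht
  · intro A hA x _
    refine ⟨?_, ?_⟩
    · rw [mem_closedBall_zero_iff]
      apply Real.le_sqrt_of_sq_le
      rw [le_div_iff₀ hc]
      have h3 := hq (A *ᵥ (x : κ → ℂ))
      rw [qf_inv hA.2] at h3
      linarith
    · rw [← hA.1]
      exact ⟨x, hbΛ x.2, rfl⟩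
  · intro A _ A' _ hAA
    have h3 : ((Matrix.mulVecLin A).restrictScalars ℝ) = ((Matrix.mulVecLin A').restrictScalars ℝ) := by
      refine LinearMap.ext_on (hbs.trans h2) ?_
      intro x hx
      exact congrFun hAA ⟨x, hx⟩
    exact Matrix.mulVec_injective (funext fun v => LinearMap.congr_fun h3 v)

theorem one_mem_isoSet (h : Matrix κ κ ℂ) : (1 : Matrix κ κ ℂ) ∈ isoSet Λ h := by
  refine ⟨?_, ?_⟩
  · simp
  · have : mconj (1 : Matrix κ κ ℂ) = 1 := by simp [mconj]
    rw [this, Matrix.transpose_one, one_mul, mul_one]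

theorem mul_mem_isoSet {h A B : Matrix κ κ ℂ} (hA : A ∈ isoSet Λ h) (hB : B ∈ isoSet Λ h) : A * B ∈ isoSet Λ h := by
  refine ⟨?_, ?_⟩
  · have h1 : (fun v : κ → ℂ => (A * B) *ᵥ v) = (fun v => A *ᵥ v) ∘ (fun v => B *ᵥ v) := by
      ext1 v
      simp [Matrix.mulVec_mulVec]
    rw [h1, Set.image_comp, hB.1, hA.1]
  · have h1 : mconj (A * B) = mconj A * mconj B := by
      unfold mconj
      rw [Matrix.map_mul]
    calc (A * B)ᵀ * h * mconj (A * B) = Bᵀ * (Aᵀ * h * mconj A) * mconj B := by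
          rw [h1, Matrix.transpose_mul]
          simp only [Matrix.mul_assoc]
      _ = h := by rw [hA.2, hB.2]

/-- There is a mean which is invariant under all isometries of `(Λ, h)`. -/
theorem exists_invariant_mean (h1 : DiscreteTopology Λ) (h2 : Submodule.span ℝ (Λ : Set (κ → ℂ)) = ⊤) {h : Matrix κ κ ℂ}
    (hh : h.PosDef) : ∃ μ : Measure (κ → ℂ), IsMean Λ μ ∧ ∀ A ∈ isoSet Λ h, μ.map (fun v => A *ᵥ v) = μ := by
  classical
  obtain ⟨μ0, hμ0⟩ := exists_isMean Λ h1 h2
  set O : Finset (Matrix κ κ ℂ) := (finite_isoSet h1 h2 hh).toFinset with hO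
  have hmem : ∀ A, A ∈ O ↔ A ∈ isoSet Λ h := fun A => by rw [hO, Set.Finite.mem_toFinset]
  have hne : O.Nonempty := ⟨1, (hmem 1).2 (one_mem_isoSet h)⟩
  have hmeas : ∀ A : Matrix κ κ ℂ, Measurable fun v : κ → ℂ => A *ᵥ v := fun A =>
    (Continuous.matrix_mulVec continuous_const continuous_id).measurable
  refine ⟨(O.card : ENNReal)⁻¹ • ∑ A ∈ O, μ0.map (fun v => A *ᵥ v), ?_, ?_⟩
  · exact isMean_avg O hne _ fun A hA => isMean_map hμ0 h2 ((hmem A).1 hA).1
  · intro B hB
    rw [Measure.map_smul, Measure.map_finset_sum (hmeas B).aemeasurable]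
    congr 1
    have h3 : ∀ A ∈ O, (μ0.map (fun v => A *ᵥ v)).map (fun v => B *ᵥ v) = μ0.map (fun v => (B * A) *ᵥ v) := by
      intro A _
      rw [Measure.map_map (hmeas B) (hmeas A)]
      congr 1
      ext1 v
      simp [Matrix.mulVec_mulVec]
    rw [Finset.sum_congr rfl h3]
    have hBu : IsUnit B.det := isUnit_of_pres h2 hB.1
    have hinj : Function.Injective fun A : Matrix κ κ ℂ => B * A := by
      intro A A' hAA
      have h4 : B⁻¹ * (B * A) = B⁻¹ * (B * A') := congrArg (fun M => B⁻¹ * M) hAA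
      rwa [← Matrix.mul_assoc, ← Matrix.mul_assoc, Matrix.nonsing_inv_mul _ hBu, one_mul, one_mul] at h4
    have him : O.image (fun A => B * A) = O := by
      apply Finset.eq_of_subset_of_card_le
      · intro M hM
        obtain ⟨A, hA, rfl⟩ := Finset.mem_image.1 hM
        exact (hmem _).2 (mul_mem_isoSet hB ((hmem A).1 hA))
      · rw [Finset.card_image_of_injective _ hinj]
    calc ∑ A ∈ O, μ0.map (fun v => (B * A) *ᵥ v)
        = ∑ M ∈ O.image (fun A => B * A), μ0.map (fun v => M *ᵥ v) := by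
          rw [Finset.sum_image hinj.injOn]
      _ = ∑ A ∈ O, μ0.map (fun v => A *ᵥ v) := by rw [him]

end YT
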