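import Pool.Agent.Lib.MP_464db4_gt.YT.ScalM
import Pool.Agent.Lib.MP_464db4_gt.YT.MeanC
import Pool.Agent.Lib.MP_464db4_gt.YT.ExC

/-!
# YT-Red: reduction of the total space to the base
* `IsPrimitive.trans`: add the primitives (`dz_add`, `dzbar_add`; components are differentiable on the open set).
* `reduction`: `μ0` from `exists_isMean`; `avg μ0 g` is Kaehler and fibre-constant, `vert_const` gives `h` with `Aᵀ h Ā = h`; `exists_invariant_mean` gives `μ` with `μ.map A_γ = μ` (`T.A γ ∈ isoSet T.Λ h`);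
  `gm = avg μ g` is Kaehler, fibre-constant, `prim_isPrimitive` makes `g` and `gm` cohomologous; `β = schur gm`; given `β'`, `ε`: `g' = glue gm β'`, `glue_prim`, `scal_glue`.
-/

namespace YT

open Complex Matrix MeasureTheory
open scoped ContDiff ComplexConjugate ComplexOrder

variable {ι κ : Type} [Fintype ι] [DecidableEq ι] [Fintype κ] [DecidableEq κ] {D : Set (ι → ℂ)} {G : Type}

theorem IsPrimitive.trans {U : Set (ι → ℂ)} (hU : IsOpen U) {S : Set ((ι → ℂ) → (ι → ℂ))} {g g' g'' : (ι → ℂ) → Matrix ι ι ℂ}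
    {e e' : (ι → ℂ) → (ι → ℂ)} (h : IsPrimitive U S g g' e) (h' : IsPrimitive U S g' g'' e') :
    IsPrimitive U S g g'' (fun x => e x + e' x) := by
  have d1 : ∀ x ∈ U, ∀ i, DifferentiableAt ℝ (fun y => e y i) x := fun x hx i =>
    (((h.smooth i).differentiableOn (by simp)) x hx).differentiableAt (hU.mem_nhds hx)
  have d2 : ∀ x ∈ U, ∀ i, DifferentiableAt ℝ (fun y => e' y i) x := fun x hx i =>
    (((h'.smooth i).differentiableOn (by simp)) x hx).differentiableAt (hU.mem_nhds hx)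
  have c1 : ∀ x ∈ U, ∀ i, DifferentiableAt ℝ (fun y => conj (e y i)) x := fun x hx i =>
    Complex.conjCLE.differentiableAt.comp x (d1 x hx i)
  have c2 : ∀ x ∈ U, ∀ i, DifferentiableAt ℝ (fun y => conj (e' y i)) x := fun x hx i =>
    Complex.conjCLE.differentiableAt.comp x (d2 x hx i)
  refine ⟨?_, ?_, ?_, ?_⟩
  · intro i
    exact (h.smooth i).add (h'.smooth i)
  · intro F hF x hx i
    simp only [Pi.add_apply, add_mul, Finset.sum_add_distrib]
    rw [h.inv F hF x hx i, h'.inv F hF x hx i]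
  · intro x hx i j
    simp only [Pi.add_apply]
    rw [dz_add i (d1 x hx j) (d2 x hx j), dz_add j (d1 x hx i) (d2 x hx i), h.sym x hx i j, h'.sym x hx i j]
  · intro x hx i j
    have e1 := h.eq x hx i j
    have e2 := h'.eq x hx i j
    simp only [Pi.add_apply, map_add]
    rw [dz_add i (c1 x hx j) (c2 x hx j), dzbar_add j (d1 x hx i) (d2 x hx i)]
    linear_combination e1 + e2

theorem reduction (hD : IsOpen D) (hDc : IsConnected D) (T : TorusData ι κ D G) (g : (ι ⊕ κ → ℂ) → Matrix (ι ⊕ κ) (ι ⊕ κ) ℂ)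
    (hg : IsKahler (tot κ D) T.total g) :
    ∃ β, IsKahler D T.base β ∧ ∀ (β' : (ι → ℂ) → Matrix ι ι ℂ) (c : ℝ), IsKahler D T.base β' → Cohomologous D T.base β β' →
      (∀ b ∈ D, scal β' b = c) →
      ∃ g', IsKahler (tot κ D) T.total g' ∧ Cohomologous (tot κ D) T.total g g' ∧ ∀ x ∈ tot κ D, scal g' x = c := by
  obtain ⟨μ0, hμ0⟩ := exists_isMean T.Λ T.disc T.span
  have hk0 : IsKahler (tot κ D) T.total (avg μ0 g) := avg_isKahler hD hμ0 hg
  have hc0 : FibreConst D (avg μ0 g) := fun x hx a => avg_fibre hD hμ0 hg hx a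
  obtain ⟨h, hh, _, hinv⟩ := vert_const hD hDc hk0 hc0
  obtain ⟨μ, hμ, hμA⟩ := exists_invariant_mean T.disc T.span hh
  have hA : ∀ γ, μ.map (fun v => T.A γ *ᵥ v) = μ := fun γ => hμA _ ⟨T.A_pres γ, hinv γ⟩
  have hk : IsKahler (tot κ D) T.total (avg μ g) := avg_isKahler hD hμ hg
  have hc : FibreConst D (avg μ g) := fun x hx a => avg_fibre hD hμ hg hx a
  refine ⟨schur (avg μ g), schur_isKahler hD hDc hk hc, ?_⟩
  rintro β' c hβ' ⟨ε, hε⟩ hs
  refine ⟨glue (avg μ g) β', glue_isKahler hD hDc hk hc hβ', ?_, ?_⟩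
  · exact ⟨_, (prim_isPrimitive hD hμ hA hg).trans (isOpen_tot hD) (glue_prim hD hDc hk hc hβ' hε)⟩
  · intro x hx
    rw [scal_glue hD hDc hk hc hβ' hx]
    exact hs _ hx

end YT
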