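import Pool.Agent.Lib.MP_464db4_gt.YT.ExA

/-!
# YT-ExB: `avg μ g - g = dη` for the primitive `prim μ g`
By `dzbar_prim` and `dz_conj` (`dz i (conj (prim j)) = conj (dzbar i (prim j)) = I ∑ l ∫ p.2 l * conj (dzbar i (g j l)) (x + ..)`), with
`conj (dzbar i (g · j (inr l)) y) = dz i (conj (g · j (inr l))) y = dz i (g · (inr l) j) y = dz (inr l) (g · i j) y` (Hermitian on the open set, then closedness), and
`dzbar j (g · i (inr l)) y = conj (dz j (g · (inr l) i) y) = conj (dz (inr l) (g · j i) y) = dzbar (inr l) (g · i j) y`: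
`-I * (dz i (conj prim_j) - dzbar j prim_i) = ∑ l ∫ (p.2 l * dz (inr l) (g i j) + conj (p.2 l) * dzbar (inr l) (g i j)) (x + pt 0 (p.1 • p.2))`
`= ∫ fderiv ℝ (g · i j) (x + pt 0 (p.1 • p.2)) (pt 0 p.2)` (`fderiv_eq_sum`, the base components of `pt 0 a` vanish)
`= ∫_μ ∫_0^1 (d/ds) g (x + s pt 0 a) i j ds dμ(a) = ∫_μ (g (x + pt 0 a) i j - g x i j) dμ(a) = avg μ g x i j - g x i j`
(`integral_prod` / `integral_prod_symm`, `intervalIntegral.integral_eq_sub_of_hasDerivAt`, the integrand is continuous in `s`).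
-/

namespace YT

open Complex Matrix MeasureTheory
open scoped ContDiff ComplexConjugate ComplexOrder

variable {ι κ : Type} [Fintype ι] [DecidableEq ι] [Fintype κ] [DecidableEq κ] {D : Set (ι → ℂ)}
  {Λ : Submodule ℤ (κ → ℂ)} {μ : Measure (κ → ℂ)} {S : Set ((ι ⊕ κ → ℂ) → (ι ⊕ κ → ℂ))}
  {g : (ι ⊕ κ → ℂ) → Matrix (ι ⊕ κ) (ι ⊕ κ) ℂ}

/-- The matrix is Hermitian. -/
private theorem herm_entry {α : Type} [Fintype α] [DecidableEq α] {U : Set (α → ℂ)} {S : Set ((α → ℂ) → (α → ℂ))}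
    {g : (α → ℂ) → Matrix α α ℂ} (hg : IsKahler U S g) {y : α → ℂ} (hy : y ∈ U) (i j : α) :
    conj (g y i j) = g y j i :=
  (hg.pos y hy).isHermitian.apply j i

theorem conj_entry_dzbar {α : Type} [Fintype α] [DecidableEq α] {U : Set (α → ℂ)} (hU : IsOpen U) {S : Set ((α → ℂ) → (α → ℂ))}
    {g : (α → ℂ) → Matrix α α ℂ} (hg : IsKahler U S g) {x : α → ℂ} (hx : x ∈ U) (i j k : α) :
    conj (dzbar k (fun y => g y i j) x) = dz k (fun y => g y j i) x := by
  rw [← dz_conj]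
  exact dz_congr_on hU (fun y hy => herm_entry hg hy i j) hx k

/-- The conjugate form of closedness. -/
theorem closed_bar {α : Type} [Fintype α] [DecidableEq α] {U : Set (α → ℂ)} (hU : IsOpen U) {S : Set ((α → ℂ) → (α → ℂ))}
    {g : (α → ℂ) → Matrix α α ℂ} (hg : IsKahler U S g) {x : α → ℂ} (hx : x ∈ U) (i j k : α) :
    dzbar k (fun y => g y i j) x = dzbar j (fun y => g y i k) x := by
  have h1 := conj_entry_dzbar hU hg hx i j k
  have h2 := conj_entry_dzbar hU hg hx i k j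
  have h3 := hg.closed x hx j i k
  have h4 : conj (dzbar k (fun y => g y i j) x) = conj (dzbar j (fun y => g y i k) x) := by
    rw [h1, h2, h3]
  exact (starRingEnd ℂ).injective h4

private theorem cont_seg {E : Type} [TopologicalSpace E] {F : (ι ⊕ κ → ℂ) → E} (hF : ContinuousOn F (tot κ D)) {x : ι ⊕ κ → ℂ}
    (hx : x ∈ tot κ D) : Continuous (fun p : ℝ × (κ → ℂ) => F (x + pt 0 (p.1 • p.2))) :=
  hF.comp_continuous (continuous_const.add (continuous_pt0.comp (continuous_fst.smul continuous_snd)))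
    (fun _ => add_mem_tot hx _)

private theorem muI_integrable (hμ : IsMean Λ μ) {u : ℝ × (κ → ℂ) → ℂ} (hu : Continuous u) : Integrable u (muI μ) := by
  have := hμ.prob
  obtain ⟨R, hR⟩ := hμ.bdd
  obtain ⟨C, hC⟩ := ((isCompact_Icc (a := (0 : ℝ)) (b := 1)).prod
    (isCompact_closedBall (0 : κ → ℂ) R)).exists_bound_of_continuousOn hu.continuousOn
  unfold muI
  refine Integrable.of_bound hu.aestronglyMeasurable C ?_
  filter_upwards [Measure.quasiMeasurePreserving_fst.ae (ae_restrict_mem (μ := (volume : Measure ℝ))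
    (measurableSet_Icc (a := (0 : ℝ)) (b := 1))), Measure.quasiMeasurePreserving_snd.ae hR] with p h1 h2
  exact hC p ⟨h1, by rwa [mem_closedBall_zero_iff]⟩

private theorem pt_zero_zero : (pt 0 0 : ι ⊕ κ → ℂ) = 0 := by
  funext i
  cases i <;> rfl

/-- The fundamental theorem of calculus along the segments `x + s (0,a)`, `0 ≤ s ≤ 1`. -/
theorem avg_sub (hD : IsOpen D) (hμ : IsMean Λ μ) (hg : IsKahler (tot κ D) S g) {x : ι ⊕ κ → ℂ} (hx : x ∈ tot κ D) (i j : ι ⊕ κ) :
    ∫ p, fderiv ℝ (fun y => g y i j) (x + pt 0 (p.1 • p.2)) (pt 0 p.2) ∂(muI μ) = avg μ g x i j - g x i j := by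
  have hprob := hμ.prob
  have hU : IsOpen (tot κ D) := isOpen_tot hD
  have hf : ContDiffOn ℝ ∞ (fun y => g y i j) (tot κ D) := hg.smooth i j
  have hfd : ContinuousOn (fderiv ℝ (fun y => g y i j)) (tot κ D) :=
    hf.continuousOn_fderiv_of_isOpen hU (by simp)
  have H : Continuous (fun p : ℝ × (κ → ℂ) =>
      fderiv ℝ (fun y => g y i j) (x + pt 0 (p.1 • p.2)) (pt 0 p.2)) :=
    (cont_seg hfd hx).clm_apply (continuous_pt0.comp continuous_snd)
  have hI := muI_integrable hμ H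
  have hinner : ∀ a : κ → ℂ, ∫ s in Set.Icc (0 : ℝ) 1,
      fderiv ℝ (fun y => g y i j) (x + pt 0 (s • a)) (pt 0 a) = g (x + pt 0 a) i j - g x i j := by
    intro a
    rw [integral_Icc_eq_integral_Ioc, ← intervalIntegral.integral_of_le zero_le_one]
    have hd : ∀ s ∈ Set.uIcc (0 : ℝ) 1, HasDerivAt (fun s : ℝ => g (x + pt 0 (s • a)) i j)
        (fderiv ℝ (fun y => g y i j) (x + pt 0 (s • a)) (pt 0 a)) s := by
      intro s _
      have h1 : HasDerivAt (fun s : ℝ => x + pt 0 (s • a)) (pt 0 a) s := by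
        have h2 : HasDerivAt (fun s : ℝ => x + s • (pt 0 a : ι ⊕ κ → ℂ)) ((1 : ℝ) • pt 0 a) s :=
          ((hasDerivAt_id s).smul_const (pt 0 a : ι ⊕ κ → ℂ)).const_add x
        rw [one_smul] at h2
        simpa only [smul_pt] using h2
      have h3 : DifferentiableAt ℝ (fun y => g y i j) (x + pt 0 (s • a)) :=
        ((hf.contDiffAt (hU.mem_nhds (add_mem_tot hx _))).differentiableAt (by simp))
      exact h3.hasFDerivAt.comp_hasDerivAt s h1
    have hc : Continuous (fun s : ℝ => fderiv ℝ (fun y => g y i j) (x + pt 0 (s • a)) (pt 0 a)) :=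
      H.comp (continuous_id.prodMk continuous_const)
    rw [intervalIntegral.integral_eq_sub_of_hasDerivAt hd (hc.intervalIntegrable _ _)]
    simp only [one_smul, zero_smul, pt_zero_zero, add_zero]
  unfold muI at hI ⊢
  rw [integral_prod_symm _ hI]
  simp only [hinner]
  rw [integral_sub (hμ.integrable (continuous_fibre hf.continuousOn hx)) (integrable_const _)]
  simp [avg]

theorem prim_eq (hD : IsOpen D) (hμ : IsMean Λ μ) (hg : IsKahler (tot κ D) S g) {x : ι ⊕ κ → ℂ} (hx : x ∈ tot κ D) (i j : ι ⊕ κ) :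
    avg μ g x i j - g x i j = -I * (dz i (fun y => conj (prim μ g y j)) x - dzbar j (fun y => prim μ g y i) x) := by
  have hU : IsOpen (tot κ D) := isOpen_tot hD
  have hf : ContDiffOn ℝ ∞ (fun y => g y i j) (tot κ D) := hg.smooth i j
  have e1 : dz i (fun y => conj (prim μ g y j)) x =
      I * ∑ l : κ, ∫ p, p.2 l * dz (Sum.inr l) (fun y => g y i j) (x + pt 0 (p.1 • p.2)) ∂(muI μ) := by
    rw [dz_conj, dzbar_prim hD hμ hg hx i j, map_mul, map_sum, map_neg, conj_I, neg_neg]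
    congr 1
    refine Finset.sum_congr rfl fun l _ => ?_
    rw [← integral_conj]
    refine integral_congr_ae (Filter.Eventually.of_forall fun p => ?_)
    have hp : x + pt 0 (p.1 • p.2) ∈ tot κ D := add_mem_tot hx _
    simp only [map_mul, conj_conj]
    rw [conj_entry_dzbar hU hg hp, hg.closed _ hp (Sum.inr l) j i]
  have e2 : dzbar j (fun y => prim μ g y i) x =
      -I * ∑ l : κ, ∫ p, conj (p.2 l) * dzbar (Sum.inr l) (fun y => g y i j) (x + pt 0 (p.1 • p.2)) ∂(muI μ) := by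
    rw [dzbar_prim hD hμ hg hx j i]
    congr 1
    refine Finset.sum_congr rfl fun l _ => ?_
    refine integral_congr_ae (Filter.Eventually.of_forall fun p => ?_)
    have hp : x + pt 0 (p.1 • p.2) ∈ tot κ D := add_mem_tot hx _
    simp only
    rw [closed_bar hU hg hp i (Sum.inr l) j]
  have c1 : ∀ l : κ, Integrable (fun p : ℝ × (κ → ℂ) =>
      p.2 l * dz (Sum.inr l) (fun y => g y i j) (x + pt 0 (p.1 • p.2))) (muI μ) := fun l =>
    muI_integrable hμ (((continuous_apply l).comp continuous_snd).mul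
      (cont_seg (dz_contDiffOn hU hf (Sum.inr l)).continuousOn hx))
  have c2 : ∀ l : κ, Integrable (fun p : ℝ × (κ → ℂ) =>
      conj (p.2 l) * dzbar (Sum.inr l) (fun y => g y i j) (x + pt 0 (p.1 • p.2))) (muI μ) := fun l =>
    muI_integrable hμ ((Complex.continuous_conj.comp ((continuous_apply l).comp continuous_snd)).mul
      (cont_seg (dzbar_contDiffOn hU hf (Sum.inr l)).continuousOn hx))
  have e3 : ∫ p, fderiv ℝ (fun y => g y i j) (x + pt 0 (p.1 • p.2)) (pt 0 p.2) ∂(muI μ) =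
      (∑ l : κ, ∫ p, p.2 l * dz (Sum.inr l) (fun y => g y i j) (x + pt 0 (p.1 • p.2)) ∂(muI μ)) +
      ∑ l : κ, ∫ p, conj (p.2 l) * dzbar (Sum.inr l) (fun y => g y i j) (x + pt 0 (p.1 • p.2)) ∂(muI μ) := by
    rw [← Finset.sum_add_distrib]
    have : ∀ l : κ, (∫ p, p.2 l * dz (Sum.inr l) (fun y => g y i j) (x + pt 0 (p.1 • p.2)) ∂(muI μ)) +
        ∫ p, conj (p.2 l) * dzbar (Sum.inr l) (fun y => g y i j) (x + pt 0 (p.1 • p.2)) ∂(muI μ) =
        ∫ p, (p.2 l * dz (Sum.inr l) (fun y => g y i j) (x + pt 0 (p.1 • p.2)) +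
          conj (p.2 l) * dzbar (Sum.inr l) (fun y => g y i j) (x + pt 0 (p.1 • p.2))) ∂(muI μ) := fun l =>
      (integral_add (c1 l) (c2 l)).symm
    rw [Finset.sum_congr rfl fun l _ => this l]
    refine Eq.trans ?_ (integral_finsetSum Finset.univ fun l _ => (c1 l).add (c2 l))
    refine integral_congr_ae (Filter.Eventually.of_forall fun p => ?_)
    change fderiv ℝ (fun y => g y i j) (x + pt 0 (p.1 • p.2)) (pt 0 p.2) = ∑ l : κ,
      (p.2 l * dz (Sum.inr l) (fun y => g y i j) (x + pt 0 (p.1 • p.2)) +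
          conj (p.2 l) * dzbar (Sum.inr l) (fun y => g y i j) (x + pt 0 (p.1 • p.2)))
    rw [fderiv_eq_sum, Fintype.sum_sum_type]
    have z1 : ∀ a : ι, (pt 0 p.2 : ι ⊕ κ → ℂ) (Sum.inl a) = 0 := fun a => rfl
    have z2 : ∀ a : κ, (pt 0 p.2 : ι ⊕ κ → ℂ) (Sum.inr a) = p.2 a := fun a => rfl
    simp only [z1, z2, map_zero, zero_mul, add_zero, Finset.sum_const_zero, zero_add]
  rw [← avg_sub hD hμ hg hx i j, e3, e1, e2]
  have hI : I * I = -1 := I_mul_I
  linear_combination ((∑ l : κ, ∫ p, p.2 l * dz (Sum.inr l) (fun y => g y i j) (x + pt 0 (p.1 • p.2)) ∂(muI μ)) +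
    ∑ l : κ, ∫ p, conj (p.2 l) * dzbar (Sum.inr l) (fun y => g y i j) (x + pt 0 (p.1 • p.2)) ∂(muI μ)) * hI

end YT
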