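import Pool.Agent.Lib.MP_464db4_gt.YT.Mob

/-!
# YT-Disc: discontinuity and locally finite sums over `Γ`
* `proper_set`, `cocompact_set`: transfer of the structure fields of `CocompactFuchsian` from `UpperHalfPlane` to subsets of `halfPlane ⊆ ℂ^1`: the map
  `halfPlane → UpperHalfPlane`, `x ↦ ⟨x (), hx⟩` and its inverse `z ↦ fun _ => z` are continuous, and `mob_coe`.
  A compact `K ⊆ halfPlane` corresponds to a compact set of `UpperHalfPlane` (image of `K` under a map continuous on `K`, e.g. `UpperHalfPlane.ofComplex (x ())`, or `Subtype`-embeddings).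
* `loc_finite`: take a compact neighbourhood `V ⊆ halfPlane` of `x`; apply `proper_set` to `V ∪ K`.
* `finsum_smooth`, `finsum_dzbar`: on the neighbourhood `V` of `x` the sum is the finite sum over the finite set of `loc_finite` (`finsum_eq_sum_of_support_subset`); `ContDiffOn.sum`, `dzbar_sum`, `dzbar_congr`;
  the terms outside of the finite set vanish on `V`, so their `dzbar` at `x` is `0` as well.
* `finsum_shift`: `finsum_comp_equiv (Equiv.mulRight δ)`.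
-/

namespace YT

open Complex Matrix MeasureTheory
open scoped ContDiff ComplexConjugate ComplexOrder

variable {Γ : Subgroup (Matrix.SpecialLinearGroup (Fin 2) ℝ)}

private theorem disc_coe_of {x : Unit → ℂ} (hx : x ∈ halfPlane) :
    (fun _ : Unit => ((⟨x (), hx⟩ : UpperHalfPlane) : ℂ)) = x := by
  funext i
  rfl

theorem proper_set (hΓ : CocompactFuchsian Γ) {K : Set (Unit → ℂ)} (hK : IsCompact K) (hKH : K ⊆ halfPlane) :
    {γ : Matrix.SpecialLinearGroup (Fin 2) ℝ | γ ∈ Γ ∧ ∃ x ∈ K, mob γ x ∈ K}.Finite := by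
  have hcont : Continuous fun x : K => (⟨x.1 (), hKH x.2⟩ : UpperHalfPlane) := by
    rw [UpperHalfPlane.isEmbedding_coe.continuous_iff]
    exact (continuous_apply ()).comp continuous_subtype_val
  have hKc : CompactSpace K := isCompact_iff_compactSpace.mp hK
  have hK' : IsCompact (Set.range fun x : K => (⟨x.1 (), hKH x.2⟩ : UpperHalfPlane)) :=
    isCompact_range hcont
  refine (hΓ.proper _ hK').subset ?_
  rintro γ ⟨hγ, x, hx, hx'⟩
  refine ⟨hγ, ⟨x (), hKH hx⟩, ⟨⟨x, hx⟩, rfl⟩, ⟨⟨mob γ x, hx'⟩, ?_⟩⟩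
  have h := mob_coe γ (⟨x (), hKH hx⟩ : UpperHalfPlane)
  rw [disc_coe_of (hKH hx)] at h
  apply UpperHalfPlane.ext
  change mob γ x () = _
  rw [h]

theorem cocompact_set (hΓ : CocompactFuchsian Γ) :
    ∃ K : Set (Unit → ℂ), IsCompact K ∧ K ⊆ halfPlane ∧ ∀ x ∈ halfPlane, ∃ γ ∈ Γ, mob γ x ∈ K := by
  obtain ⟨K, hK, hcov⟩ := hΓ.cocompact
  refine ⟨(fun z : UpperHalfPlane => fun _ : Unit => (z : ℂ)) '' K, ?_, ?_, ?_⟩
  · exact hK.image (continuous_pi fun _ => UpperHalfPlane.continuous_coe)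
  · rintro _ ⟨z, -, rfl⟩
    exact z.im_pos
  · intro x hx
    obtain ⟨γ, hγ, hz⟩ := hcov ⟨x (), hx⟩
    refine ⟨γ, hγ, _, hz, ?_⟩
    have h := mob_coe γ (⟨x (), hx⟩ : UpperHalfPlane)
    rw [disc_coe_of hx] at h
    exact h.symm

theorem loc_finite (hΓ : CocompactFuchsian Γ) {K : Set (Unit → ℂ)} (hK : IsCompact K) (hKH : K ⊆ halfPlane) {x : Unit → ℂ}
    (hx : x ∈ halfPlane) : ∃ V : Set (Unit → ℂ), IsOpen V ∧ x ∈ V ∧ V ⊆ halfPlane ∧ {γ : Γ | ∃ y ∈ V, mob γ y ∈ K}.Finite := by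
  obtain ⟨C, hC, hxC, hCH⟩ := exists_compact_subset isOpen_halfPlane hx
  refine ⟨interior C, isOpen_interior, hxC, interior_subset.trans hCH, ?_⟩
  have hfin := proper_set hΓ (hC.union hK) (Set.union_subset hCH hKH)
  refine (hfin.preimage (Subtype.val_injective.injOn)).subset ?_
  rintro γ ⟨y, hy, hy'⟩
  exact ⟨γ.2, y, Or.inl (interior_subset hy), Or.inr hy'⟩

private theorem disc_local (hΓ : CocompactFuchsian Γ) {K : Set (Unit → ℂ)} (hK : IsCompact K) (hKH : K ⊆ halfPlane)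
    {ψ : Γ → (Unit → ℂ) → ℂ} (h0 : ∀ γ : Γ, ∀ x ∈ halfPlane, mob γ x ∉ K → ψ γ x = 0) {x : Unit → ℂ}
    (hx : x ∈ halfPlane) : ∃ T : Finset Γ, (∀ γ : Γ, γ ∉ T → ψ γ =ᶠ[nhds x] fun _ => 0) ∧
      (fun y => ∑ᶠ γ : Γ, ψ γ y) =ᶠ[nhds x] fun y => ∑ γ ∈ T, ψ γ y := by
  obtain ⟨V, hV, hxV, hVH, hfin⟩ := loc_finite hΓ hK hKH hx
  refine ⟨hfin.toFinset, ?_, ?_⟩
  · intro γ hγ
    filter_upwards [hV.mem_nhds hxV] with y hy
    refine h0 γ y (hVH hy) fun hy' => hγ ?_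
    rw [Set.Finite.mem_toFinset]
    exact ⟨y, hy, hy'⟩
  · filter_upwards [hV.mem_nhds hxV] with y hy
    refine finsum_eq_sum_of_support_subset _ ?_
    intro γ hγ
    rw [Set.Finite.coe_toFinset]
    by_contra hn
    exact hγ (h0 γ y (hVH hy) fun hy' => hn ⟨y, hy, hy'⟩)

theorem finsum_smooth (hΓ : CocompactFuchsian Γ) {K : Set (Unit → ℂ)} (hK : IsCompact K) (hKH : K ⊆ halfPlane)
    {ψ : Γ → (Unit → ℂ) → ℂ} (hψ : ∀ γ, ContDiffOn ℝ ∞ (ψ γ) halfPlane) (h0 : ∀ γ : Γ, ∀ x ∈ halfPlane, mob γ x ∉ K → ψ γ x = 0) :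
    ContDiffOn ℝ ∞ (fun x => ∑ᶠ γ : Γ, ψ γ x) halfPlane := by
  intro x hx
  obtain ⟨T, -, hT⟩ := disc_local hΓ hK hKH h0 hx
  have h1 : ContDiffAt ℝ ∞ (fun y => ∑ γ ∈ T, ψ γ y) x :=
    ContDiffAt.sum fun γ _ => (hψ γ).contDiffAt (isOpen_halfPlane.mem_nhds hx)
  exact (h1.congr_of_eventuallyEq hT).contDiffWithinAt

theorem finsum_dzbar (hΓ : CocompactFuchsian Γ) {K : Set (Unit → ℂ)} (hK : IsCompact K) (hKH : K ⊆ halfPlane)
    {ψ : Γ → (Unit → ℂ) → ℂ} (hψ : ∀ γ, ContDiffOn ℝ ∞ (ψ γ) halfPlane) (h0 : ∀ γ : Γ, ∀ x ∈ halfPlane, mob γ x ∉ K → ψ γ x = 0)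
    {x : Unit → ℂ} (hx : x ∈ halfPlane) : dzbar () (fun x => ∑ᶠ γ : Γ, ψ γ x) x = ∑ᶠ γ : Γ, dzbar () (ψ γ) x := by
  obtain ⟨T, hT0, hT⟩ := disc_local hΓ hK hKH h0 hx
  rw [dzbar_congr () hT, dzbar_sum T ψ () fun γ _ =>
    ((hψ γ).contDiffAt (isOpen_halfPlane.mem_nhds hx)).differentiableAt (by simp)]
  symm
  refine finsum_eq_sum_of_support_subset _ ?_
  intro γ hγ
  by_contra hn
  apply hγ
  change dzbar () (ψ γ) x = 0
  rw [dzbar_congr () (hT0 γ hn), dzbar_const]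

theorem finite_supp (hΓ : CocompactFuchsian Γ) {K : Set (Unit → ℂ)} (hK : IsCompact K) (hKH : K ⊆ halfPlane)
    {x : Unit → ℂ} (hx : x ∈ halfPlane) : {γ : Γ | mob γ x ∈ K}.Finite := by
  obtain ⟨V, hV, hxV, hVH, hfin⟩ := loc_finite hΓ hK hKH hx
  exact hfin.subset fun γ hγ => ⟨x, hxV, hγ⟩

theorem finsum_shift (δ : Γ) (u : Γ → ℂ) : ∑ᶠ γ : Γ, u (γ * δ) = ∑ᶠ γ : Γ, u γ :=
  finsum_comp_equiv (Equiv.mulRight δ)

end YT
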