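import Pool.Agent.Lib.MP_464db4_gt.YT.WirtB

/-!
# YT-Mob: Moebius transformations on the half plane `halfPlane ⊆ ℂ^1`
-/

namespace YT

open Complex Matrix MeasureTheory
open scoped ContDiff ComplexConjugate ComplexOrder

private theorem Mob_det (γ : Matrix.SpecialLinearGroup (Fin 2) ℝ) : γ 0 0 * γ 1 1 - γ 0 1 * γ 1 0 = 1 := by
  have h := γ.det_coe
  rwa [Matrix.det_fin_two] at h

private theorem Mob_detC (γ : Matrix.SpecialLinearGroup (Fin 2) ℝ) :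
    ((γ 0 0 : ℝ) : ℂ) * ((γ 1 1 : ℝ) : ℂ) - ((γ 0 1 : ℝ) : ℂ) * ((γ 1 0 : ℝ) : ℂ) = 1 := by
  have h := Mob_det γ
  exact_mod_cast congrArg (fun t : ℝ => (t : ℂ)) h

theorem denom_ne (γ : Matrix.SpecialLinearGroup (Fin 2) ℝ) {x : Unit → ℂ} (hx : x ∈ halfPlane) :
    (((γ 1 0 : ℝ) : ℂ) * x () + ((γ 1 1 : ℝ) : ℂ)) ≠ 0 := by
  intro h
  have hx' : 0 < (x ()).im := hx
  have him := congrArg Complex.im h
  have hre := congrArg Complex.re h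
  simp only [Complex.add_im, Complex.mul_im, Complex.ofReal_re, Complex.ofReal_im, zero_mul, add_zero,
    Complex.zero_im] at him
  simp only [Complex.add_re, Complex.mul_re, Complex.ofReal_re, Complex.ofReal_im, zero_mul, sub_zero,
    Complex.zero_re] at hre
  have hc : γ 1 0 = 0 := by
    rcases mul_eq_zero.mp him with h1 | h1
    · exact h1
    · exact absurd h1 hx'.ne'
  rw [hc, zero_mul, zero_add] at hre
  have hd := Mob_det γ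
  rw [hc, hre] at hd
  simp at hd

theorem isOpen_halfPlane : IsOpen halfPlane := by
  have : Continuous fun x : Unit → ℂ => (x ()).im := Complex.continuous_im.comp (continuous_apply ())
  exact isOpen_lt continuous_const this

theorem isConnected_halfPlane : IsConnected halfPlane := by
  have hconv : Convex ℝ halfPlane := by
    intro x hx y hy a b ha hb hab
    have hx' : 0 < (x ()).im := hx
    have hy' : 0 < (y ()).im := hy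
    show 0 < ((a • x + b • y) ()).im
    simp only [Pi.add_apply, Pi.smul_apply, Complex.add_im, Complex.real_smul, Complex.mul_im,
      Complex.ofReal_re, Complex.ofReal_im, zero_mul, add_zero]
    rcases ha.lt_or_eq with h | h
    · nlinarith [mul_pos h hx', mul_nonneg hb hy'.le]
    · have hb1 : b = 1 := by linarith
      rw [← h, hb1]; simpa using hy'
  refine ⟨⟨fun _ => I, ?_⟩, hconv.isPreconnected⟩
  show 0 < (I : ℂ).im
  simp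

theorem mob_coe (γ : Matrix.SpecialLinearGroup (Fin 2) ℝ) (z : UpperHalfPlane) :
    mob γ (fun _ => (z : ℂ)) = fun _ => ((γ • z : UpperHalfPlane) : ℂ) := by
  funext _
  rw [UpperHalfPlane.coe_specialLinearGroup_apply]
  rfl

private theorem Mob_im (γ : Matrix.SpecialLinearGroup (Fin 2) ℝ) (x : Unit → ℂ) :
    (mob γ x ()).im = (x ()).im / Complex.normSq (((γ 1 0 : ℝ) : ℂ) * x () + ((γ 1 1 : ℝ) : ℂ)) := by
  have hd := Mob_det γ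
  have h0 : (mob γ x ()) = (((γ 0 0 : ℝ) : ℂ) * x () + ((γ 0 1 : ℝ) : ℂ)) /
      (((γ 1 0 : ℝ) : ℂ) * x () + ((γ 1 1 : ℝ) : ℂ)) := rfl
  rw [h0, Complex.div_im, ← sub_div]
  congr 1
  simp only [Complex.add_im, Complex.add_re, Complex.mul_im, Complex.mul_re, Complex.ofReal_re,
    Complex.ofReal_im, zero_mul, add_zero, sub_zero]
  linear_combination ((x ()).im) * hd

theorem mob_mem (γ : Matrix.SpecialLinearGroup (Fin 2) ℝ) {x : Unit → ℂ} (hx : x ∈ halfPlane) : mob γ x ∈ halfPlane := by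
  have hx' : 0 < (x ()).im := hx
  show 0 < (mob γ x ()).im
  rw [Mob_im]
  exact div_pos hx' (Complex.normSq_pos.mpr (denom_ne γ hx))

theorem mob_one (x : Unit → ℂ) : mob 1 x = x := by
  funext i
  simp [mob]

private theorem Mob_mul_apply (γ δ : Matrix.SpecialLinearGroup (Fin 2) ℝ) (i j : Fin 2) :
    (γ * δ) i j = γ i 0 * δ 0 j + γ i 1 * δ 1 j := by
  have h : ((γ * δ : Matrix.SpecialLinearGroup (Fin 2) ℝ) : Matrix (Fin 2) (Fin 2) ℝ) i j =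
      ((γ : Matrix (Fin 2) (Fin 2) ℝ) * (δ : Matrix (Fin 2) (Fin 2) ℝ)) i j := by
    rw [Matrix.SpecialLinearGroup.coe_mul]
  rw [Matrix.mul_apply, Fin.sum_univ_two] at h
  exact h

private theorem Mob_denom_mul (γ δ : Matrix.SpecialLinearGroup (Fin 2) ℝ) {x : Unit → ℂ} (hx : x ∈ halfPlane) :
    (((γ * δ) 1 0 : ℝ) : ℂ) * x () + (((γ * δ) 1 1 : ℝ) : ℂ) =
      (((γ 1 0 : ℝ) : ℂ) * mob δ x () + ((γ 1 1 : ℝ) : ℂ)) *
        (((δ 1 0 : ℝ) : ℂ) * x () + ((δ 1 1 : ℝ) : ℂ)) := by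
  have hD := denom_ne δ hx
  have h0 : (mob δ x ()) = (((δ 0 0 : ℝ) : ℂ) * x () + ((δ 0 1 : ℝ) : ℂ)) /
      (((δ 1 0 : ℝ) : ℂ) * x () + ((δ 1 1 : ℝ) : ℂ)) := rfl
  rw [h0, Mob_mul_apply, Mob_mul_apply]
  push_cast
  field_simp
  ring

theorem mob_mul (γ δ : Matrix.SpecialLinearGroup (Fin 2) ℝ) {x : Unit → ℂ} (hx : x ∈ halfPlane) :
    mob (γ * δ) x = mob γ (mob δ x) := by
  funext i
  have hD := denom_ne δ hx
  have hD2 := denom_ne γ (mob_mem δ hx)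
  have h1 : mob (γ * δ) x i = ((((γ * δ) 0 0 : ℝ) : ℂ) * x () + (((γ * δ) 0 1 : ℝ) : ℂ)) /
      ((((γ * δ) 1 0 : ℝ) : ℂ) * x () + (((γ * δ) 1 1 : ℝ) : ℂ)) := rfl
  have h2 : mob γ (mob δ x) i = (((γ 0 0 : ℝ) : ℂ) * mob δ x () + ((γ 0 1 : ℝ) : ℂ)) /
      (((γ 1 0 : ℝ) : ℂ) * mob δ x () + ((γ 1 1 : ℝ) : ℂ)) := rfl
  have hN : (((γ * δ) 0 0 : ℝ) : ℂ) * x () + (((γ * δ) 0 1 : ℝ) : ℂ) =
      (((γ 0 0 : ℝ) : ℂ) * mob δ x () + ((γ 0 1 : ℝ) : ℂ)) *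
        (((δ 1 0 : ℝ) : ℂ) * x () + ((δ 1 1 : ℝ) : ℂ)) := by
    have h0 : (mob δ x ()) = (((δ 0 0 : ℝ) : ℂ) * x () + ((δ 0 1 : ℝ) : ℂ)) /
        (((δ 1 0 : ℝ) : ℂ) * x () + ((δ 1 1 : ℝ) : ℂ)) := rfl
    rw [h0, Mob_mul_apply, Mob_mul_apply]
    push_cast
    field_simp
    ring
  rw [h1, h2, Mob_denom_mul γ δ hx, hN, mul_div_mul_right _ _ hD]

private theorem Mob_proj (x : Unit → ℂ) :
    HasFDerivAt (fun y : Unit → ℂ => y ()) (ContinuousLinearMap.proj (R := ℂ) (φ := fun _ : Unit => ℂ) ()) x :=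
  (ContinuousLinearMap.proj (R := ℂ) (φ := fun _ : Unit => ℂ) ()).hasFDerivAt

private theorem Mob_lin (a b : ℂ) : Differentiable ℂ (fun y : Unit → ℂ => a * y () + b) := fun x =>
  (((Mob_proj x).differentiableAt).const_mul a).add_const b

theorem mob_hol (γ : Matrix.SpecialLinearGroup (Fin 2) ℝ) : DifferentiableOn ℂ (mob γ) halfPlane := by
  rw [differentiableOn_pi]
  intro i x hx
  have h : (fun y => mob γ y i) = fun y : Unit → ℂ =>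
    (((γ 0 0 : ℝ) : ℂ) * y () + ((γ 0 1 : ℝ) : ℂ)) / (((γ 1 0 : ℝ) : ℂ) * y () + ((γ 1 1 : ℝ) : ℂ)) := rfl
  rw [h]
  have n1 := Mob_lin ((γ 0 0 : ℝ) : ℂ) ((γ 0 1 : ℝ) : ℂ) x
  have n2 := Mob_lin ((γ 1 0 : ℝ) : ℂ) ((γ 1 1 : ℝ) : ℂ) x
  have n3 : DifferentiableAt ℂ (fun y : Unit → ℂ => (((γ 0 0 : ℝ) : ℂ) * y () + ((γ 0 1 : ℝ) : ℂ)) *
      (((γ 1 0 : ℝ) : ℂ) * y () + ((γ 1 1 : ℝ) : ℂ))⁻¹) x := n1.mul (n2.inv (denom_ne γ hx))
  simpa only [div_eq_mul_inv] using n3.differentiableWithinAt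

/-- The derivative of the Moebius transformation. -/
noncomputable def mj (γ : Matrix.SpecialLinearGroup (Fin 2) ℝ) (x : Unit → ℂ) : ℂ :=
  1 / (((γ 1 0 : ℝ) : ℂ) * x () + ((γ 1 1 : ℝ) : ℂ)) ^ 2

theorem mj_ne (γ : Matrix.SpecialLinearGroup (Fin 2) ℝ) {x : Unit → ℂ} (hx : x ∈ halfPlane) : mj γ x ≠ 0 := by
  unfold mj
  exact one_div_ne_zero (pow_ne_zero 2 (denom_ne γ hx))

theorem jac_mob (γ : Matrix.SpecialLinearGroup (Fin 2) ℝ) {x : Unit → ℂ} (hx : x ∈ halfPlane) (i j : Unit) :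
    jac (mob γ) x i j = mj γ x := by
  have hD := denom_ne γ hx
  have h1 : jac (mob γ) x i j = dz j (fun y : Unit → ℂ =>
    (((γ 0 0 : ℝ) : ℂ) * y () + ((γ 0 1 : ℝ) : ℂ)) / (((γ 1 0 : ℝ) : ℂ) * y () + ((γ 1 1 : ℝ) : ℂ))) x := rfl
  have hg : HasDerivAt (fun t : ℂ => (((γ 0 0 : ℝ) : ℂ) * t + ((γ 0 1 : ℝ) : ℂ)) /
      (((γ 1 0 : ℝ) : ℂ) * t + ((γ 1 1 : ℝ) : ℂ)))
      ((((γ 0 0 : ℝ) : ℂ) * (((γ 1 0 : ℝ) : ℂ) * x () + ((γ 1 1 : ℝ) : ℂ)) -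
        (((γ 0 0 : ℝ) : ℂ) * x () + ((γ 0 1 : ℝ) : ℂ)) * ((γ 1 0 : ℝ) : ℂ)) /
        (((γ 1 0 : ℝ) : ℂ) * x () + ((γ 1 1 : ℝ) : ℂ)) ^ 2) (x ()) := by
    have n1 : HasDerivAt (fun t : ℂ => ((γ 0 0 : ℝ) : ℂ) * t + ((γ 0 1 : ℝ) : ℂ)) ((γ 0 0 : ℝ) : ℂ) (x ()) := by
      simpa using ((hasDerivAt_id (x ())).const_mul ((γ 0 0 : ℝ) : ℂ)).add_const ((γ 0 1 : ℝ) : ℂ)
    have n2 : HasDerivAt (fun t : ℂ => ((γ 1 0 : ℝ) : ℂ) * t + ((γ 1 1 : ℝ) : ℂ)) ((γ 1 0 : ℝ) : ℂ) (x ()) := by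
      simpa using ((hasDerivAt_id (x ())).const_mul ((γ 1 0 : ℝ) : ℂ)).add_const ((γ 1 1 : ℝ) : ℂ)
    exact n1.div n2 hD
  have hf := hg.comp_hasFDerivAt x (Mob_proj x)
  have hf' : HasFDerivAt (fun y : Unit → ℂ =>
      (((γ 0 0 : ℝ) : ℂ) * y () + ((γ 0 1 : ℝ) : ℂ)) / (((γ 1 0 : ℝ) : ℂ) * y () + ((γ 1 1 : ℝ) : ℂ))) _ x := hf
  rw [h1, dz_hol j hf'.differentiableAt, hf'.fderiv]
  have hj : j = () := rfl
  subst hj
  have hdc := Mob_detC γ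
  simp only [_root_.smul_apply, ContinuousLinearMap.proj_apply, Pi.single_eq_same, smul_eq_mul, mul_one]
  unfold mj
  congr 1
  linear_combination hdc

theorem mj_one (x : Unit → ℂ) : mj 1 x = 1 := by
  simp [mj]

theorem mj_mul (γ δ : Matrix.SpecialLinearGroup (Fin 2) ℝ) {x : Unit → ℂ} (hx : x ∈ halfPlane) :
    mj (γ * δ) x = mj γ (mob δ x) * mj δ x := by
  have hD := denom_ne δ hx
  have hD2 := denom_ne γ (mob_mem δ hx)
  unfold mj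
  rw [Mob_denom_mul γ δ hx, mul_pow, one_div_mul_one_div]

theorem mj_hol (γ : Matrix.SpecialLinearGroup (Fin 2) ℝ) : DifferentiableOn ℂ (mj γ) halfPlane := by
  intro x hx
  have n2 := (Mob_lin ((γ 1 0 : ℝ) : ℂ) ((γ 1 1 : ℝ) : ℂ) x).fun_pow 2
  have n1 : DifferentiableAt ℂ (fun _ : Unit → ℂ => (1 : ℂ)) x := differentiableAt_const _
  have n3 : DifferentiableAt ℂ (fun y : Unit → ℂ => 1 *
      ((((γ 1 0 : ℝ) : ℂ) * y () + ((γ 1 1 : ℝ) : ℂ)) ^ 2)⁻¹) x := n1.mul (n2.inv (pow_ne_zero 2 (denom_ne γ hx)))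
  have h : mj γ = fun y : Unit → ℂ => 1 * ((((γ 1 0 : ℝ) : ℂ) * y () + ((γ 1 1 : ℝ) : ℂ)) ^ 2)⁻¹ := by
    funext y
    rw [mj, div_eq_mul_inv]
  rw [h]
  exact n3.differentiableWithinAt

theorem im_mob (γ : Matrix.SpecialLinearGroup (Fin 2) ℝ) {x : Unit → ℂ} (hx : x ∈ halfPlane) :
    (mob γ x ()).im = (x ()).im * ‖mj γ x‖ := by
  rw [Mob_im, mj, norm_div, norm_one, norm_pow, ← Complex.normSq_eq_norm_sq, mul_one_div]

end YT
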