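import Pool.Agent.Lib.MP_464db4_gt.YT.SchB

/-!
# YT-Asm: gluing a form of the base into the total space
`glue gm β' x = fromBlocks (β'(bas x) + Θ h⁻¹ Θᴴ) Θ Θᴴ h` with the blocks of `gm (pt (bas x) 0)`.
* `glue_eq`: on `tot κ D`, `glue gm β' x = gm x + fromBlocks (β' (bas x) - schur gm (bas x)) 0 0 0` (`FibreConst.eq_pt`, `eq_fromBlocks`, definition of `schur`).
* smooth: from `glue_eq`, `contDiffOn_bas`; closed: both parts are closed (`dz_bas_inl`, `dz_bas_inr`; the second matrix has only base entries);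
  positive definite: `glue_posDef`; invariance under `T.F γ`: `Jᵀ (fromBlocks X 0 0 0) J̄ = fromBlocks (f'ᵀ X f̄') 0 0 0` for `J = fromBlocks f' 0 τ' A`; under `shift v`: `bas (shift v x) = bas x`, `jac = 1`.
* primitive: `e' x = Sum.elim (ε (bas x)) 0`; `glue - gm = fromBlocks (β' - β) 0 0 0`, and the derivatives are `dz_bas_inl/inr`, `dzbar_bas_inl/inr`
  (conj of `0` etc.; the components `inr k` of `e'` are the constant function `0`).
-/

namespace YT

open Complex Matrix MeasureTheory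
open scoped ContDiff ComplexConjugate ComplexOrder

variable {ι κ : Type} [Fintype ι] [DecidableEq ι] [Fintype κ] [DecidableEq κ] {D : Set (ι → ℂ)} {G : Type}
  {T : TorusData ι κ D G} {gm : (ι ⊕ κ → ℂ) → Matrix (ι ⊕ κ) (ι ⊕ κ) ℂ} {β' : (ι → ℂ) → Matrix ι ι ℂ}

/-- The form of the total space with Schur complement `β'`. -/
noncomputable def glue (gm : (ι ⊕ κ → ℂ) → Matrix (ι ⊕ κ) (ι ⊕ κ) ℂ) (β' : (ι → ℂ) → Matrix ι ι ℂ) (x : ι ⊕ κ → ℂ) :
    Matrix (ι ⊕ κ) (ι ⊕ κ) ℂ :=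
  fromBlocks
    (β' (bas x) + (gm (pt (bas x) 0)).toBlocks₁₂ * ((gm (pt (bas x) 0)).toBlocks₂₂)⁻¹ * ((gm (pt (bas x) 0)).toBlocks₁₂)ᴴ)
    (gm (pt (bas x) 0)).toBlocks₁₂ ((gm (pt (bas x) 0)).toBlocks₁₂)ᴴ (gm (pt (bas x) 0)).toBlocks₂₂

/-- The difference of the two forms: only the base block is nonzero. -/
noncomputable def asmCorr (gm : (ι ⊕ κ → ℂ) → Matrix (ι ⊕ κ) (ι ⊕ κ) ℂ) (β' : (ι → ℂ) → Matrix ι ι ℂ) (x : ι ⊕ κ → ℂ) :
    Matrix (ι ⊕ κ) (ι ⊕ κ) ℂ := fromBlocks (β' (bas x) - schur gm (bas x)) 0 0 0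

theorem glue_eq (hg : IsKahler (tot κ D) T.total gm) (hc : FibreConst D gm) {x : ι ⊕ κ → ℂ} (hx : x ∈ tot κ D) :
    glue gm β' x = gm x + fromBlocks (β' (bas x) - schur gm (bas x)) 0 0 0 := by
  have hb : bas x ∈ D := hx
  have hM : (gm (pt (bas x) 0)).IsHermitian := (hg.pos _ (pt_mem_tot hb 0)).isHermitian
  rw [hc.eq_pt hx]
  conv_rhs => rw [eq_fromBlocks hM]
  unfold glue schur
  simp only [fromBlocks_add, add_zero]
  congr 1
  abel

theorem asm_glue_eq (hg : IsKahler (tot κ D) T.total gm) (hc : FibreConst D gm) {x : ι ⊕ κ → ℂ} (hx : x ∈ tot κ D)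
    (i j : ι ⊕ κ) : glue gm β' x i j = gm x i j + asmCorr gm β' x i j := by
  rw [glue_eq hg hc hx]
  rfl

theorem asm_diff {f : (ι → ℂ) → ℂ} (hD : IsOpen D) (hf : ContDiffOn ℝ ∞ f D) {b : ι → ℂ} (hb : b ∈ D) :
    DifferentiableAt ℝ f b :=
  (hf.contDiffAt (hD.mem_nhds hb)).differentiableAt (by simp)

theorem asm_corr_smooth (hD : IsOpen D) (hDc : IsConnected D) (hg : IsKahler (tot κ D) T.total gm) (hc : FibreConst D gm)
    (hβ : IsKahler D T.base β') (i j : ι ⊕ κ) : ContDiffOn ℝ ∞ (fun x => asmCorr gm β' x i j) (tot κ D) := by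
  rcases i with i | i <;> rcases j with j | j
  · exact (contDiffOn_bas (hβ.smooth i j)).sub (contDiffOn_bas (schur_smooth hD hDc hg hc i j))
  all_goals exact contDiffOn_const

theorem asm_corr_closed (hD : IsOpen D) (hDc : IsConnected D) (hg : IsKahler (tot κ D) T.total gm) (hc : FibreConst D gm)
    (hβ : IsKahler D T.base β') {x : ι ⊕ κ → ℂ} (hx : x ∈ tot κ D) (i j k : ι ⊕ κ) :
    dz k (fun y => asmCorr gm β' y i j) x = dz i (fun y => asmCorr gm β' y k j) x := by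
  have hb : bas x ∈ D := hx
  have h1 : ∀ i j, DifferentiableAt ℝ (fun b => β' b i j) (bas x) := fun i j => asm_diff hD (hβ.smooth i j) hb
  have h2 : ∀ i j, DifferentiableAt ℝ (fun b => schur gm b i j) (bas x) := fun i j =>
    asm_diff hD (schur_smooth hD hDc hg hc i j) hb
  have h3 : ∀ i j, DifferentiableAt ℝ (fun b => β' b i j - schur gm b i j) (bas x) := fun i j => (h1 i j).fun_sub (h2 i j)
  have e1 : ∀ i j, (fun y : ι ⊕ κ → ℂ => asmCorr gm β' y (Sum.inl i) (Sum.inl j)) =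
      fun y => (fun b => β' b i j - schur gm b i j) (bas y) := fun i j => rfl
  have e2 : ∀ i j, (fun y : ι ⊕ κ → ℂ => asmCorr gm β' y (Sum.inr i) j) = fun _ => 0 := by
    intro i j
    rcases j with j | j <;> rfl
  have e3 : ∀ i j, (fun y : ι ⊕ κ → ℂ => asmCorr gm β' y i (Sum.inr j)) = fun _ => 0 := by
    intro i j
    rcases i with i | i <;> rfl
  rcases j with j | j
  · rcases i with i | i <;> rcases k with k | k
    · rw [e1, e1, dz_bas_inl (h3 i j), dz_bas_inl (h3 k j), dz_sub _ (h1 i j) (h2 i j), dz_sub _ (h1 k j) (h2 k j),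
        hβ.closed _ hb, schur_closed hD hDc hg hc hb]
    · rw [e1, e2, dz_const, dz_bas_inr (h3 i j)]
    · rw [e1, e2, dz_const, dz_bas_inr (h3 k j)]
    · rw [e2, e2, dz_const, dz_const]
  · rw [e3, e3, dz_const, dz_const]

theorem asm_mconj {a : Matrix ι ι ℂ} {t : Matrix κ ι ℂ} {A : Matrix κ κ ℂ} :
    mconj (fromBlocks a 0 t A) = fromBlocks (mconj a) 0 (mconj t) (mconj A) := by
  unfold mconj
  rw [fromBlocks_map]
  congr 1
  ext i j
  simp

theorem asm_corr_block {a X : Matrix ι ι ℂ} {t : Matrix κ ι ℂ} {A : Matrix κ κ ℂ} :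
    (fromBlocks a 0 t A)ᵀ * fromBlocks X 0 0 0 * mconj (fromBlocks a 0 t A) = fromBlocks (aᵀ * X * mconj a) 0 0 0 := by
  rw [asm_mconj, fromBlocks_transpose, fromBlocks_multiply, fromBlocks_multiply]
  simp

theorem asm_glue_shift (v : κ → ℂ) (x : ι ⊕ κ → ℂ) : glue gm β' (shift v x) = glue gm β' x := by
  unfold glue shift
  rw [bas_add_pt]

theorem glue_isKahler (hD : IsOpen D) (hDc : IsConnected D) (hg : IsKahler (tot κ D) T.total gm) (hc : FibreConst D gm)
    (hβ : IsKahler D T.base β') : IsKahler (tot κ D) T.total (glue gm β') := by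
  refine ⟨fun i j => ?_, fun x hx => ?_, fun x hx i j k => ?_, fun F hF x hx => ?_⟩
  · exact ((hg.smooth i j).add (asm_corr_smooth hD hDc hg hc hβ i j)).congr fun x hx => asm_glue_eq hg hc hx i j
  · have hb : bas x ∈ D := hx
    exact glue_posDef (hβ.pos _ hb) (vert_posDef (hg.pos _ (pt_mem_tot hb 0)))
  · have hU : IsOpen (tot κ D) := isOpen_tot hD
    have d1 : ∀ i j, DifferentiableAt ℝ (fun y => gm y i j) x := fun i j =>
      ((hg.smooth i j).contDiffAt (hU.mem_nhds hx)).differentiableAt (by simp)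
    have d2 : ∀ i j, DifferentiableAt ℝ (fun y => asmCorr gm β' y i j) x := fun i j =>
      ((asm_corr_smooth hD hDc hg hc hβ i j).contDiffAt (hU.mem_nhds hx)).differentiableAt (by simp)
    rw [dz_congr_on hU (fun y hy => asm_glue_eq hg hc hy i j) hx k,
      dz_congr_on hU (fun y hy => asm_glue_eq hg hc hy k j) hx i, dz_add _ (d1 i j) (d2 i j), dz_add _ (d1 k j) (d2 k j),
      hg.closed x hx, asm_corr_closed hD hDc hg hc hβ hx]
  · rcases hF with ⟨γ, rfl⟩ | ⟨v, hv, rfl⟩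
    · have hb : bas x ∈ D := hx
      have hFx : T.F γ x ∈ tot κ D := F_mem_tot T γ hx
      have h1 := hg.inv (T.F γ) (Or.inl ⟨γ, rfl⟩) x hx
      have h2 := hβ.inv (T.f γ) ⟨γ, rfl⟩ (bas x) hb
      have h3 := schur_inv hD hDc hg hc (T.f γ) ⟨γ, rfl⟩ (bas x) hb
      rw [glue_eq hg hc hFx, glue_eq hg hc hx, mul_add, add_mul, h1, jac_F hD T γ hx, asm_corr_block, bas_F, mul_sub, sub_mul,
        h2, h3]
    · rw [asm_glue_shift, jac_shift]
      unfold mconj
      simp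

theorem glue_prim (hD : IsOpen D) (hDc : IsConnected D) (hg : IsKahler (tot κ D) T.total gm) (hc : FibreConst D gm)
    (hβ : IsKahler D T.base β') {ε : (ι → ℂ) → (ι → ℂ)} (hε : IsPrimitive D T.base (schur gm) β' ε) :
    IsPrimitive (tot κ D) T.total gm (glue gm β') (fun x => Sum.elim (ε (bas x)) 0) := by
  have hd : ∀ x ∈ tot κ D, ∀ i, DifferentiableAt ℝ (fun b => ε b i) (bas x) := fun x hx i =>
    asm_diff hD (hε.smooth i) hx
  have hdc : ∀ x ∈ tot κ D, ∀ i, DifferentiableAt ℝ (fun b => conj (ε b i)) (bas x) := fun x hx i =>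
    asm_diff hD (conj_contDiffOn (hε.smooth i)) hx
  have e1 : ∀ i, (fun y : ι ⊕ κ → ℂ => (Sum.elim (ε (bas y)) 0 : ι ⊕ κ → ℂ) (Sum.inl i)) =
      fun y => (fun b => ε b i) (bas y) := fun i => rfl
  have e2 : ∀ i, (fun y : ι ⊕ κ → ℂ => (Sum.elim (ε (bas y)) 0 : ι ⊕ κ → ℂ) (Sum.inr i)) =
      fun _ => 0 := fun i => rfl
  have e3 : ∀ i, (fun y : ι ⊕ κ → ℂ => conj ((Sum.elim (ε (bas y)) 0 : ι ⊕ κ → ℂ) (Sum.inl i))) =
      fun y => (fun b => conj (ε b i)) (bas y) := fun i => rfl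
  have e4 : ∀ i, (fun y : ι ⊕ κ → ℂ => conj ((Sum.elim (ε (bas y)) 0 : ι ⊕ κ → ℂ) (Sum.inr i))) =
      fun _ => 0 := by
    intro i
    funext y
    simp
  refine ⟨fun i => ?_, fun F hF x hx i => ?_, fun x hx i j => ?_, fun x hx i j => ?_⟩
  · rcases i with i | i
    · exact contDiffOn_bas (hε.smooth i)
    · exact contDiffOn_const
  · have hb : bas x ∈ D := hx
    rcases hF with ⟨γ, rfl⟩ | ⟨v, hv, rfl⟩
    · rw [jac_F hD T γ hx, bas_F, Fintype.sum_sum_type]
      rcases i with i | i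
      · simpa using hε.inv (T.f γ) ⟨γ, rfl⟩ (bas x) hb i
      · simp
    · have h1 : bas (shift v x) = bas x := bas_add_pt x v
      simp only [jac_shift, h1, one_apply, mul_ite, mul_one, mul_zero, Finset.sum_ite_eq', Finset.mem_univ, if_true]
  · rcases i with i | i <;> rcases j with j | j
    · rw [e1, e1, dz_bas_inl (hd x hx j), dz_bas_inl (hd x hx i), hε.sym _ hx]
    · rw [e1, e2, dz_const, dz_bas_inr (hd x hx i)]
    · rw [e1, e2, dz_const, dz_bas_inr (hd x hx j)]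
    · rw [e2, e2, dz_const, dz_const]
  · have hb : bas x ∈ D := hx
    have h0 : glue gm β' x i j - gm x i j = asmCorr gm β' x i j := by
      rw [asm_glue_eq hg hc hx]
      ring
    rw [h0]
    rcases i with i | i <;> rcases j with j | j
    · rw [e1, e3, dz_bas_inl (hdc x hx j), dzbar_bas_inl (hd x hx i)]
      exact hε.eq _ hb i j
    · rw [e1, e4, dz_const, dzbar_bas_inr (hd x hx i)]
      simp [asmCorr]
    · rw [e2, e3, dzbar_const, dz_bas_inr (hdc x hx j)]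
      simp [asmCorr]
    · rw [e2, e4, dz_const, dzbar_const]
      simp [asmCorr]

end YT
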