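import Pool.Agent.Lib.MP_464db4_gt.YT.ParB
import Pool.Agent.Lib.MP_464db4_gt.YT.Geo
import Pool.Agent.Lib.MP_464db4_gt.YT.MeanB

/-!
# YT-AvgA: the fibrewise average of a Kaehler form is smooth, positive definite and closed
`avg μ g x i j = ∫ g (x + (0,a)) i j dμ(a)`: this is `∫ w p * f (x + v p)` of ParB with `ν = μ`, `w = 1`, `v a = pt 0 a` (continuous),
`C = {pt 0 a | ‖a‖ ≤ R}` (compact: image of a closed ball), `U = tot κ D`.
Positivity: `star y ⬝ᵥ (avg x *ᵥ y) = ∫ star y ⬝ᵥ (g (x + (0,a)) *ᵥ y) dμ` (finite sums), the integrand is a positive real, continuous in `a`, and `μ` is a probability measure: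
`integral_pos_iff_support_of_nonneg` (or: the integral of an everywhere positive integrable function against a nonzero measure is positive).
Hermitian: `integral_conj`.  Closed: `dz_mulTrans` and closedness of `g` pointwise.
-/

namespace YT

open Complex Matrix MeasureTheory
open scoped ContDiff ComplexConjugate ComplexOrder

variable {ι κ : Type} [Fintype ι] [DecidableEq ι] [Fintype κ] [DecidableEq κ] {D : Set (ι → ℂ)} {G : Type}

/-- The average of `g` over the fibres. -/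
noncomputable def avg (μ : Measure (κ → ℂ)) (g : (ι ⊕ κ → ℂ) → Matrix (ι ⊕ κ) (ι ⊕ κ) ℂ) (x : ι ⊕ κ → ℂ) :
    Matrix (ι ⊕ κ) (ι ⊕ κ) ℂ :=
  Matrix.of fun i j => ∫ a, g (x + pt 0 a) i j ∂μ

variable {Λ : Submodule ℤ (κ → ℂ)} {μ : Measure (κ → ℂ)} {S : Set ((ι ⊕ κ → ℂ) → (ι ⊕ κ → ℂ))}
  {g : (ι ⊕ κ → ℂ) → Matrix (ι ⊕ κ) (ι ⊕ κ) ℂ}

/-- For a function `f` smooth (or continuous) on `tot κ D` the restriction to a fibre is continuous. -/
theorem continuous_fibre {f : (ι ⊕ κ → ℂ) → ℂ} (hf : ContinuousOn f (tot κ D)) {x : ι ⊕ κ → ℂ} (hx : x ∈ tot κ D) :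
    Continuous (fun a : κ → ℂ => f (x + pt 0 a)) :=
  hf.comp_continuous (continuous_const.add continuous_pt0) fun a => add_mem_tot hx a

/-- the compact set of the translations -/
private theorem avgA_compact (R : ℝ) :
    IsCompact ((fun a : κ → ℂ => (pt 0 a : ι ⊕ κ → ℂ)) '' Metric.closedBall (0 : κ → ℂ) R) :=
  (isCompact_closedBall (0 : κ → ℂ) R).image continuous_pt0

private theorem avgA_add (R : ℝ) : ∀ x ∈ (tot κ D : Set (ι ⊕ κ → ℂ)),
    ∀ c ∈ (fun a : κ → ℂ => (pt 0 a : ι ⊕ κ → ℂ)) '' Metric.closedBall (0 : κ → ℂ) R, x + c ∈ tot κ D := by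
  rintro x hx _ ⟨a, _, rfl⟩
  exact add_mem_tot hx a

omit [Fintype ι] [DecidableEq ι] [DecidableEq κ] in
private theorem avgA_ae {R : ℝ} (hR : ∀ᵐ a ∂μ, ‖a‖ ≤ R) :
    ∀ᵐ a ∂μ, (pt 0 a : ι ⊕ κ → ℂ) ∈ (fun a : κ → ℂ => (pt 0 a : ι ⊕ κ → ℂ)) '' Metric.closedBall (0 : κ → ℂ) R := by
  filter_upwards [hR] with a ha
  exact ⟨a, by simpa using ha, rfl⟩

private theorem avgA_meas : AEStronglyMeasurable (fun a : κ → ℂ => (pt 0 a : ι ⊕ κ → ℂ)) μ :=
  (continuous_pt0 (ι := ι)).aestronglyMeasurable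

omit [DecidableEq κ] in
private theorem avgA_one (hμ : IsMean Λ μ) : Integrable (fun _ : κ → ℂ => (1 : ℂ)) μ := by
  have := hμ.prob
  exact integrable_const _

theorem avg_smooth (hD : IsOpen D) (hμ : IsMean Λ μ) (hg : IsKahler (tot κ D) S g) (i j : ι ⊕ κ) :
    ContDiffOn ℝ ∞ (fun x => avg μ g x i j) (tot κ D) := by
  obtain ⟨R, hR⟩ := hμ.bdd
  have h := contDiffOn_mulTrans μ (isOpen_tot hD) (avgA_compact R) (avgA_add R) (avgA_meas (ι := ι)) (avgA_ae hR)
    (avgA_one hμ) (hg.smooth i j)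
  simpa only [one_mul, avg, Matrix.of_apply] using h

theorem avg_pos (hD : IsOpen D) (hμ : IsMean Λ μ) (hg : IsKahler (tot κ D) S g) {x : ι ⊕ κ → ℂ} (hx : x ∈ tot κ D) :
    (avg μ g x).PosDef := by
  have hprob := hμ.prob
  have hc : ∀ i j, Continuous (fun a : κ → ℂ => g (x + pt 0 a) i j) := fun i j =>
    continuous_fibre (f := fun y => g y i j) (hg.smooth i j).continuousOn hx
  have hi : ∀ i j, Integrable (fun a : κ → ℂ => g (x + pt 0 a) i j) μ := fun i j => hμ.integrable (hc i j)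
  rw [Matrix.posDef_iff_dotProduct_mulVec]
  constructor
  · ext i j
    rw [Matrix.conjTranspose_apply]
    change star (∫ a, g (x + pt 0 a) j i ∂μ) = ∫ a, g (x + pt 0 a) i j ∂μ
    have h1 : star (∫ a, g (x + pt 0 a) j i ∂μ) = ∫ a, (starRingEnd ℂ) (g (x + pt 0 a) j i) ∂μ :=
      integral_conj.symm
    rw [h1]
    refine integral_congr_ae (Filter.Eventually.of_forall fun a => ?_)
    have h2 := (hg.pos _ (add_mem_tot hx a)).isHermitian
    exact h2.apply i j
  · intro y hy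
    have h1 : star y ⬝ᵥ (avg μ g x *ᵥ y) = ∫ a, star y ⬝ᵥ (g (x + pt 0 a) *ᵥ y) ∂μ := by
      simp only [dotProduct, mulVec]
      rw [integral_finsetSum]
      · refine Finset.sum_congr rfl fun i _ => ?_
        rw [integral_const_mul]
        congr 1
        rw [integral_finsetSum]
        · refine Finset.sum_congr rfl fun j _ => ?_
          rw [integral_mul_const]
          rfl
        · exact fun j _ => (hi i j).mul_const _
      · exact fun i _ => (integrable_finsetSum _ fun j _ => (hi i j).mul_const _).const_mul _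
    have hq : ∀ a : κ → ℂ, 0 < star y ⬝ᵥ (g (x + pt 0 a) *ᵥ y) := fun a =>
      (Matrix.posDef_iff_dotProduct_mulVec.1 (hg.pos _ (add_mem_tot hx a))).2 hy
    have hqc : Continuous (fun a : κ → ℂ => star y ⬝ᵥ (g (x + pt 0 a) *ᵥ y)) := by
      simp only [dotProduct, mulVec]
      exact continuous_finsetSum _ fun i _ => continuous_const.mul
        (continuous_finsetSum _ fun j _ => (hc i j).mul continuous_const)
    have hqi : Integrable (fun a : κ → ℂ => (star y ⬝ᵥ (g (x + pt 0 a) *ᵥ y)).re) μ :=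
      (hμ.integrable hqc).re
    have h2 : ∀ a : κ → ℂ, star y ⬝ᵥ (g (x + pt 0 a) *ᵥ y) = (((star y ⬝ᵥ (g (x + pt 0 a) *ᵥ y)).re : ℝ) : ℂ) := by
      intro a
      have := (Complex.lt_def.1 (hq a)).2
      apply Complex.ext
      · rw [Complex.ofReal_re]
      · rw [Complex.ofReal_im, ← this, Complex.zero_im]
    have h3 : 0 < ∫ a, (star y ⬝ᵥ (g (x + pt 0 a) *ᵥ y)).re ∂μ := by
      rw [integral_pos_iff_support_of_nonneg (fun a => (Complex.lt_def.1 (hq a)).1.le) hqi]
      have h4 : Function.support (fun a : κ → ℂ => (star y ⬝ᵥ (g (x + pt 0 a) *ᵥ y)).re) = Set.univ := by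
        ext a
        simp only [Function.mem_support, Set.mem_univ, iff_true]
        exact (Complex.lt_def.1 (hq a)).1.ne'
      rw [h4, measure_univ]
      exact one_pos
    have h5 : ∫ a, (((star y ⬝ᵥ (g (x + pt 0 a) *ᵥ y)).re : ℝ) : ℂ) ∂μ =
        ((∫ a, (star y ⬝ᵥ (g (x + pt 0 a) *ᵥ y)).re ∂μ : ℝ) : ℂ) := integral_ofReal
    rw [h1, integral_congr_ae (Filter.Eventually.of_forall h2), h5]
    exact Complex.zero_lt_real.2 h3

theorem avg_dz (hD : IsOpen D) (hμ : IsMean Λ μ) (hg : IsKahler (tot κ D) S g) {x : ι ⊕ κ → ℂ} (hx : x ∈ tot κ D)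
    (i j k : ι ⊕ κ) : dz k (fun y => avg μ g y i j) x = ∫ a, dz k (fun y => g y i j) (x + pt 0 a) ∂μ := by
  obtain ⟨R, hR⟩ := hμ.bdd
  have h := dz_mulTrans μ (isOpen_tot hD) (avgA_compact R) (avgA_add R) (avgA_meas (ι := ι)) (avgA_ae hR)
    (avgA_one hμ) (hg.smooth i j) hx k
  simpa only [one_mul, avg, Matrix.of_apply] using h

theorem avg_closed (hD : IsOpen D) (hμ : IsMean Λ μ) (hg : IsKahler (tot κ D) S g) {x : ι ⊕ κ → ℂ} (hx : x ∈ tot κ D)
    (i j k : ι ⊕ κ) : dz k (fun y => avg μ g y i j) x = dz i (fun y => avg μ g y k j) x := by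
  rw [avg_dz hD hμ hg hx i j k, avg_dz hD hμ hg hx k j i]
  exact integral_congr_ae (Filter.Eventually.of_forall fun a => hg.closed _ (add_mem_tot hx a) i j k)

end YT
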