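import Pool.Agent.Lib.MP_464db4_gt.YT.ExB
import Pool.Agent.Lib.MP_464db4_gt.YT.AvgB

/-!
# YT-Blk: block structure of a form which is constant along the fibres
`gm` Kaehler on `tot κ D` with `gm (x + pt 0 a) = gm x`.  So `gm x = gm (pt (bas x) 0)` (`x = pt (bas x) 0 + pt 0 (fib x)`), every entry is a function of `bas x`, and
`dz (inr k) (gm · i j) x = 0`, `dzbar (inr k) (gm · i j) x = 0` (`dz_bas_inr` or directly: the function is constant in these directions).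
* `vert_dz`: `dz k (gm · (inr l) (inr m)) = dz (inr l) (gm · k (inr m)) = 0` for all `k` (closedness), `dzbar k (gm · (inr l) (inr m)) = dzbar (inr m) (gm · (inr l) k) = 0` (`closed_bar`),
  so `fderiv = 0` on the open set (`fderiv_eq_zero`), and on the connected open `D` (apply to `b ↦ gm (pt b 0) (inr l) (inr m)`) the function is constant:
  `IsOpen.is_const_of_fderiv_eq_zero` (or `IsPreconnected`, `IsOpen.exists_is_const_of_fderiv_eq_zero`).
* mixed block `Θ i l = gm (pt b 0) (inl i) (inr l)`: `dzbar (inl j) (gm · (inl i) (inr l)) = dzbar (inr l) (gm · (inl i) (inl j)) = 0`; closedness gives `mixed_closed`.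
* `vert_inv`: lower right block of `Jᵀ gm(F x) J̄ = gm x` with `J = fromBlocks f' 0 τ' A` (`jac_F`): `Aᵀ h Ā = h` (`fromBlocks_transpose`, `fromBlocks_multiply`, `fromBlocks_toBlocks`).
-/

namespace YT

open Complex Matrix MeasureTheory
open scoped ContDiff ComplexConjugate ComplexOrder

variable {ι κ : Type} [Fintype ι] [DecidableEq ι] [Fintype κ] [DecidableEq κ] {D : Set (ι → ℂ)} {G : Type}
  {T : TorusData ι κ D G} {gm : (ι ⊕ κ → ℂ) → Matrix (ι ⊕ κ) (ι ⊕ κ) ℂ}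

/-- `gm` does not depend on the fibre coordinates. -/
def FibreConst (D : Set (ι → ℂ)) (gm : (ι ⊕ κ → ℂ) → Matrix (ι ⊕ κ) (ι ⊕ κ) ℂ) : Prop :=
  ∀ x ∈ tot κ D, ∀ a : κ → ℂ, gm (x + pt 0 a) = gm x

theorem FibreConst.eq_pt (hc : FibreConst D gm) {x : ι ⊕ κ → ℂ} (hx : x ∈ tot κ D) : gm x = gm (pt (bas x) 0) := by
  have hx' : bas x ∈ D := hx
  have hx2 : (pt (bas x) 0 : ι ⊕ κ → ℂ) ∈ tot κ D := pt_mem_tot hx' (0 : κ → ℂ)
  have h := hc (pt (bas x) 0) hx2 (fib x)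
  rw [← pt_add, add_zero, zero_add, pt_bas_fib] at h
  exact h

private theorem diff_entry (hD : IsOpen D) {S : Set ((ι ⊕ κ → ℂ) → (ι ⊕ κ → ℂ))} (hg : IsKahler (tot κ D) S gm)
    {x : ι ⊕ κ → ℂ} (hx : x ∈ tot κ D) (i j : ι ⊕ κ) : DifferentiableAt ℝ (fun y => gm y i j) x :=
  (((hg.smooth i j).differentiableOn (by simp)) x hx).differentiableAt ((isOpen_tot hD).mem_nhds hx)

private theorem diff_base {S : Set ((ι ⊕ κ → ℂ) → (ι ⊕ κ → ℂ))} (hg : IsKahler (tot κ D) S gm)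
    (i j : ι ⊕ κ) : DifferentiableOn ℝ (fun b => gm (pt b 0) i j) D :=
  (contDiffOn_pt (f := fun y => gm y i j) (hg.smooth i j)).differentiableOn (by simp)

private theorem dz_inr_zero (hD : IsOpen D) {S : Set ((ι ⊕ κ → ℂ) → (ι ⊕ κ → ℂ))} (hg : IsKahler (tot κ D) S gm)
    (hc : FibreConst D gm) {x : ι ⊕ κ → ℂ} (hx : x ∈ tot κ D) (i j : ι ⊕ κ) (k : κ) :
    dz (Sum.inr k) (fun y => gm y i j) x = 0 := by
  rw [dz_congr_on (isOpen_tot hD) (h := fun y => (fun b => gm (pt b 0) i j) (bas y))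
    (fun y hy => by rw [hc.eq_pt hy]) hx]
  exact dz_bas_inr (f := fun b => gm (pt b 0) i j)
    (((diff_base hg i j) (bas x) hx).differentiableAt (hD.mem_nhds hx)) k

private theorem dzbar_inr_zero (hD : IsOpen D) {S : Set ((ι ⊕ κ → ℂ) → (ι ⊕ κ → ℂ))} (hg : IsKahler (tot κ D) S gm)
    (hc : FibreConst D gm) {x : ι ⊕ κ → ℂ} (hx : x ∈ tot κ D) (i j : ι ⊕ κ) (k : κ) :
    dzbar (Sum.inr k) (fun y => gm y i j) x = 0 := by
  rw [dzbar_congr_on (isOpen_tot hD) (h := fun y => (fun b => gm (pt b 0) i j) (bas y))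
    (fun y hy => by rw [hc.eq_pt hy]) hx]
  exact dzbar_bas_inr (f := fun b => gm (pt b 0) i j)
    (((diff_base hg i j) (bas x) hx).differentiableAt (hD.mem_nhds hx)) k

private theorem vert_fderiv (hD : IsOpen D) {S : Set ((ι ⊕ κ → ℂ) → (ι ⊕ κ → ℂ))} (hg : IsKahler (tot κ D) S gm)
    (hc : FibreConst D gm) {b : ι → ℂ} (hb : b ∈ D) (l m : κ) :
    fderiv ℝ (fun b => gm (pt b 0) (Sum.inr l) (Sum.inr m)) b = 0 := by
  have hx : pt b 0 ∈ tot κ D := pt_mem_tot hb 0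
  refine fderiv_eq_zero (fun k => ?_) (fun k => ?_)
  · rw [dz_pt (f := fun y => gm y (Sum.inr l) (Sum.inr m)) (diff_entry hD hg hx _ _),
      hg.closed _ hx]
    exact dz_inr_zero hD hg hc hx _ _ _
  · rw [dzbar_pt (f := fun y => gm y (Sum.inr l) (Sum.inr m)) (diff_entry hD hg hx _ _),
      closed_bar (isOpen_tot hD) hg hx]
    exact dzbar_inr_zero hD hg hc hx _ _ _

theorem vert_const (hD : IsOpen D) (hDc : IsConnected D) (hg : IsKahler (tot κ D) T.total gm) (hc : FibreConst D gm) :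
    ∃ h : Matrix κ κ ℂ, h.PosDef ∧ (∀ x ∈ tot κ D, (gm x).toBlocks₂₂ = h) ∧ ∀ γ, (T.A γ)ᵀ * h * mconj (T.A γ) = h := by
  obtain ⟨b0, hb0⟩ := hDc.nonempty
  have hx0 : pt b0 0 ∈ tot κ D := pt_mem_tot hb0 0
  have hcon : ∀ x ∈ tot κ D, (gm x).toBlocks₂₂ = (gm (pt b0 0)).toBlocks₂₂ := by
    intro x hx
    ext l m
    rw [hc.eq_pt hx]
    exact hD.is_const_of_fderiv_eq_zero hDc.isPreconnected (diff_base hg (Sum.inr l) (Sum.inr m))
      (fun b hb => vert_fderiv hD hg hc hb l m) hx hb0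
  refine ⟨(gm (pt b0 0)).toBlocks₂₂, ?_, hcon, ?_⟩
  · exact (hg.pos _ hx0).submatrix Sum.inr_injective
  · intro γ
    have hF : T.F γ (pt b0 0) ∈ tot κ D := F_mem_tot T γ hx0
    have hi := hg.inv (T.F γ) (Or.inl ⟨γ, rfl⟩) _ hx0
    rw [jac_F hD T γ hx0] at hi
    have h22 := congrArg Matrix.toBlocks₂₂ hi
    refine Eq.trans ?_ h22
    rw [← hcon _ hF]
    generalize gm (T.F γ (pt b0 0)) = M
    conv_rhs => rw [← fromBlocks_toBlocks M]
    rw [mconj, mconj, fromBlocks_map, fromBlocks_transpose, fromBlocks_multiply, fromBlocks_multiply,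
      toBlocks_fromBlocks₂₂]
    simp

/-- The mixed block is holomorphic. -/
theorem mixed_bar (hD : IsOpen D) (hg : IsKahler (tot κ D) T.total gm) (hc : FibreConst D gm) {b : ι → ℂ} (hb : b ∈ D)
    (i j : ι) (l : κ) : dzbar j (fun b => gm (pt b 0) (Sum.inl i) (Sum.inr l)) b = 0 := by
  have hx : pt b 0 ∈ tot κ D := pt_mem_tot hb 0
  rw [dzbar_pt (f := fun y => gm y (Sum.inl i) (Sum.inr l)) (diff_entry hD hg hx _ _),
    closed_bar (isOpen_tot hD) hg hx]
  exact dzbar_inr_zero hD hg hc hx _ _ _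

/-- The columns of the mixed block are closed holomorphic 1-forms. -/
theorem mixed_closed (hD : IsOpen D) (hg : IsKahler (tot κ D) T.total gm) {b : ι → ℂ} (hb : b ∈ D)
    (i k : ι) (l : κ) : dz k (fun b => gm (pt b 0) (Sum.inl i) (Sum.inr l)) b = dz i (fun b => gm (pt b 0) (Sum.inl k) (Sum.inr l)) b := by
  have hx : pt b 0 ∈ tot κ D := pt_mem_tot hb 0
  rw [dz_pt (f := fun y => gm y (Sum.inl i) (Sum.inr l)) (diff_entry hD hg hx _ _),
    dz_pt (f := fun y => gm y (Sum.inl k) (Sum.inr l)) (diff_entry hD hg hx _ _)]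
  exact hg.closed _ hx _ _ _

/-- The base block is closed. -/
theorem base_closed (hD : IsOpen D) (hg : IsKahler (tot κ D) T.total gm) {b : ι → ℂ} (hb : b ∈ D)
    (i j k : ι) : dz k (fun b => gm (pt b 0) (Sum.inl i) (Sum.inl j)) b = dz i (fun b => gm (pt b 0) (Sum.inl k) (Sum.inl j)) b := by
  have hx : pt b 0 ∈ tot κ D := pt_mem_tot hb 0
  rw [dz_pt (f := fun y => gm y (Sum.inl i) (Sum.inl j)) (diff_entry hD hg hx _ _),
    dz_pt (f := fun y => gm y (Sum.inl k) (Sum.inl j)) (diff_entry hD hg hx _ _)]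
  exact hg.closed _ hx _ _ _

end YT
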