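import Pool.Agent.Lib.MP_464db4_gt.YT.Mob

/-!
# YT-Hyp: the metric `c/y²` on the half plane
* Kaehler: smooth on `halfPlane`, `1 × 1` matrix with positive entry, closedness is trivial (`Unit` has one element); invariance: `mj γ x * (c / im(mob γ x)^2) * conj (mj γ x) = c / im(x)^2`
  by `im_mob` and `mj γ x * conj (mj γ x) = ‖mj γ x‖^2`.
* `scal`: `logdet (hyp c) x = log (c / y²) = log c - 2 log y` on `halfPlane`; `dzbar () (log y) = (1/2)(∂_x + I ∂_y) log y = I/(2y)`; `dz () (I/(2y)) = (1/2)(-I ∂_y)(I/(2y)) = (1/2) ∂_y (1/(2y)) = -1/(4y²)`,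
  so `dz dzbar logdet = -2 * (-1/(4y²)) = 1/(2y²)` and `scal = -(y²/c) * 1/(2y²) = -1/(2c)`.
-/

namespace YT

open Complex Matrix MeasureTheory
open scoped ContDiff ComplexConjugate ComplexOrder

/-- The metric `c/y²`. -/
noncomputable def hyp (c : ℝ) (x : Unit → ℂ) : Matrix Unit Unit ℂ := Matrix.of fun _ _ => ((c / (x ()).im ^ 2 : ℝ) : ℂ)

private noncomputable def Hyp_L : (Unit → ℂ) →L[ℝ] ℝ :=
  Complex.imCLM.comp (ContinuousLinearMap.proj (R := ℝ) (φ := fun _ : Unit => ℂ) ())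

private theorem Hyp_L_apply (v : Unit → ℂ) : Hyp_L v = (v ()).im := rfl

private theorem Hyp_fderiv {φ : ℝ → ℝ} {φ' : ℝ} {y : Unit → ℂ} (h : HasDerivAt φ φ' (y ()).im) :
    HasFDerivAt (fun z : Unit → ℂ => ((φ (z ()).im : ℝ) : ℂ))
      (Complex.ofRealCLM.comp (φ' • Hyp_L)) y := by
  have h1 : HasFDerivAt (fun z : Unit → ℂ => (z ()).im) Hyp_L y := Hyp_L.hasFDerivAt
  have h2 : HasFDerivAt (fun z : Unit → ℂ => φ (z ()).im) (φ' • Hyp_L) y :=
    h.comp_hasFDerivAt y h1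
  exact Complex.ofRealCLM.hasFDerivAt.comp y h2

private theorem Hyp_dzbar {φ : ℝ → ℝ} {φ' : ℝ} {y : Unit → ℂ} (h : HasDerivAt φ φ' (y ()).im) :
    dzbar () (fun z : Unit → ℂ => ((φ (z ()).im : ℝ) : ℂ)) y = I * (φ' : ℂ) / 2 := by
  rw [dzbar, (Hyp_fderiv h).fderiv]
  simp [Hyp_L_apply]

private theorem Hyp_dz {φ : ℝ → ℝ} {φ' : ℝ} {y : Unit → ℂ} (h : HasDerivAt φ φ' (y ()).im) :
    dz () (fun z : Unit → ℂ => ((φ (z ()).im : ℝ) : ℂ)) y = -(I * (φ' : ℂ)) / 2 := by
  rw [dz, (Hyp_fderiv h).fderiv]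
  simp [Hyp_L_apply]

theorem hyp_isKahler (Γ : Subgroup (Matrix.SpecialLinearGroup (Fin 2) ℝ)) {c : ℝ} (hc : 0 < c) :
    IsKahler halfPlane (mobs Γ) (hyp c) := by
  refine ⟨?_, ?_, ?_, ?_⟩
  · intro i j
    have h1 : ContDiffOn ℝ ∞ (fun x : Unit → ℂ => (c / (x ()).im ^ 2 : ℝ)) halfPlane := by
      have h2 : ContDiff ℝ ∞ (fun x : Unit → ℂ => (x ()).im) := Hyp_L.contDiff
      refine contDiffOn_const.div (h2.contDiffOn.pow 2) ?_
      intro x hx
      have hx' : 0 < (x ()).im := hx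
      positivity
    exact Complex.ofRealCLM.contDiff.comp_contDiffOn h1
  · intro x hx
    have hx' : 0 < (x ()).im := hx
    have h1 : hyp c x = Matrix.diagonal (fun _ : Unit => ((c / (x ()).im ^ 2 : ℝ) : ℂ)) := by
      ext i j
      have : i = j := Subsingleton.elim _ _
      subst this
      rw [Matrix.diagonal_apply_eq]
      rfl
    rw [h1]
    refine Matrix.PosDef.diagonal ?_
    intro i
    have : (0 : ℝ) < c / (x ()).im ^ 2 := by positivity
    exact_mod_cast this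
  · intro x _ i j k
    rfl
  · rintro F ⟨γ, _, rfl⟩ x hx
    have hx' : 0 < (x ()).im := hx
    have hm := mj_ne γ hx
    have hn : 0 < ‖mj γ x‖ := norm_pos_iff.2 hm
    ext i j
    have e : ((jac (mob γ) x)ᵀ * hyp c (mob γ x) * mconj (jac (mob γ) x)) i j =
        mj γ x * ((c / (mob γ x ()).im ^ 2 : ℝ) : ℂ) * conj (mj γ x) := by
      simp only [Matrix.mul_apply, Finset.univ_unique, Finset.sum_singleton,
        Matrix.transpose_apply, mconj, Matrix.map_apply, jac_mob γ hx]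
      rfl
    rw [e, im_mob γ hx]
    have e2 : mj γ x * ((c / ((x ()).im * ‖mj γ x‖) ^ 2 : ℝ) : ℂ) * conj (mj γ x) =
        ((c / ((x ()).im * ‖mj γ x‖) ^ 2 : ℝ) : ℂ) * (mj γ x * conj (mj γ x)) := by ring
    rw [e2, Complex.mul_conj, Complex.normSq_eq_norm_sq]
    have e3 : (c / ((x ()).im * ‖mj γ x‖) ^ 2) * ‖mj γ x‖ ^ 2 = c / (x ()).im ^ 2 := by
      field_simp
    rw [← Complex.ofReal_mul, e3]
    rfl

theorem scal_hyp {c : ℝ} (hc : 0 < c) {x : Unit → ℂ} (hx : x ∈ halfPlane) : scal (hyp c) x = ((-1 / (2 * c) : ℝ) : ℂ) := by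
  have hx' : 0 < (x ()).im := hx
  have hlog : logdet (hyp c) = fun y : Unit → ℂ => ((Real.log (c / (y ()).im ^ 2) : ℝ) : ℂ) := by
    funext y
    rw [logdet, Matrix.det_unique]
    rfl
  have hbar : ∀ y ∈ halfPlane, dzbar () (logdet (hyp c)) y = -I * ((1 / (y ()).im : ℝ) : ℂ) := by
    intro y hy
    have hy' : 0 < (y ()).im := hy
    rw [hlog]
    have hd : HasDerivAt (fun t : ℝ => Real.log (c / t ^ 2)) (-2 / (y ()).im) (y ()).im := by
      have h0 : (c / (y ()).im ^ 2) ≠ 0 := by positivity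
      have h1 : HasDerivAt (fun t : ℝ => c / t ^ 2)
          ((0 * (y ()).im ^ 2 - c * (2 * (y ()).im)) / ((y ()).im ^ 2) ^ 2) (y ()).im := by
        have h2 : HasDerivAt (fun t : ℝ => t ^ 2) (2 * (y ()).im) (y ()).im := by
          simpa using hasDerivAt_pow 2 (y ()).im
        exact (hasDerivAt_const _ c).div h2 (by positivity)
      have h3 := h1.log h0
      convert h3 using 1
      field_simp
      ring
    rw [Hyp_dzbar (φ := fun t : ℝ => Real.log (c / t ^ 2)) hd]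
    push_cast
    ring
  have hdz : dz () (fun y => dzbar () (logdet (hyp c)) y) x = ((1 / (2 * (x ()).im ^ 2) : ℝ) : ℂ) := by
    rw [dz_congr_on isOpen_halfPlane hbar hx ()]
    have hd : HasDerivAt (fun t : ℝ => 1 / t) (-1 / (x ()).im ^ 2) (x ()).im := by
      have h1 := (hasDerivAt_inv hx'.ne')
      have h2 : (fun t : ℝ => 1 / t) = fun t : ℝ => t⁻¹ := by
        funext t
        rw [one_div]
      have h3 : -1 / (x ()).im ^ 2 = -((x ()).im ^ 2)⁻¹ := by
        rw [neg_div, one_div]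
      rw [h2, h3]
      exact h1
    rw [dz_const_mul () (-I) (Hyp_fderiv (φ := fun t : ℝ => 1 / t) hd).differentiableAt,
      Hyp_dz (φ := fun t : ℝ => 1 / t) hd]
    have hI : I * I = -1 := Complex.I_mul_I
    push_cast
    have : -I * (-(I * (-1 / ((x ()).im : ℂ) ^ 2)) / 2) = (I * I) * (-1 / ((x ()).im : ℂ) ^ 2) / 2 := by
      ring
    rw [this, hI]
    have hxc : ((x ()).im : ℂ) ≠ 0 := by exact_mod_cast hx'.ne'
    field_simp
  have hinv : (hyp c x)⁻¹ () () = (((x ()).im ^ 2 / c : ℝ) : ℂ) := by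
    rw [Matrix.inv_def, Matrix.det_unique, Matrix.adjugate_subsingleton, Matrix.smul_apply,
      Matrix.one_apply_eq, smul_eq_mul, mul_one, Ring.inverse_eq_inv']
    have : hyp c x default default = ((c / (x ()).im ^ 2 : ℝ) : ℂ) := rfl
    rw [this, ← Complex.ofReal_inv, inv_div]
  rw [scal]
  simp only [Finset.univ_unique, Finset.sum_singleton]
  have e : (hyp c x)⁻¹ default default * dz default (fun y => dzbar default (logdet (hyp c)) y) x =
      (((x ()).im ^ 2 / c : ℝ) : ℂ) * ((1 / (2 * (x ()).im ^ 2) : ℝ) : ℂ) := by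
    have h1 : (hyp c x)⁻¹ default default = (hyp c x)⁻¹ () () := rfl
    have h2 : dz default (fun y => dzbar default (logdet (hyp c)) y) x =
      dz () (fun y => dzbar () (logdet (hyp c)) y) x := rfl
    rw [h1, h2, hinv, hdz]
  rw [e, ← Complex.ofReal_mul, ← Complex.ofReal_neg]
  congr 1
  field_simp

end YT
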