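import Pool.Agent.Lib.MP_464db4_gt.YT.Disc

/-!
# YT-SumE: the invariant 1-form `E(x) = ∑_γ φ(γ x) γ'(x)`
* smooth: `finsum_smooth` with `ψ γ x = φ (mob γ x) * mj γ x` (`hol_contDiffOn`, `mj_hol`, `mob_hol`, `mob_mem`).
* invariance: `E (mob δ x) * mj δ x = ∑ φ (mob γ (mob δ x)) * mj γ (mob δ x) * mj δ x = ∑ φ (mob (γδ) x) * mj (γδ) x = E x` (`finsum_mul`: finite support by `finite_supp`, `finsum_shift`).
* `sumE_dzbar`: `dzbar () (φ∘mob γ * mj γ) x = dzbar () φ (mob γ x) * conj (mj γ x) * mj γ x` (`dzbar_mul`, `dzbar_hol`, `dzbar_comp`, `jac_mob`; `mj γ` is holomorphic), so the imaginary part is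
  `(dzbar () φ (mob γ x)).im * ‖mj γ x‖^2`.
-/

namespace YT

open Complex Matrix MeasureTheory
open scoped ContDiff ComplexConjugate ComplexOrder

variable {Γ : Subgroup (Matrix.SpecialLinearGroup (Fin 2) ℝ)}

/-- The sum over the group. -/
noncomputable def sumE (Γ : Subgroup (Matrix.SpecialLinearGroup (Fin 2) ℝ)) (φ : (Unit → ℂ) → ℂ) (x : Unit → ℂ) : ℂ :=
  ∑ᶠ γ : Γ, φ (mob γ x) * mj γ x

private theorem sumE_mj_smooth (γ : Matrix.SpecialLinearGroup (Fin 2) ℝ) : ContDiffOn ℝ ∞ (mj γ) halfPlane := by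
  have h1 : DifferentiableOn ℂ (fun (x : Unit → ℂ) (_ : Unit) => mj γ x) halfPlane :=
    fun y hy => differentiableWithinAt_pi.2 fun _ => mj_hol γ y hy
  have h2 := hol_contDiffOn isOpen_halfPlane h1
  exact contDiffOn_pi.1 h2 ()

private theorem sumE_term_smooth {φ : (Unit → ℂ) → ℂ} (hφ : ContDiff ℝ ∞ φ) (γ : Matrix.SpecialLinearGroup (Fin 2) ℝ) :
    ContDiffOn ℝ ∞ (fun x => φ (mob γ x) * mj γ x) halfPlane :=
  (hφ.comp_contDiffOn (hol_contDiffOn isOpen_halfPlane (mob_hol γ))).mul (sumE_mj_smooth γ)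

theorem sumE_smooth (hΓ : CocompactFuchsian Γ) {φ : (Unit → ℂ) → ℂ} (hφ : ContDiff ℝ ∞ φ) {K : Set (Unit → ℂ)} (hK : IsCompact K)
    (hKH : K ⊆ halfPlane) (h0 : ∀ x, x ∉ K → φ x = 0) : ContDiffOn ℝ ∞ (sumE Γ φ) halfPlane := by
  refine finsum_smooth hΓ hK hKH (ψ := fun γ x => φ (mob γ x) * mj γ x) (fun γ => sumE_term_smooth hφ γ) ?_
  intro γ x _ hx
  rw [h0 _ hx, zero_mul]

theorem sumE_inv (hΓ : CocompactFuchsian Γ) {φ : (Unit → ℂ) → ℂ} {K : Set (Unit → ℂ)} (hK : IsCompact K)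
    (hKH : K ⊆ halfPlane) (h0 : ∀ x, x ∉ K → φ x = 0) {δ : Matrix.SpecialLinearGroup (Fin 2) ℝ} (hδ : δ ∈ Γ) {x : Unit → ℂ}
    (hx : x ∈ halfPlane) : sumE Γ φ (mob δ x) * mj δ x = sumE Γ φ x := by
  have hfin : (Function.support fun γ : Γ => φ (mob γ (mob δ x)) * mj γ (mob δ x)).Finite := by
    refine (finite_supp hΓ hK hKH (mob_mem δ hx)).subset fun γ hγ => ?_
    by_contra hn
    exact hγ (by
      change φ (mob γ (mob δ x)) * mj γ (mob δ x) = 0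
      rw [h0 _ hn, zero_mul])
  rw [sumE, finsum_mul' _ _ hfin, sumE, ← finsum_shift (⟨δ, hδ⟩ : Γ) (fun γ : Γ => φ (mob γ x) * mj γ x)]
  refine finsum_congr fun γ => ?_
  change φ (mob γ (mob δ x)) * mj γ (mob δ x) * mj δ x = φ (mob ((γ : Matrix.SpecialLinearGroup (Fin 2) ℝ) * δ) x) *
    mj ((γ : Matrix.SpecialLinearGroup (Fin 2) ℝ) * δ) x
  rw [mob_mul _ _ hx, mj_mul _ _ hx]
  ring

private theorem sumE_term_dzbar {φ : (Unit → ℂ) → ℂ} (hφ : ContDiff ℝ ∞ φ) (γ : Matrix.SpecialLinearGroup (Fin 2) ℝ)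
    {x : Unit → ℂ} (hx : x ∈ halfPlane) :
    dzbar () (fun y => φ (mob γ y) * mj γ y) x = dzbar () φ (mob γ x) * (conj (mj γ x) * mj γ x) := by
  have hn := isOpen_halfPlane.mem_nhds hx
  have hm : DifferentiableAt ℂ (mob γ) x := (mob_hol γ).differentiableAt hn
  have hj : DifferentiableAt ℂ (mj γ) x := (mj_hol γ).differentiableAt hn
  have hd : DifferentiableAt ℝ φ (mob γ x) := hφ.differentiable (by simp) _
  have hc : DifferentiableAt ℝ (fun y => φ (mob γ y)) x := hd.comp x (hm.restrictScalars ℝ)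
  rw [dzbar_mul () hc (hj.restrictScalars ℝ), dzbar_hol () hj, dzbar_comp hm hd]
  rw [Fintype.sum_unique, jac_mob γ hx]
  change dzbar () φ (mob γ x) * conj (mj γ x) * mj γ x + φ (mob γ x) * 0 = _
  ring

private theorem sumE_term_im {φ : (Unit → ℂ) → ℂ} (hφ : ContDiff ℝ ∞ φ) (γ : Matrix.SpecialLinearGroup (Fin 2) ℝ)
    {x : Unit → ℂ} (hx : x ∈ halfPlane) :
    (dzbar () (fun y => φ (mob γ y) * mj γ y) x).im = (dzbar () φ (mob γ x)).im * ‖mj γ x‖ ^ 2 := by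
  rw [sumE_term_dzbar hφ γ hx, ← Complex.normSq_eq_conj_mul_self, Complex.im_mul_ofReal, Complex.normSq_eq_norm_sq]

theorem sumE_dzbar (hΓ : CocompactFuchsian Γ) {φ : (Unit → ℂ) → ℂ} (hφ : ContDiff ℝ ∞ φ) {K : Set (Unit → ℂ)} (hK : IsCompact K)
    (hKH : K ⊆ halfPlane) (h0 : ∀ x, x ∉ K → φ x = 0) {x : Unit → ℂ} (hx : x ∈ halfPlane) :
    -2 * (dzbar () (sumE Γ φ) x).im = ∑ᶠ γ : Γ, (-2 * (dzbar () φ (mob γ x)).im) * ‖mj γ x‖ ^ 2 := by
  have h0' : ∀ γ : Γ, ∀ x ∈ halfPlane, mob γ x ∉ K → φ (mob γ x) * mj γ x = 0 := by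
    intro γ x _ hx
    rw [h0 _ hx, zero_mul]
  have h1 : dzbar () (sumE Γ φ) x = ∑ᶠ γ : Γ, dzbar () (fun y => φ (mob γ y) * mj γ y) x :=
    finsum_dzbar hΓ hK hKH (ψ := fun γ x => φ (mob γ x) * mj γ x) (fun γ => sumE_term_smooth hφ γ) h0' hx
  have hz : ∀ y, y ∉ K → dzbar () φ y = 0 := by
    intro y hy
    have he : φ =ᶠ[nhds y] fun _ => 0 := by
      filter_upwards [hK.isClosed.isOpen_compl.mem_nhds hy] with z hz
      exact h0 z hz
    rw [dzbar_congr () he, dzbar_const]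
  have hfin : (Function.support fun γ : Γ => dzbar () (fun y => φ (mob γ y) * mj γ y) x).Finite := by
    refine (finite_supp hΓ hK hKH hx).subset fun γ hγ => ?_
    by_contra hn
    exact hγ (by
      change dzbar () (fun y => φ (mob γ y) * mj γ y) x = 0
      rw [sumE_term_dzbar hφ γ hx, hz _ hn, zero_mul])
  have h2 : (∑ᶠ γ : Γ, dzbar () (fun y => φ (mob γ y) * mj γ y) x).im =
      ∑ᶠ γ : Γ, (dzbar () (fun y => φ (mob γ y) * mj γ y) x).im := by
    have h := AddMonoidHom.map_finsum Complex.imAddGroupHom hfin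
    exact h
  have hfin2 : (Function.support fun γ : Γ => (dzbar () (fun y => φ (mob γ y) * mj γ y) x).im).Finite := by
    refine hfin.subset fun γ hγ => ?_
    intro h
    exact hγ (by
      change (dzbar () (fun y => φ (mob γ y) * mj γ y) x).im = 0
      change dzbar () (fun y => φ (mob γ y) * mj γ y) x = 0 at h
      rw [h, Complex.zero_im])
  rw [h1, h2, mul_finsum' _ _ hfin2]
  refine finsum_congr fun γ => ?_
  rw [sumE_term_im hφ γ hx]
  ring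

end YT
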