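import Mathlib

/-!
# Kaehler metrics on a domain of `ℂ^ι`, invariant under a set of holomorphic maps

The universal covering description of a compact complex manifold: `U` an open subset of `ℂ^ι`, `S` a set of holomorphic
maps `U → U`.  A Kaehler form `ω = i ∑ g_ij dz_i ∧ dz̄_j` is given by its coefficient matrix `g`.
-/

namespace YT

open Complex Matrix MeasureTheory
open scoped ContDiff ComplexConjugate ComplexOrder

/-- The Wirtinger derivative `∂f/∂z_i`. -/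
noncomputable def dz {ι : Type} [Fintype ι] [DecidableEq ι] (i : ι) (f : (ι → ℂ) → ℂ) (x : ι → ℂ) : ℂ :=
  (fderiv ℝ f x (Pi.single i 1) - I * fderiv ℝ f x (Pi.single i I)) / 2

/-- The Wirtinger derivative `∂f/∂z̄_i`. -/
noncomputable def dzbar {ι : Type} [Fintype ι] [DecidableEq ι] (i : ι) (f : (ι → ℂ) → ℂ) (x : ι → ℂ) : ℂ :=
  (fderiv ℝ f x (Pi.single i 1) + I * fderiv ℝ f x (Pi.single i I)) / 2

/-- The Jacobian matrix `(∂F_k/∂z_i)` of a (holomorphic) map `F`. -/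
noncomputable def jac {ι κ : Type} [Fintype ι] [DecidableEq ι] (F : (ι → ℂ) → (κ → ℂ)) (x : ι → ℂ) : Matrix κ ι ℂ :=
  Matrix.of fun k i => dz i (fun y => F y k) x

/-- The matrix of complex conjugates. -/
noncomputable def mconj {ι κ : Type} (M : Matrix ι κ ℂ) : Matrix ι κ ℂ := M.map (starRingEnd ℂ)

/-- `ω = i ∑ g_ij dz_i ∧ dz̄_j` is a Kaehler form on `U`, invariant under the maps of `S`: the coefficients are smooth,
the matrix is positive definite, `dω = 0`, and `F^* ω = ω` for `F ∈ S`. -/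
structure IsKahler {ι : Type} [Fintype ι] [DecidableEq ι] (U : Set (ι → ℂ)) (S : Set ((ι → ℂ) → (ι → ℂ)))
    (g : (ι → ℂ) → Matrix ι ι ℂ) : Prop where
  smooth : ∀ i j, ContDiffOn ℝ ∞ (fun x => g x i j) U
  pos : ∀ x ∈ U, (g x).PosDef
  closed : ∀ x ∈ U, ∀ i j k, dz k (fun y => g y i j) x = dz i (fun y => g y k j) x
  inv : ∀ F ∈ S, ∀ x ∈ U, (jac F x)ᵀ * g (F x) * mconj (jac F x) = g x

/-- The real 1-form `η = ∑ (e_i dz_i + ē_i dz̄_i)` on `U` is smooth, invariant under the maps of `S`, and `dη = ω' - ω`, where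
`ω = i ∑ g_ij dz_i ∧ dz̄_j` and `ω' = i ∑ g'_ij dz_i ∧ dz̄_j`. -/
structure IsPrimitive {ι : Type} [Fintype ι] [DecidableEq ι] (U : Set (ι → ℂ)) (S : Set ((ι → ℂ) → (ι → ℂ)))
    (g g' : (ι → ℂ) → Matrix ι ι ℂ) (e : (ι → ℂ) → (ι → ℂ)) : Prop where
  smooth : ∀ i, ContDiffOn ℝ ∞ (fun x => e x i) U
  inv : ∀ F ∈ S, ∀ x ∈ U, ∀ i, ∑ k, e (F x) k * jac F x k i = e x i
  sym : ∀ x ∈ U, ∀ i j, dz i (fun y => e y j) x = dz j (fun y => e y i) x
  eq : ∀ x ∈ U, ∀ i j,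
    g' x i j - g x i j = -I * (dz i (fun y => conj (e y j)) x - dzbar j (fun y => e y i) x)

/-- The two invariant forms are cohomologous: their difference is the differential of a smooth invariant real 1-form. -/
def Cohomologous {ι : Type} [Fintype ι] [DecidableEq ι] (U : Set (ι → ℂ)) (S : Set ((ι → ℂ) → (ι → ℂ)))
    (g g' : (ι → ℂ) → Matrix ι ι ℂ) : Prop :=
  ∃ e : (ι → ℂ) → (ι → ℂ), IsPrimitive U S g g' e

/-- The function `log det g`. -/
noncomputable def logdet {ι : Type} [Fintype ι] [DecidableEq ι] (g : (ι → ℂ) → Matrix ι ι ℂ) (x : ι → ℂ) : ℂ :=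
  ((Real.log (g x).det.re : ℝ) : ℂ)

/-- The scalar curvature `tr_ω Ric(ω)`, where `Ric(ω) = -i∂∂̄ log det g`. -/
noncomputable def scal {ι : Type} [Fintype ι] [DecidableEq ι] (g : (ι → ℂ) → Matrix ι ι ℂ) (x : ι → ℂ) : ℂ :=
  -∑ i, ∑ j, (g x)⁻¹ j i * dz i (fun y => dzbar j (logdet g) y) x

/-- Every invariant Kaehler form is cohomologous to an invariant Kaehler form of constant scalar curvature. -/
def EveryClassCscK {ι : Type} [Fintype ι] [DecidableEq ι] (U : Set (ι → ℂ)) (S : Set ((ι → ℂ) → (ι → ℂ))) : Prop :=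
  ∀ g, IsKahler U S g → ∃ g', IsKahler U S g' ∧ Cohomologous U S g g' ∧ ∃ c : ℝ, ∀ x ∈ U, scal g' x = c

/-- Data of a (locally trivial, holomorphic) torus bundle over `{f_g}\D`: the fibre is `ℂ^κ/Λ`, and the total space is the
quotient of `D × ℂ^κ` by the translations of `Λ` and by the maps `(b,z) ↦ (f_g b, A_g z + τ_g(b))`. -/
structure TorusData (ι κ : Type) [Fintype ι] [DecidableEq ι] [Fintype κ] [DecidableEq κ] (D : Set (ι → ℂ)) (G : Type) where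
  f : G → (ι → ℂ) → (ι → ℂ)
  τ : G → (ι → ℂ) → (κ → ℂ)
  A : G → Matrix κ κ ℂ
  Λ : Submodule ℤ (κ → ℂ)
  disc : DiscreteTopology Λ
  span : Submodule.span ℝ (Λ : Set (κ → ℂ)) = ⊤
  f_maps : ∀ g, ∀ b ∈ D, f g b ∈ D
  f_hol : ∀ g, DifferentiableOn ℂ (f g) D
  τ_hol : ∀ g, DifferentiableOn ℂ (τ g) D
  A_pres : ∀ g, (fun v => A g *ᵥ v) '' (Λ : Set (κ → ℂ)) = Λ

section total

variable {ι κ : Type} [Fintype ι] [DecidableEq ι] [Fintype κ] [DecidableEq κ] {D : Set (ι → ℂ)} {G : Type}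

/-- The base coordinates of a point of `ℂ^ι × ℂ^κ`. -/
def bas (x : ι ⊕ κ → ℂ) : ι → ℂ := fun i => x (Sum.inl i)

/-- The fibre coordinates of a point of `ℂ^ι × ℂ^κ`. -/
def fib (x : ι ⊕ κ → ℂ) : κ → ℂ := fun i => x (Sum.inr i)

/-- The point `(b, z)` of `ℂ^ι × ℂ^κ`. -/
def pt (b : ι → ℂ) (z : κ → ℂ) : ι ⊕ κ → ℂ := Sum.elim b z

/-- The domain `D × ℂ^κ`. -/
def tot (κ : Type) (D : Set (ι → ℂ)) : Set (ι ⊕ κ → ℂ) := {x | bas x ∈ D}

/-- The map `(b,z) ↦ (f_g b, A_g z + τ_g(b))`. -/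
def TorusData.F (T : TorusData ι κ D G) (g : G) (x : ι ⊕ κ → ℂ) : ι ⊕ κ → ℂ :=
  pt (T.f g (bas x)) (T.A g *ᵥ fib x + T.τ g (bas x))

/-- The translation `(b,z) ↦ (b,z+v)`. -/
def shift (v : κ → ℂ) (x : ι ⊕ κ → ℂ) : ι ⊕ κ → ℂ := x + pt 0 v

/-- The maps defining the base. -/
def TorusData.base (T : TorusData ι κ D G) : Set ((ι → ℂ) → (ι → ℂ)) := Set.range T.f

/-- The maps defining the total space. -/
def TorusData.total (T : TorusData ι κ D G) : Set ((ι ⊕ κ → ℂ) → (ι ⊕ κ → ℂ)) :=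
  Set.range T.F ∪ {F | ∃ v ∈ T.Λ, F = shift v}

end total

/-- The upper half plane as a subset of `ℂ^1`. -/
def halfPlane : Set (Unit → ℂ) := {x | 0 < (x ()).im}

/-- The Moebius transformation of `γ ∈ SL(2,ℝ)`. -/
noncomputable def mob (γ : Matrix.SpecialLinearGroup (Fin 2) ℝ) (x : Unit → ℂ) : Unit → ℂ :=
  fun _ => (((γ 0 0 : ℝ) : ℂ) * x () + ((γ 0 1 : ℝ) : ℂ)) / (((γ 1 0 : ℝ) : ℂ) * x () + ((γ 1 1 : ℝ) : ℂ))

/-- The maps of a subgroup of `SL(2,ℝ)`. -/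
def mobs (Γ : Subgroup (Matrix.SpecialLinearGroup (Fin 2) ℝ)) : Set ((Unit → ℂ) → (Unit → ℂ)) :=
  {F | ∃ γ ∈ Γ, F = mob γ}

/-- `Γ` acts properly discontinuously on the upper half plane, with compact quotient. -/
structure CocompactFuchsian (Γ : Subgroup (Matrix.SpecialLinearGroup (Fin 2) ℝ)) : Prop where
  proper : ∀ K : Set UpperHalfPlane, IsCompact K → {γ : Matrix.SpecialLinearGroup (Fin 2) ℝ | γ ∈ Γ ∧ ∃ z ∈ K, γ • z ∈ K}.Finite
  cocompact : ∃ K : Set UpperHalfPlane, IsCompact K ∧ ∀ z : UpperHalfPlane, ∃ γ ∈ Γ, γ • z ∈ K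

end YT
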