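import Pool.Agent.Lib.MP_464db4_gt.YT.SchA

/-!
# YT-SchB: the form induced on the base
`schur gm b = G - Θ h⁻¹ Θᴴ` with the blocks of `gm (pt b 0)`; `h` is a constant matrix (`vert_const`).
* smooth: entries of `gm (pt b 0)` are smooth (`contDiffOn_pt`), `h⁻¹` is constant on `D`: `schur gm b i j = gm.. (inl i)(inl j) - ∑ l m, Θ i l * h⁻¹ l m * conj (Θ j m)` on `D`.
* positive definite: `schur_posDef` with `eq_fromBlocks`.
* closed: `dz k` of `∑ Θ i l * h⁻¹ l m * conj (Θ j m)` is `∑ dz k (Θ i l) * h⁻¹ l m * conj (Θ j m)`, since `dz k (conj Θ) = conj (dzbar k Θ) = 0` (`mixed_bar`), symmetric in `(i,k)` by `mixed_closed`;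
  and `base_closed`.
* invariance under `T.f γ`: `schur_cov` applied to `hg.inv (T.F γ)` at `pt b 0`, with `jac_F` and `gm (T.F γ (pt b 0)) = gm (pt (T.f γ b) 0)` (`FibreConst.eq_pt`, `bas_F`).
-/

namespace YT

open Complex Matrix MeasureTheory
open scoped ContDiff ComplexConjugate ComplexOrder

variable {ι κ : Type} [Fintype ι] [DecidableEq ι] [Fintype κ] [DecidableEq κ] {D : Set (ι → ℂ)} {G : Type}
  {T : TorusData ι κ D G} {gm : (ι ⊕ κ → ℂ) → Matrix (ι ⊕ κ) (ι ⊕ κ) ℂ}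

/-- The form induced on the base. -/
noncomputable def schur (gm : (ι ⊕ κ → ℂ) → Matrix (ι ⊕ κ) (ι ⊕ κ) ℂ) (b : ι → ℂ) : Matrix ι ι ℂ :=
  (gm (pt b 0)).toBlocks₁₁ - (gm (pt b 0)).toBlocks₁₂ * ((gm (pt b 0)).toBlocks₂₂)⁻¹ * ((gm (pt b 0)).toBlocks₁₂)ᴴ

private theorem schB_eq {h : Matrix κ κ ℂ} (hh : ∀ x ∈ tot κ D, (gm x).toBlocks₂₂ = h) {b : ι → ℂ} (hb : b ∈ D) :
    schur gm b = (gm (pt b 0)).toBlocks₁₁ - (gm (pt b 0)).toBlocks₁₂ * h⁻¹ * ((gm (pt b 0)).toBlocks₁₂)ᴴ := by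
  unfold schur
  rw [hh _ (pt_mem_tot hb 0)]

private theorem schB_apply {h : Matrix κ κ ℂ} (hh : ∀ x ∈ tot κ D, (gm x).toBlocks₂₂ = h) {b : ι → ℂ} (hb : b ∈ D) (i j : ι) :
    schur gm b i j = gm (pt b 0) (Sum.inl i) (Sum.inl j) -
      ∑ m, ∑ l, gm (pt b 0) (Sum.inl i) (Sum.inr l) * h⁻¹ l m * conj (gm (pt b 0) (Sum.inl j) (Sum.inr m)) := by
  rw [schB_eq hh hb, Matrix.sub_apply, Matrix.mul_apply]
  congr 1
  refine Finset.sum_congr rfl fun m _ => ?_
  rw [Matrix.mul_apply, Finset.sum_mul]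
  rfl

private theorem schB_smooth {S : Set ((ι ⊕ κ → ℂ) → (ι ⊕ κ → ℂ))} (hg : IsKahler (tot κ D) S gm) (i j : ι ⊕ κ) :
    ContDiffOn ℝ ∞ (fun b => gm (pt b 0) i j) D :=
  contDiffOn_pt (f := fun y => gm y i j) (hg.smooth i j)

private theorem schB_diff (hD : IsOpen D) {S : Set ((ι ⊕ κ → ℂ) → (ι ⊕ κ → ℂ))} (hg : IsKahler (tot κ D) S gm) (i j : ι ⊕ κ)
    {b : ι → ℂ} (hb : b ∈ D) : DifferentiableAt ℝ (fun b => gm (pt b 0) i j) b :=
  (((schB_smooth hg i j).differentiableOn (by simp)) b hb).differentiableAt (hD.mem_nhds hb)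

private theorem schB_diff_conj (hD : IsOpen D) {S : Set ((ι ⊕ κ → ℂ) → (ι ⊕ κ → ℂ))} (hg : IsKahler (tot κ D) S gm) (i j : ι ⊕ κ)
    {b : ι → ℂ} (hb : b ∈ D) : DifferentiableAt ℝ (fun b => conj (gm (pt b 0) i j)) b :=
  (((conj_contDiffOn (schB_smooth hg i j)).differentiableOn (by simp)) b hb).differentiableAt (hD.mem_nhds hb)

theorem schur_smooth (hD : IsOpen D) (hDc : IsConnected D) (hg : IsKahler (tot κ D) T.total gm) (hc : FibreConst D gm) (i j : ι) :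
    ContDiffOn ℝ ∞ (fun b => schur gm b i j) D := by
  obtain ⟨h, -, hh, -⟩ := vert_const hD hDc hg hc
  have key : ContDiffOn ℝ ∞ (fun b => gm (pt b 0) (Sum.inl i) (Sum.inl j) -
      ∑ m, ∑ l, gm (pt b 0) (Sum.inl i) (Sum.inr l) * h⁻¹ l m * conj (gm (pt b 0) (Sum.inl j) (Sum.inr m))) D := by
    refine (schB_smooth hg _ _).sub (ContDiffOn.sum fun m _ => ContDiffOn.sum fun l _ => ?_)
    exact ((schB_smooth hg _ _).mul contDiffOn_const).mul (conj_contDiffOn (schB_smooth hg _ _))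
  exact key.congr fun b hb => schB_apply hh hb i j

theorem schur_closed (hD : IsOpen D) (hDc : IsConnected D) (hg : IsKahler (tot κ D) T.total gm) (hc : FibreConst D gm)
    {b : ι → ℂ} (hb : b ∈ D) (i j k : ι) : dz k (fun b => schur gm b i j) b = dz i (fun b => schur gm b k j) b := by
  obtain ⟨h, -, hh, -⟩ := vert_const hD hDc hg hc
  have key : ∀ i k : ι, dz k (fun b => schur gm b i j) b =
      dz k (fun b => gm (pt b 0) (Sum.inl i) (Sum.inl j)) b -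
        ∑ m, ∑ l, dz k (fun b => gm (pt b 0) (Sum.inl i) (Sum.inr l)) b * h⁻¹ l m *
          conj (gm (pt b 0) (Sum.inl j) (Sum.inr m)) := by
    intro i k
    have d1 : ∀ l m, DifferentiableAt ℝ (fun b => gm (pt b 0) (Sum.inl i) (Sum.inr l) * h⁻¹ l m) b := fun l m =>
      (schB_diff hD hg _ _ hb).mul (differentiableAt_const _)
    have d2 : ∀ m l, DifferentiableAt ℝ (fun b => gm (pt b 0) (Sum.inl i) (Sum.inr l) * h⁻¹ l m *
        conj (gm (pt b 0) (Sum.inl j) (Sum.inr m))) b := fun m l =>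
      (d1 l m).mul (schB_diff_conj hD hg _ _ hb)
    have d3 : ∀ m, DifferentiableAt ℝ (fun b => ∑ l, gm (pt b 0) (Sum.inl i) (Sum.inr l) * h⁻¹ l m *
        conj (gm (pt b 0) (Sum.inl j) (Sum.inr m))) b := fun m =>
      DifferentiableAt.fun_sum fun l _ => d2 m l
    rw [dz_congr_on hD (fun y hy => schB_apply hh hy i j) hb,
      dz_sub k (schB_diff hD hg _ _ hb) (DifferentiableAt.fun_sum fun m _ => d3 m),
      dz_sum Finset.univ _ k (fun m _ => d3 m)]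
    congr 1
    refine Finset.sum_congr rfl fun m _ => ?_
    rw [dz_sum Finset.univ _ k (fun l _ => d2 m l)]
    refine Finset.sum_congr rfl fun l _ => ?_
    rw [dz_mul k (d1 l m) (schB_diff_conj hD hg _ _ hb), dz_mul_const k _ (schB_diff hD hg _ _ hb), dz_conj,
      mixed_bar hD hg hc hb, map_zero, mul_zero, add_zero]
  rw [key i k, key k i, base_closed hD hg hb]
  congr 1
  refine Finset.sum_congr rfl fun m _ => Finset.sum_congr rfl fun l _ => ?_
  rw [mixed_closed hD hg hb]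

theorem schur_inv (hD : IsOpen D) (hDc : IsConnected D) (hg : IsKahler (tot κ D) T.total gm) (hc : FibreConst D gm) :
    ∀ F ∈ T.base, ∀ b ∈ D, (jac F b)ᵀ * schur gm (F b) * mconj (jac F b) = schur gm b := by
  rintro F ⟨γ, rfl⟩ b hb
  obtain ⟨h, hpos, hh, -⟩ := vert_const hD hDc hg hc
  have hx : (pt b 0 : ι ⊕ κ → ℂ) ∈ tot κ D := pt_mem_tot hb 0
  have hx' : T.F γ (pt b 0) ∈ tot κ D := F_mem_tot T γ hx
  have hy : (pt (T.f γ b) 0 : ι ⊕ κ → ℂ) ∈ tot κ D := pt_mem_tot (T.f_maps γ b hb) 0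
  have hi := hg.inv (T.F γ) (Or.inl ⟨γ, rfl⟩) _ hx
  rw [jac_F hD T γ hx, hc.eq_pt hx', bas_F, bas_pt, eq_fromBlocks (hg.pos _ hy).isHermitian,
    eq_fromBlocks (hg.pos _ hx).isHermitian, hh _ hy, hh _ hx] at hi
  rw [schB_eq hh hb, schB_eq hh (T.f_maps γ b hb)]
  exact schur_cov hpos hi

theorem schur_isKahler (hD : IsOpen D) (hDc : IsConnected D) (hg : IsKahler (tot κ D) T.total gm) (hc : FibreConst D gm) :
    IsKahler D T.base (schur gm) := by
  refine ⟨schur_smooth hD hDc hg hc, fun b hb => ?_, fun b hb i j k => schur_closed hD hDc hg hc hb i j k,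
    schur_inv hD hDc hg hc⟩
  have hp := hg.pos _ (pt_mem_tot hb (0 : κ → ℂ))
  have e := eq_fromBlocks hp.isHermitian
  rw [e] at hp
  exact schur_posDef hp

end YT
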