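import Pool.Agent.Lib.MP_464db4_gt.YT.EpsA
import Pool.Agent.Lib.MP_464db4_gt.YT.SchB

/-!
# YT-EpsB: the primitive of `schur gm' - schur gm` on the base
Notation on `D`: `Θ i l = gm (pt b 0) (inl i) (inr l)`, `Θ'` the same for `gm'`, `h` the constant vertical block (the same for both), `p m = e (pt b 0) (inr m)`, `q i = e (pt b 0) (inl i)`.
`epsB b i = q i - 1/2 ∑ l m, (Θ i l + Θ' i l) * h⁻¹ l m * p m`.
Facts: `dzbar Θ = dzbar Θ' = 0` (`mixed_bar`), `dz k (Θ i l) = dz i (Θ k l)` (`mixed_closed`), `dz i (p m) = 0` (`vert_e`), `(Θ' - Θ) i l = -I conj (dzbar i (p l))` (`mixed_diff`), `h⁻¹` Hermitian: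
`conj (h⁻¹ l m) = h⁻¹ m l`.
* `sym`: `dz k (epsB i) = dz k (q i) - 1/2 ∑ dz k (Θ + Θ') i l * h⁻¹ l m * p m`, symmetric.
* `eq`: `dzbar j (epsB i) = dzbar j (q i) - 1/2 ∑ (Θ + Θ') i l * h⁻¹ l m * dzbar j (p m)` and `dzbar j (p m) = -I * conj ((Θ' - Θ) j m)` (conjugate of `mixed_diff`:
  `conj (dzbar j p) = I * (Θ' - Θ)`, so `dzbar j p = -I * conj (Θ' - Θ)`), so `dzbar j (epsB i) = dzbar j (q i) + (I/2) R i j`, `R = (Θ + Θ') h⁻¹ (Θ' - Θ)ᴴ`;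
  `-I * (conj (dzbar i (epsB j)) - dzbar j (epsB i)) = (G' - G) i j - I * (-(I/2) conj (R j i) - (I/2) R i j) = (G' - G) i j - (1/2) (R + Rᴴ) i j`, and
  `(1/2)(R + Rᴴ) = Θ' h⁻¹ Θ'ᴴ - Θ h⁻¹ Θᴴ`.  (`dz i (conj f) = conj (dzbar i f)` is `dz_conj`.)
-/

namespace YT

open Complex Matrix MeasureTheory
open scoped ContDiff ComplexConjugate ComplexOrder

variable {ι κ : Type} [Fintype ι] [DecidableEq ι] [Fintype κ] [DecidableEq κ] {D : Set (ι → ℂ)} {G : Type}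
  {T : TorusData ι κ D G} {gm gm' : (ι ⊕ κ → ℂ) → Matrix (ι ⊕ κ) (ι ⊕ κ) ℂ} {e : (ι ⊕ κ → ℂ) → (ι ⊕ κ → ℂ)}

/-- The primitive on the base. -/
noncomputable def epsB (gm gm' : (ι ⊕ κ → ℂ) → Matrix (ι ⊕ κ) (ι ⊕ κ) ℂ) (e : (ι ⊕ κ → ℂ) → (ι ⊕ κ → ℂ)) (b : ι → ℂ) (i : ι) : ℂ :=
  e (pt b 0) (Sum.inl i) - (1 / 2) * ∑ l, ∑ m, (gm (pt b 0) (Sum.inl i) (Sum.inr l) + gm' (pt b 0) (Sum.inl i) (Sum.inr l)) *
    ((gm (pt b 0)).toBlocks₂₂)⁻¹ l m * e (pt b 0) (Sum.inr m)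

private theorem epsb_apply {h : Matrix κ κ ℂ} (hh : ∀ x ∈ tot κ D, (gm x).toBlocks₂₂ = h) {b : ι → ℂ} (hb : b ∈ D) (i : ι) :
    epsB gm gm' e b i = e (pt b 0) (Sum.inl i) - (1 / 2) * ∑ l, ∑ m,
      (gm (pt b 0) (Sum.inl i) (Sum.inr l) + gm' (pt b 0) (Sum.inl i) (Sum.inr l)) * h⁻¹ l m * e (pt b 0) (Sum.inr m) := by
  unfold epsB
  rw [hh _ (pt_mem_tot hb 0)]

private theorem epsb_schur {gm : (ι ⊕ κ → ℂ) → Matrix (ι ⊕ κ) (ι ⊕ κ) ℂ} {h : Matrix κ κ ℂ}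
    (hh : ∀ x ∈ tot κ D, (gm x).toBlocks₂₂ = h) {b : ι → ℂ} (hb : b ∈ D) (i j : ι) :
    schur gm b i j = gm (pt b 0) (Sum.inl i) (Sum.inl j) -
      ∑ l, ∑ m, gm (pt b 0) (Sum.inl i) (Sum.inr l) * h⁻¹ l m * conj (gm (pt b 0) (Sum.inl j) (Sum.inr m)) := by
  unfold schur
  rw [hh _ (pt_mem_tot hb 0), Matrix.sub_apply, Matrix.mul_apply]
  congr 1
  rw [Finset.sum_comm]
  refine Finset.sum_congr rfl fun m _ => ?_
  rw [Matrix.mul_apply, Finset.sum_mul]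
  rfl

private theorem epsb_gsm {gm : (ι ⊕ κ → ℂ) → Matrix (ι ⊕ κ) (ι ⊕ κ) ℂ} {S : Set ((ι ⊕ κ → ℂ) → (ι ⊕ κ → ℂ))}
    (hg : IsKahler (tot κ D) S gm) (i j : ι ⊕ κ) : ContDiffOn ℝ ∞ (fun b => gm (pt b 0) i j) D :=
  contDiffOn_pt (f := fun y => gm y i j) (hg.smooth i j)

private theorem epsb_gdiff {gm : (ι ⊕ κ → ℂ) → Matrix (ι ⊕ κ) (ι ⊕ κ) ℂ} (hD : IsOpen D)
    {S : Set ((ι ⊕ κ → ℂ) → (ι ⊕ κ → ℂ))} (hg : IsKahler (tot κ D) S gm) (i j : ι ⊕ κ)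
    {b : ι → ℂ} (hb : b ∈ D) : DifferentiableAt ℝ (fun b => gm (pt b 0) i j) b :=
  (((epsb_gsm hg i j).differentiableOn (by simp)) b hb).differentiableAt (hD.mem_nhds hb)

private theorem epsb_esm (he : IsPrimitive (tot κ D) T.total gm gm' e) (j : ι ⊕ κ) :
    ContDiffOn ℝ ∞ (fun b => e (pt b 0) j) D :=
  contDiffOn_pt (f := fun y => e y j) (he.smooth j)

private theorem epsb_ediff (hD : IsOpen D) (he : IsPrimitive (tot κ D) T.total gm gm' e) (j : ι ⊕ κ)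
    {b : ι → ℂ} (hb : b ∈ D) : DifferentiableAt ℝ (fun b => e (pt b 0) j) b :=
  (((epsb_esm he j).differentiableOn (by simp)) b hb).differentiableAt (hD.mem_nhds hb)

theorem epsB_smooth (hD : IsOpen D) (hDc : IsConnected D) (hg : IsKahler (tot κ D) T.total gm) (hc : FibreConst D gm)
    (hg' : IsKahler (tot κ D) T.total gm') (he : IsPrimitive (tot κ D) T.total gm gm' e) (i : ι) :
    ContDiffOn ℝ ∞ (fun b => epsB gm gm' e b i) D := by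
  obtain ⟨h, -, hh, -⟩ := vert_const hD hDc hg hc
  have key : ContDiffOn ℝ ∞ (fun b => e (pt b 0) (Sum.inl i) - (1 / 2) * ∑ l, ∑ m,
      (gm (pt b 0) (Sum.inl i) (Sum.inr l) + gm' (pt b 0) (Sum.inl i) (Sum.inr l)) * h⁻¹ l m * e (pt b 0) (Sum.inr m)) D := by
    refine (epsb_esm he _).sub (contDiffOn_const.mul (ContDiffOn.sum fun l _ => ContDiffOn.sum fun m _ => ?_))
    exact (((epsb_gsm hg _ _).add (epsb_gsm hg' _ _)).mul contDiffOn_const).mul (epsb_esm he _)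
  exact key.congr fun b hb => epsb_apply hh hb i

private theorem epsb_dz (hD : IsOpen D) (hg : IsKahler (tot κ D) T.total gm)
    (hg' : IsKahler (tot κ D) T.total gm') (he : IsPrimitive (tot κ D) T.total gm gm' e)
    (hec : ∀ x ∈ tot κ D, ∀ a : κ → ℂ, e (x + pt 0 a) = e x) {h : Matrix κ κ ℂ}
    (hh : ∀ x ∈ tot κ D, (gm x).toBlocks₂₂ = h) {b : ι → ℂ} (hb : b ∈ D) (i j : ι) :
    dz i (fun b => epsB gm gm' e b j) b = dz i (fun b => e (pt b 0) (Sum.inl j)) b - (1 / 2) * ∑ l, ∑ m,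
      (dz i (fun b => gm (pt b 0) (Sum.inl j) (Sum.inr l)) b + dz i (fun b => gm' (pt b 0) (Sum.inl j) (Sum.inr l)) b) *
        h⁻¹ l m * e (pt b 0) (Sum.inr m) := by
  have d0 : ∀ l, DifferentiableAt ℝ (fun b => gm (pt b 0) (Sum.inl j) (Sum.inr l) + gm' (pt b 0) (Sum.inl j) (Sum.inr l)) b :=
    fun l => (epsb_gdiff hD hg _ _ hb).add (epsb_gdiff hD hg' _ _ hb)
  have d1 : ∀ l m, DifferentiableAt ℝ (fun b => (gm (pt b 0) (Sum.inl j) (Sum.inr l) + gm' (pt b 0) (Sum.inl j) (Sum.inr l)) * h⁻¹ l m) b :=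
    fun l m => (d0 l).mul (differentiableAt_const _)
  have d2 : ∀ l m, DifferentiableAt ℝ (fun b => (gm (pt b 0) (Sum.inl j) (Sum.inr l) + gm' (pt b 0) (Sum.inl j) (Sum.inr l)) * h⁻¹ l m *
      e (pt b 0) (Sum.inr m)) b := fun l m => (d1 l m).mul (epsb_ediff hD he _ hb)
  have d3 : ∀ l, DifferentiableAt ℝ (fun b => ∑ m, (gm (pt b 0) (Sum.inl j) (Sum.inr l) + gm' (pt b 0) (Sum.inl j) (Sum.inr l)) * h⁻¹ l m *
      e (pt b 0) (Sum.inr m)) b := fun l => DifferentiableAt.fun_sum fun m _ => d2 l m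
  have d4 : DifferentiableAt ℝ (fun b => ∑ l, ∑ m, (gm (pt b 0) (Sum.inl j) (Sum.inr l) + gm' (pt b 0) (Sum.inl j) (Sum.inr l)) * h⁻¹ l m *
      e (pt b 0) (Sum.inr m)) b := DifferentiableAt.fun_sum fun l _ => d3 l
  have d5 : DifferentiableAt ℝ (fun b => (1 / 2 : ℂ) * ∑ l, ∑ m, (gm (pt b 0) (Sum.inl j) (Sum.inr l) + gm' (pt b 0) (Sum.inl j) (Sum.inr l)) *
      h⁻¹ l m * e (pt b 0) (Sum.inr m)) b := (differentiableAt_const _).mul d4
  rw [dz_congr_on hD (fun y hy => epsb_apply hh hy j) hb,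
    dz_sub i (epsb_ediff hD he _ hb) d5, dz_const_mul i _ d4,
    dz_sum Finset.univ _ i (fun l _ => d3 l)]
  congr 2
  refine Finset.sum_congr rfl fun l _ => ?_
  rw [dz_sum Finset.univ _ i (fun m _ => d2 l m)]
  refine Finset.sum_congr rfl fun m _ => ?_
  rw [dz_mul i (d1 l m) (epsb_ediff hD he _ hb), dz_mul_const i _ (d0 l), vert_e hD he hec hb, mul_zero, add_zero,
    dz_add i (epsb_gdiff hD hg _ _ hb) (epsb_gdiff hD hg' _ _ hb)]

private theorem epsb_dzbar (hD : IsOpen D) (hg : IsKahler (tot κ D) T.total gm) (hc : FibreConst D gm)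
    (hg' : IsKahler (tot κ D) T.total gm') (hc' : FibreConst D gm') (he : IsPrimitive (tot κ D) T.total gm gm' e)
    (hec : ∀ x ∈ tot κ D, ∀ a : κ → ℂ, e (x + pt 0 a) = e x) {h : Matrix κ κ ℂ}
    (hh : ∀ x ∈ tot κ D, (gm x).toBlocks₂₂ = h) {b : ι → ℂ} (hb : b ∈ D) (i j : ι) :
    dzbar j (fun b => epsB gm gm' e b i) b = dzbar j (fun b => e (pt b 0) (Sum.inl i)) b + (I / 2) * ∑ l, ∑ m,
      (gm (pt b 0) (Sum.inl i) (Sum.inr l) + gm' (pt b 0) (Sum.inl i) (Sum.inr l)) * h⁻¹ l m *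
        conj (gm' (pt b 0) (Sum.inl j) (Sum.inr m) - gm (pt b 0) (Sum.inl j) (Sum.inr m)) := by
  have d0 : ∀ l, DifferentiableAt ℝ (fun b => gm (pt b 0) (Sum.inl i) (Sum.inr l) + gm' (pt b 0) (Sum.inl i) (Sum.inr l)) b :=
    fun l => (epsb_gdiff hD hg _ _ hb).add (epsb_gdiff hD hg' _ _ hb)
  have d1 : ∀ l m, DifferentiableAt ℝ (fun b => (gm (pt b 0) (Sum.inl i) (Sum.inr l) + gm' (pt b 0) (Sum.inl i) (Sum.inr l)) * h⁻¹ l m) b :=
    fun l m => (d0 l).mul (differentiableAt_const _)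
  have d2 : ∀ l m, DifferentiableAt ℝ (fun b => (gm (pt b 0) (Sum.inl i) (Sum.inr l) + gm' (pt b 0) (Sum.inl i) (Sum.inr l)) * h⁻¹ l m *
      e (pt b 0) (Sum.inr m)) b := fun l m => (d1 l m).mul (epsb_ediff hD he _ hb)
  have d3 : ∀ l, DifferentiableAt ℝ (fun b => ∑ m, (gm (pt b 0) (Sum.inl i) (Sum.inr l) + gm' (pt b 0) (Sum.inl i) (Sum.inr l)) * h⁻¹ l m *
      e (pt b 0) (Sum.inr m)) b := fun l => DifferentiableAt.fun_sum fun m _ => d2 l m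
  have d4 : DifferentiableAt ℝ (fun b => ∑ l, ∑ m, (gm (pt b 0) (Sum.inl i) (Sum.inr l) + gm' (pt b 0) (Sum.inl i) (Sum.inr l)) * h⁻¹ l m *
      e (pt b 0) (Sum.inr m)) b := DifferentiableAt.fun_sum fun l _ => d3 l
  have hp : ∀ m, dzbar j (fun b => e (pt b 0) (Sum.inr m)) b =
      -I * conj (gm' (pt b 0) (Sum.inl j) (Sum.inr m) - gm (pt b 0) (Sum.inl j) (Sum.inr m)) := by
    intro m
    rw [mixed_diff hD he hec hb j m, map_mul, Complex.conj_conj, map_neg, Complex.conj_I, neg_neg, ← mul_assoc,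
      neg_mul, Complex.I_mul_I, neg_neg, one_mul]
  have d5 : DifferentiableAt ℝ (fun b => (1 / 2 : ℂ) * ∑ l, ∑ m, (gm (pt b 0) (Sum.inl i) (Sum.inr l) + gm' (pt b 0) (Sum.inl i) (Sum.inr l)) *
      h⁻¹ l m * e (pt b 0) (Sum.inr m)) b := (differentiableAt_const _).mul d4
  rw [dzbar_congr_on hD (fun y hy => epsb_apply hh hy i) hb,
    dzbar_sub j (epsb_ediff hD he _ hb) d5, dzbar_const_mul j _ d4,
    dzbar_sum Finset.univ _ j (fun l _ => d3 l), sub_eq_add_neg]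
  congr 1
  rw [← neg_mul, Finset.mul_sum, Finset.mul_sum]
  refine Finset.sum_congr rfl fun l _ => ?_
  rw [dzbar_sum Finset.univ _ j (fun m _ => d2 l m), Finset.mul_sum, Finset.mul_sum]
  refine Finset.sum_congr rfl fun m _ => ?_
  rw [dzbar_mul j (d1 l m) (epsb_ediff hD he _ hb), dzbar_mul_const j _ (d0 l),
    dzbar_add j (epsb_gdiff hD hg _ _ hb) (epsb_gdiff hD hg' _ _ hb), mixed_bar hD hg hc hb, mixed_bar hD hg' hc' hb, hp m]
  ring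

theorem epsB_sym (hD : IsOpen D) (hDc : IsConnected D) (hg : IsKahler (tot κ D) T.total gm) (hc : FibreConst D gm)
    (hg' : IsKahler (tot κ D) T.total gm') (hc' : FibreConst D gm') (he : IsPrimitive (tot κ D) T.total gm gm' e)
    (hec : ∀ x ∈ tot κ D, ∀ a : κ → ℂ, e (x + pt 0 a) = e x) {b : ι → ℂ} (hb : b ∈ D) (i j : ι) :
    dz i (fun b => epsB gm gm' e b j) b = dz j (fun b => epsB gm gm' e b i) b := by
  obtain ⟨h, -, hh, -⟩ := vert_const hD hDc hg hc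
  rw [epsb_dz hD hg hg' he hec hh hb i j, epsb_dz hD hg hg' he hec hh hb j i, base_sym hD he hb i j]
  congr 2
  refine Finset.sum_congr rfl fun l _ => Finset.sum_congr rfl fun m _ => ?_
  rw [mixed_closed hD hg hb j i l, mixed_closed hD hg' hb j i l]

theorem epsB_eq (hD : IsOpen D) (hDc : IsConnected D) (hg : IsKahler (tot κ D) T.total gm) (hc : FibreConst D gm)
    (hg' : IsKahler (tot κ D) T.total gm') (hc' : FibreConst D gm') (he : IsPrimitive (tot κ D) T.total gm gm' e)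
    (hec : ∀ x ∈ tot κ D, ∀ a : κ → ℂ, e (x + pt 0 a) = e x) {b : ι → ℂ} (hb : b ∈ D) (i j : ι) :
    schur gm' b i j - schur gm b i j =
      -I * (dz i (fun b => conj (epsB gm gm' e b j)) b - dzbar j (fun b => epsB gm gm' e b i) b) := by
  obtain ⟨h, hpos, hh, -⟩ := vert_const hD hDc hg hc
  have hh' : ∀ x ∈ tot κ D, (gm' x).toBlocks₂₂ = h := fun x hx => (vert_same hD he hec hx).trans (hh x hx)
  have hinv : ∀ l m, conj (h⁻¹ l m) = h⁻¹ m l := by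
    intro l m
    have h1 : (h⁻¹).IsHermitian := hpos.isHermitian.inv
    exact h1.apply m l
  rw [dz_conj i (fun b => epsB gm gm' e b j), epsb_dzbar hD hg hc hg' hc' he hec hh hb j i,
    epsb_dzbar hD hg hc hg' hc' he hec hh hb i j, epsb_schur hh hb, epsb_schur hh' hb, map_add, map_mul, map_sum]
  have hbd := base_diff hD he hb i j
  have hI : conj (I / 2) = -(I / 2) := by
    rw [map_div₀, Complex.conj_I, map_ofNat, neg_div]
  have hR : ∑ l, conj (∑ m, (gm (pt b 0) (Sum.inl j) (Sum.inr l) + gm' (pt b 0) (Sum.inl j) (Sum.inr l)) * h⁻¹ l m *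
        conj (gm' (pt b 0) (Sum.inl i) (Sum.inr m) - gm (pt b 0) (Sum.inl i) (Sum.inr m))) =
      ∑ l, ∑ m, (gm' (pt b 0) (Sum.inl i) (Sum.inr l) - gm (pt b 0) (Sum.inl i) (Sum.inr l)) * h⁻¹ l m *
        conj (gm (pt b 0) (Sum.inl j) (Sum.inr m) + gm' (pt b 0) (Sum.inl j) (Sum.inr m)) := by
    rw [Finset.sum_comm]
    refine Finset.sum_congr rfl fun l _ => ?_
    rw [map_sum]
    refine Finset.sum_congr rfl fun m _ => ?_
    rw [map_mul, map_mul, Complex.conj_conj, hinv]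
    ring
  have hS : (∑ l, ∑ m, gm' (pt b 0) (Sum.inl i) (Sum.inr l) * h⁻¹ l m * conj (gm' (pt b 0) (Sum.inl j) (Sum.inr m))) -
      (∑ l, ∑ m, gm (pt b 0) (Sum.inl i) (Sum.inr l) * h⁻¹ l m * conj (gm (pt b 0) (Sum.inl j) (Sum.inr m))) =
      (1 / 2) * ((∑ l, ∑ m, (gm (pt b 0) (Sum.inl i) (Sum.inr l) + gm' (pt b 0) (Sum.inl i) (Sum.inr l)) * h⁻¹ l m *
        conj (gm' (pt b 0) (Sum.inl j) (Sum.inr m) - gm (pt b 0) (Sum.inl j) (Sum.inr m))) +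
      ∑ l, ∑ m, (gm' (pt b 0) (Sum.inl i) (Sum.inr l) - gm (pt b 0) (Sum.inl i) (Sum.inr l)) * h⁻¹ l m *
        conj (gm (pt b 0) (Sum.inl j) (Sum.inr m) + gm' (pt b 0) (Sum.inl j) (Sum.inr m))) := by
    rw [← Finset.sum_sub_distrib, ← Finset.sum_add_distrib, Finset.mul_sum]
    refine Finset.sum_congr rfl fun l _ => ?_
    rw [← Finset.sum_sub_distrib, ← Finset.sum_add_distrib, Finset.mul_sum]
    refine Finset.sum_congr rfl fun m _ => ?_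
    rw [map_sub, map_add]
    ring
  rw [hR, hI]
  generalize (∑ l, ∑ m, (gm (pt b 0) (Sum.inl i) (Sum.inr l) + gm' (pt b 0) (Sum.inl i) (Sum.inr l)) * h⁻¹ l m *
        conj (gm' (pt b 0) (Sum.inl j) (Sum.inr m) - gm (pt b 0) (Sum.inl j) (Sum.inr m))) = R1 at hS ⊢
  generalize (∑ l, ∑ m, (gm' (pt b 0) (Sum.inl i) (Sum.inr l) - gm (pt b 0) (Sum.inl i) (Sum.inr l)) * h⁻¹ l m *
        conj (gm (pt b 0) (Sum.inl j) (Sum.inr m) + gm' (pt b 0) (Sum.inl j) (Sum.inr m))) = R2 at hS ⊢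
  generalize (∑ l, ∑ m, gm' (pt b 0) (Sum.inl i) (Sum.inr l) * h⁻¹ l m * conj (gm' (pt b 0) (Sum.inl j) (Sum.inr m))) = S1 at hS ⊢
  generalize (∑ l, ∑ m, gm (pt b 0) (Sum.inl i) (Sum.inr l) * h⁻¹ l m * conj (gm (pt b 0) (Sum.inl j) (Sum.inr m))) = S2 at hS ⊢
  linear_combination hbd - hS - (1 / 2) * (R1 + R2) * Complex.I_sq

end YT
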