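import Pool.Agent.Lib.MP_464db4_gt.YT.EpsB

/-!
# YT-EpsC: invariance of the primitive on the base
`F = T.f γ`, `a = jac F b`, `t = jac (T.τ γ) b`, `A = T.A γ`; values at `F b` are written with `^`.  From `gm.inv` (blocks of `Jᵀ gm(F) J̄ = gm`, `J = fromBlocks a 0 t A`, `jac_F` at `pt b 0`):
`aᵀ Θ^ Ā + tᵀ h Ā = Θ`, the same for `Θ'`, `Aᵀ h Ā = h`, hence `h Ā` is invertible with inverse `h⁻¹ Aᵀ` and `aᵀ Θ^ h⁻¹ = Θ h⁻¹ Aᵀ - tᵀ`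
(`aᵀ Θ^ = Θ Ā⁻¹ - tᵀ h`, `Ā⁻¹ h⁻¹ = h⁻¹ Aᵀ`).  `e_inv`: `aᵀ q^ + tᵀ p^ = q`, `Aᵀ p^ = p`.  So
`aᵀ eps^ = aᵀ q^ - 1/2 (aᵀ (Θ + Θ')^ h⁻¹) p^ = aᵀ q^ - 1/2 (Θ + Θ') h⁻¹ Aᵀ p^ + tᵀ p^ = q - 1/2 (Θ + Θ') h⁻¹ p = eps`.
-/

namespace YT

open Complex Matrix MeasureTheory
open scoped ContDiff ComplexConjugate ComplexOrder

variable {ι κ : Type} [Fintype ι] [DecidableEq ι] [Fintype κ] [DecidableEq κ] {D : Set (ι → ℂ)} {G : Type}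
  {T : TorusData ι κ D G} {gm gm' : (ι ⊕ κ → ℂ) → Matrix (ι ⊕ κ) (ι ⊕ κ) ℂ} {e : (ι ⊕ κ → ℂ) → (ι ⊕ κ → ℂ)}

/-- matrix algebra for `mixed_inv` -/
private theorem EpsC_alg {a : Matrix ι ι ℂ} {Q Q' : Matrix ι κ ℂ} {h A : Matrix κ κ ℂ} {t : Matrix κ ι ℂ} (hh : h.PosDef)
    (hA : Aᵀ * h * mconj A = h) (hQ : (aᵀ * Q' + tᵀ * h) * mconj A = Q) :
    aᵀ * Q' * h⁻¹ = Q * h⁻¹ * Aᵀ - tᵀ := by
  have hu : IsUnit h.det := (isUnit_iff_isUnit_det h).1 hh.isUnit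
  have hh1 : h * h⁻¹ = 1 := mul_nonsing_inv h hu
  have hh2 : h⁻¹ * h = 1 := nonsing_inv_mul h hu
  have e0 : h⁻¹ * Aᵀ * h * mconj A = 1 := by
    have : h⁻¹ * (Aᵀ * h * mconj A) = 1 := by rw [hA, hh2]
    rw [← this]
    simp only [Matrix.mul_assoc]
  have e1 : mconj A * (h⁻¹ * Aᵀ * h) = 1 := mul_eq_one_comm.1 e0
  have e2 : mconj A * h⁻¹ * Aᵀ = h⁻¹ := by
    calc mconj A * h⁻¹ * Aᵀ = mconj A * h⁻¹ * Aᵀ * (h * h⁻¹) := by rw [hh1, Matrix.mul_one]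
      _ = mconj A * (h⁻¹ * Aᵀ * h) * h⁻¹ := by simp only [Matrix.mul_assoc]
      _ = h⁻¹ := by rw [e1, Matrix.one_mul]
  have e3 : Q * h⁻¹ * Aᵀ = aᵀ * Q' * h⁻¹ + tᵀ := by
    rw [← hQ]
    calc (aᵀ * Q' + tᵀ * h) * mconj A * h⁻¹ * Aᵀ
        = (aᵀ * Q' + tᵀ * h) * (mconj A * h⁻¹ * Aᵀ) := by simp only [Matrix.mul_assoc]
      _ = (aᵀ * Q' + tᵀ * h) * h⁻¹ := by rw [e2]
      _ = _ := by rw [Matrix.add_mul, Matrix.mul_assoc tᵀ h h⁻¹, hh1, Matrix.mul_one]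
  rw [e3, add_sub_cancel_right]

/-- The transformation of the mixed block. -/
theorem mixed_inv (hD : IsOpen D) (hDc : IsConnected D) (hg : IsKahler (tot κ D) T.total gm) (hc : FibreConst D gm) (γ : G)
    {b : ι → ℂ} (hb : b ∈ D) :
    (jac (T.f γ) b)ᵀ * (gm (pt (T.f γ b) 0)).toBlocks₁₂ * ((gm (pt b 0)).toBlocks₂₂)⁻¹ =
      (gm (pt b 0)).toBlocks₁₂ * ((gm (pt b 0)).toBlocks₂₂)⁻¹ * (T.A γ)ᵀ - (jac (T.τ γ) b)ᵀ := by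
  obtain ⟨h, hh, hcon, hA⟩ := vert_const hD hDc hg hc
  have hx : (pt b 0 : ι ⊕ κ → ℂ) ∈ tot κ D := pt_mem_tot hb 0
  have hF : T.F γ (pt b 0) ∈ tot κ D := F_mem_tot T γ hx
  have hi := hg.inv (T.F γ) (Or.inl ⟨γ, rfl⟩) _ hx
  rw [jac_F hD T γ hx, hc.eq_pt hF] at hi
  have hb1 : bas (T.F γ (pt b (0 : κ → ℂ))) = T.f γ b := rfl
  have hb2 : bas (pt b (0 : κ → ℂ)) = b := rfl
  rw [hb1, hb2] at hi
  have hF' : (pt (T.f γ b) 0 : ι ⊕ κ → ℂ) ∈ tot κ D := pt_mem_tot (T.f_maps γ b hb) 0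
  have h12 := congrArg Matrix.toBlocks₁₂ hi
  rw [hcon _ hx]
  refine EpsC_alg hh (hA γ) ?_
  refine Eq.trans ?_ h12
  rw [← hcon _ hF']
  generalize gm (pt (T.f γ b) 0) = M
  conv_rhs => rw [← fromBlocks_toBlocks M]
  rw [mconj, mconj, fromBlocks_map, fromBlocks_transpose, fromBlocks_multiply, fromBlocks_multiply,
    toBlocks_fromBlocks₁₂]
  simp

/-- `epsB` in terms of matrices and vectors -/
private theorem EpsC_vec (gm gm' : (ι ⊕ κ → ℂ) → Matrix (ι ⊕ κ) (ι ⊕ κ) ℂ) (e : (ι ⊕ κ → ℂ) → (ι ⊕ κ → ℂ)) (b : ι → ℂ) :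
    epsB gm gm' e b = (fun i => e (pt b 0) (Sum.inl i)) - (1 / 2 : ℂ) •
      ((((gm (pt b 0)).toBlocks₁₂ + (gm' (pt b 0)).toBlocks₁₂) * ((gm (pt b 0)).toBlocks₂₂)⁻¹) *ᵥ
        fun m => e (pt b 0) (Sum.inr m)) := by
  funext i
  simp only [epsB, Pi.sub_apply, Pi.smul_apply, smul_eq_mul, mulVec, dotProduct, Matrix.mul_apply,
    Matrix.add_apply, toBlocks₁₂, Matrix.of_apply]
  congr 2
  rw [Finset.sum_comm]
  refine Finset.sum_congr rfl fun m _ => ?_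
  rw [Finset.sum_mul]

theorem epsB_inv (hD : IsOpen D) (hDc : IsConnected D) (hg : IsKahler (tot κ D) T.total gm) (hc : FibreConst D gm)
    (hg' : IsKahler (tot κ D) T.total gm') (hc' : FibreConst D gm') (he : IsPrimitive (tot κ D) T.total gm gm' e)
    (hec : ∀ x ∈ tot κ D, ∀ a : κ → ℂ, e (x + pt 0 a) = e x) :
    ∀ F ∈ T.base, ∀ b ∈ D, ∀ i, ∑ k, epsB gm gm' e (F b) k * jac F b k i = epsB gm gm' e b i := by
  rintro F ⟨γ, rfl⟩ b hb i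
  obtain ⟨h, hh, hcon, hA⟩ := vert_const hD hDc hg hc
  have hx : (pt b 0 : ι ⊕ κ → ℂ) ∈ tot κ D := pt_mem_tot hb 0
  have hF' : (pt (T.f γ b) 0 : ι ⊕ κ → ℂ) ∈ tot κ D := pt_mem_tot (T.f_maps γ b hb) 0
  have h1 := mixed_inv hD hDc hg hc γ hb
  have h2 := mixed_inv hD hDc hg' hc' γ hb
  rw [vert_same hD he hec hx, hcon _ hx] at h2
  rw [hcon _ hx] at h1
  obtain ⟨h3, h4⟩ := e_inv hD he hec γ hb
  have h3' : (fun k => e (pt (T.f γ b) 0) (Sum.inl k)) ᵥ* jac (T.f γ) b +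
      (fun l => e (pt (T.f γ b) 0) (Sum.inr l)) ᵥ* jac (T.τ γ) b = fun i => e (pt b 0) (Sum.inl i) := by
    funext i
    exact h3 i
  have h4' : (fun l => e (pt (T.f γ b) 0) (Sum.inr l)) ᵥ* T.A γ = fun m => e (pt b 0) (Sum.inr m) := by
    funext m
    exact h4 m
  have key : epsB gm gm' e (T.f γ b) ᵥ* jac (T.f γ) b = epsB gm gm' e b := by
    rw [EpsC_vec, EpsC_vec, hcon _ hx, hcon _ hF', sub_vecMul, smul_vecMul, ← h3', ← h4',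
      ← mulVec_transpose (jac (T.f γ) b) (_ *ᵥ _), mulVec_mulVec, ← Matrix.mul_assoc, Matrix.mul_add,
      Matrix.add_mul, h1, h2, ← mulVec_transpose (T.A γ), mulVec_mulVec,
      ← mulVec_transpose (jac (T.τ γ) b), Matrix.add_mul, Matrix.add_mul, Matrix.add_mulVec, Matrix.sub_mulVec,
      Matrix.sub_mulVec, Matrix.add_mulVec]
    funext j
    simp only [Pi.sub_apply, Pi.add_apply, Pi.smul_apply, smul_eq_mul]
    ring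
  have h5 := congrFun key i
  rw [← h5]
  rfl

theorem epsB_isPrimitive (hD : IsOpen D) (hDc : IsConnected D) (hg : IsKahler (tot κ D) T.total gm) (hc : FibreConst D gm)
    (hg' : IsKahler (tot κ D) T.total gm') (hc' : FibreConst D gm') (he : IsPrimitive (tot κ D) T.total gm gm' e)
    (hec : ∀ x ∈ tot κ D, ∀ a : κ → ℂ, e (x + pt 0 a) = e x) : IsPrimitive D T.base (schur gm) (schur gm') (epsB gm gm' e) :=
  ⟨fun i => epsB_smooth hD hDc hg hc hg' he i, epsB_inv hD hDc hg hc hg' hc' he hec,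
    fun _ hb i j => epsB_sym hD hDc hg hc hg' hc' he hec hb i j,
    fun _ hb i j => epsB_eq hD hDc hg hc hg' hc' he hec hb i j⟩

end YT
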