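import Pool.Agent.Lib.MP_464db4_gt.YT.Red
import Pool.Agent.Lib.MP_464db4_gt.YT.AvgE
import Pool.Agent.Lib.MP_464db4_gt.YT.EpsC

/-!
# YT-Iff: the equivalence
* `IsPrimitive.symm`: `-e`.
* `scal_congr_on`: `scal` at a point of an open set depends only on the values on the set (`dz_congr_on`, `dzbar_congr_on`, `logdet`).
* `schur_scal`: for `g'` Kaehler and constant along the fibres `glue g' (schur g') = g'` on `tot κ D` (`glue_eq`), so `scal_glue` gives `scal g' x = scal (schur g') (bas x)`.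
* `reduction_iff`: `h` and `μ` as in `reduction` (`exists_isMean`, `vert_const`, `exists_invariant_mean`), `gm = avg μ g`, `prim_isPrimitive`.
  `→`: `g' = glue gm β'`, `glue_prim`, `scal_glue`; it is constant along the fibres (`bas_add_pt`).
  `←`: `e` from `Cohomologous g g'`; `e' = -prim + e` is a primitive from `gm` to `g'` (`symm`, `trans`); `avgE μ e'` is a primitive which is constant along the fibres; `epsB_isPrimitive`; `β' = schur g'`, `schur_scal` at `pt b 0`.
-/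

namespace YT

open Complex Matrix MeasureTheory
open scoped ContDiff ComplexConjugate ComplexOrder

variable {ι κ : Type} [Fintype ι] [DecidableEq ι] [Fintype κ] [DecidableEq κ] {D : Set (ι → ℂ)} {G : Type}
  {T : TorusData ι κ D G}

theorem IsPrimitive.symm {U : Set (ι → ℂ)} (hU : IsOpen U) {S : Set ((ι → ℂ) → (ι → ℂ))} {g g' : (ι → ℂ) → Matrix ι ι ℂ}
    {e : (ι → ℂ) → (ι → ℂ)} (h : IsPrimitive U S g g' e) : IsPrimitive U S g' g (fun x => -e x) := by
  have hd : ∀ x ∈ U, ∀ i, DifferentiableAt ℝ (fun y => e y i) x := fun x hx i =>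
    ((h.smooth i).contDiffAt (hU.mem_nhds hx)).differentiableAt (by simp)
  have hdc : ∀ x ∈ U, ∀ i, DifferentiableAt ℝ (fun y => conj (e y i)) x := fun x hx i =>
    ((conj_contDiffOn (h.smooth i)).contDiffAt (hU.mem_nhds hx)).differentiableAt (by simp)
  have e1 : ∀ i, (fun y => (-e y) i) = fun y => (-1 : ℂ) * e y i := by
    intro i
    funext y
    rw [Pi.neg_apply, neg_one_mul]
  have e2 : ∀ i, (fun y => conj ((-e y) i)) = fun y => (-1 : ℂ) * conj (e y i) := by
    intro i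
    funext y
    rw [Pi.neg_apply, map_neg, neg_one_mul]
  refine ⟨fun i => ?_, fun F hF x hx i => ?_, fun x hx i j => ?_, fun x hx i j => ?_⟩
  · exact (h.smooth i).neg
  · have h1 := h.inv F hF x hx i
    simp only [Pi.neg_apply, neg_mul, Finset.sum_neg_distrib]
    rw [h1]
  · rw [e1, e1, dz_const_mul _ _ (hd x hx j), dz_const_mul _ _ (hd x hx i), h.sym x hx]
  · have h1 := h.eq x hx i j
    rw [e1, e2, dz_const_mul _ _ (hdc x hx j), dzbar_const_mul _ _ (hd x hx i)]
    linear_combination -h1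

theorem scal_congr_on {U : Set (ι → ℂ)} (hU : IsOpen U) {g g' : (ι → ℂ) → Matrix ι ι ℂ} (h : ∀ x ∈ U, g x = g' x) {x : ι → ℂ}
    (hx : x ∈ U) : scal g x = scal g' x := by
  have h1 : ∀ y ∈ U, logdet g y = logdet g' y := by
    intro y hy
    unfold logdet
    rw [h y hy]
  unfold scal
  rw [h x hx]
  congr 1
  refine Finset.sum_congr rfl fun i _ => Finset.sum_congr rfl fun j _ => ?_
  congr 1
  exact dz_congr_on hU (fun y hy => dzbar_congr_on hU h1 hy j) hx i

theorem schur_scal (hD : IsOpen D) (hDc : IsConnected D) {g' : (ι ⊕ κ → ℂ) → Matrix (ι ⊕ κ) (ι ⊕ κ) ℂ}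
    (hg : IsKahler (tot κ D) T.total g') (hc : FibreConst D g') {x : ι ⊕ κ → ℂ} (hx : x ∈ tot κ D) :
    scal g' x = scal (schur g') (bas x) := by
  have h1 : ∀ y ∈ tot κ D, g' y = glue g' (schur g') y := by
    intro y hy
    rw [glue_eq hg hc hy, sub_self, fromBlocks_zero, add_zero]
  rw [scal_congr_on (isOpen_tot hD) h1 hx]
  exact scal_glue hD hDc hg hc (schur_isKahler hD hDc hg hc) hx

theorem reduction_iff (hD : IsOpen D) (hDc : IsConnected D) (T : TorusData ι κ D G) (g : (ι ⊕ κ → ℂ) → Matrix (ι ⊕ κ) (ι ⊕ κ) ℂ)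
    (hg : IsKahler (tot κ D) T.total g) :
    ∃ gm, IsKahler (tot κ D) T.total gm ∧ FibreConst D gm ∧ Cohomologous (tot κ D) T.total g gm ∧ IsKahler D T.base (schur gm) ∧
      ∀ c : ℝ,
        (∃ β', IsKahler D T.base β' ∧ Cohomologous D T.base (schur gm) β' ∧ ∀ b ∈ D, scal β' b = c) ↔
        (∃ g', IsKahler (tot κ D) T.total g' ∧ FibreConst D g' ∧ Cohomologous (tot κ D) T.total g g' ∧
          ∀ x ∈ tot κ D, scal g' x = c) := by
  have hU : IsOpen (tot κ D) := isOpen_tot hD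
  obtain ⟨μ0, hμ0⟩ := exists_isMean T.Λ T.disc T.span
  have hg0 : IsKahler (tot κ D) T.total (avg μ0 g) := avg_isKahler hD hμ0 hg
  have hc0 : FibreConst D (avg μ0 g) := fun x hx a => avg_fibre hD hμ0 hg hx a
  obtain ⟨h, hh, -, hA⟩ := vert_const hD hDc hg0 hc0
  obtain ⟨μ, hμ, hiso⟩ := exists_invariant_mean T.disc T.span hh
  have hμA : ∀ γ, μ.map (fun v => T.A γ *ᵥ v) = μ := fun γ => hiso (T.A γ) ⟨T.A_pres γ, hA γ⟩
  have hgm : IsKahler (tot κ D) T.total (avg μ g) := avg_isKahler hD hμ hg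
  have hcm : FibreConst D (avg μ g) := fun x hx a => avg_fibre hD hμ hg hx a
  have hp : IsPrimitive (tot κ D) T.total g (avg μ g) (prim μ g) := prim_isPrimitive hD hμ hμA hg
  refine ⟨avg μ g, hgm, hcm, ⟨_, hp⟩, schur_isKahler hD hDc hgm hcm, fun c => ⟨?_, ?_⟩⟩
  · rintro ⟨β', hβ, ⟨ε, hε⟩, hs⟩
    refine ⟨glue (avg μ g) β', glue_isKahler hD hDc hgm hcm hβ, ?_, ⟨_, hp.trans hU (glue_prim hD hDc hgm hcm hβ hε)⟩, ?_⟩
    · intro x _ a
      unfold glue
      rw [bas_add_pt]
    · intro x hx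
      rw [scal_glue hD hDc hgm hcm hβ hx]
      exact hs _ hx
  · rintro ⟨g', hg', hc', ⟨e, he⟩, hs⟩
    have he' : IsPrimitive (tot κ D) T.total (avg μ g) g' (fun x => -prim μ g x + e x) := (hp.symm hU).trans hU he
    have he2 : IsPrimitive (tot κ D) T.total (avg μ g) g' (avgE μ (fun x => -prim μ g x + e x)) :=
      avgE_isPrimitive hD hμ hμA hcm hc' he'
    have hec : ∀ x ∈ tot κ D, ∀ a : κ → ℂ,
        avgE μ (fun x => -prim μ g x + e x) (x + pt 0 a) = avgE μ (fun x => -prim μ g x + e x) x :=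
      fun x hx a => avgE_fibre hD hμ he' hx a
    refine ⟨schur g', schur_isKahler hD hDc hg' hc', ⟨_, epsB_isPrimitive hD hDc hgm hcm hg' hc' he2 hec⟩, fun b hb => ?_⟩
    have hb' : (pt b 0 : ι ⊕ κ → ℂ) ∈ tot κ D := pt_mem_tot hb 0
    have h1 := schur_scal hD hDc hg' hc' hb'
    rw [bas_pt] at h1
    rw [← h1]
    exact hs _ hb'

end YT
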