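import Pool.Agent.Lib.MP_464db4_gt.YT.Defs

/-!
# YT-ParA: integrals of translates are smooth
`hasFDerivAt_intTrans`: for `x ∈ U` take `r > 0` with `closedBall x r ⊆ U`; `K = closedBall x r + C` is compact and contained in `U`, so `f` and `fderiv ℝ f`
are bounded on `K` (continuity: `ContDiffOn.continuousOn`, `ContDiffOn.continuousOn_fderiv_of_isOpen`); apply
`hasFDerivAt_integral_of_dominated_of_fderiv_le` with the bound `‖w p‖ * M` (integrable).  Measurability of `p ↦ f (x + v p)`: it equals a.e. a composition of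
a function continuous on the closed set `K` with the a.e. measurable `p ↦ x + v p` (e.g. `ContinuousOn.aestronglyMeasurable` for `Measure.map`, or
replace `f` by `K.indicator f`).
`contDiffOn_intTrans`: prove `∀ n : ℕ, ∀ F f, ... → ContDiffOn ℝ n (fun x => ∫ ...) U` by induction on `n`
(`contDiffOn_succ_iff_fderiv_of_isOpen`, the derivative is the same kind of integral for `fderiv ℝ f` with values in `E →L[ℝ] F`), then `contDiffOn_infty`.
-/

namespace YT

open Complex Matrix MeasureTheory
open scoped ContDiff ComplexConjugate ComplexOrder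

private theorem pa_meas {E : Type} [NormedAddCommGroup E] [NormedSpace ℝ E] [FiniteDimensional ℝ E]
    {G : Type} [NormedAddCommGroup G] {P : Type} [MeasurableSpace P] (ν : Measure P) {U : Set E}
    {C : Set E} (hC : IsCompact C) (hUC : ∀ x ∈ U, ∀ c ∈ C, x + c ∈ U) {v : P → E} (hv : AEStronglyMeasurable v ν)
    (hvC : ∀ᵐ p ∂ν, v p ∈ C) {g : E → G} (hg : ContinuousOn g U) {x : E} (hx : x ∈ U) :
    AEStronglyMeasurable (fun p => g (x + v p)) ν := by
  letI : MeasurableSpace E := borel E
  haveI : BorelSpace E := ⟨rfl⟩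
  haveI : ProperSpace E := FiniteDimensional.proper ℝ E
  haveI : SecondCountableTopology E := secondCountable_of_proper
  set K : Set E := (fun c => x + c) '' C with hK
  have hKc : IsCompact K := hC.image (by fun_prop)
  have hKU : K ⊆ U := by
    rintro _ ⟨c, hc, rfl⟩
    exact hUC x hx c hc
  have hm : AEMeasurable (fun p => x + v p) ν := by
    have : AEStronglyMeasurable (fun p => x + v p) ν := aestronglyMeasurable_const.add hv
    exact this.aemeasurable
  have h1 : AEStronglyMeasurable g ((Measure.map (fun p => x + v p) ν).restrict K) :=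
    (hg.mono hKU).aestronglyMeasurable hKc.measurableSet
  have h2 : (Measure.map (fun p => x + v p) ν).restrict K = Measure.map (fun p => x + v p) ν := by
    apply Measure.restrict_eq_self_of_ae_mem
    refine (ae_map_iff (p := fun y => y ∈ K) hm hKc.measurableSet).2 ?_
    filter_upwards [hvC] with p hp
    exact ⟨v p, hp, rfl⟩
  rw [h2] at h1
  exact h1.comp_aemeasurable hm

variable {E : Type} [NormedAddCommGroup E] [NormedSpace ℝ E] [FiniteDimensional ℝ E]
  {F : Type} [NormedAddCommGroup F] [NormedSpace ℝ F] [NormedSpace ℂ F] [IsScalarTower ℝ ℂ F] [CompleteSpace F]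
  {P : Type} [MeasurableSpace P] (ν : Measure P) {U : Set E} (hU : IsOpen U) {C : Set E} (hC : IsCompact C)
  (hUC : ∀ x ∈ U, ∀ c ∈ C, x + c ∈ U) {v : P → E} (hv : AEStronglyMeasurable v ν) (hvC : ∀ᵐ p ∂ν, v p ∈ C)
  {w : P → ℂ} (hw : Integrable w ν) {f : E → F}

include hU hC hUC hv hvC hw

theorem integrable_intTrans (hf : ContinuousOn f U) {x : E} (hx : x ∈ U) : Integrable (fun p => w p • f (x + v p)) ν := by
  have hKU : (fun c => x + c) '' C ⊆ U := by
    rintro _ ⟨c, hc, rfl⟩
    exact hUC x hx c hc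
  obtain ⟨M, hM⟩ := (hC.image (f := fun c => x + c) (by fun_prop)).exists_bound_of_continuousOn (hf.mono hKU)
  refine Integrable.mono' (hw.norm.mul_const M) (hw.aestronglyMeasurable.smul (pa_meas ν hC hUC hv hvC hf hx)) ?_
  filter_upwards [hvC] with p hp
  rw [norm_smul]
  exact mul_le_mul_of_nonneg_left (hM _ ⟨v p, hp, rfl⟩) (norm_nonneg _)

theorem hasFDerivAt_intTrans (hf : ContDiffOn ℝ ∞ f U) {x : E} (hx : x ∈ U) :
    HasFDerivAt (fun x => ∫ p, w p • f (x + v p) ∂ν) (∫ p, w p • fderiv ℝ f (x + v p) ∂ν) x := by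
  haveI : ProperSpace E := FiniteDimensional.proper ℝ E
  obtain ⟨r, hr, hrU⟩ := Metric.nhds_basis_closedBall.mem_iff.1 (hU.mem_nhds hx)
  have hfd : ContinuousOn (fderiv ℝ f) U := hf.continuousOn_fderiv_of_isOpen hU (by simp)
  have hKc : IsCompact ((fun q : E × E => q.1 + q.2) '' (Metric.closedBall x r ×ˢ C)) :=
    ((isCompact_closedBall x r).prod hC).image (by fun_prop)
  have hKU : (fun q : E × E => q.1 + q.2) '' (Metric.closedBall x r ×ˢ C) ⊆ U := by
    rintro _ ⟨⟨y, c⟩, ⟨hy, hc⟩, rfl⟩
    exact hUC y (hrU hy) c hc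
  obtain ⟨M, hM⟩ := hKc.exists_bound_of_continuousOn (hfd.mono hKU)
  have hxb : Metric.ball x r ∈ nhds x := Metric.ball_mem_nhds x hr
  refine hasFDerivAt_integral_of_dominated_of_fderiv_le (bound := fun p => ‖w p‖ * M) (F' := fun x p => w p • fderiv ℝ f (x + v p))
    hxb ?_ ?_ ?_ ?_ ?_ ?_
  · filter_upwards [hxb] with y hy
    exact hw.aestronglyMeasurable.smul (pa_meas ν hC hUC hv hvC hf.continuousOn (hrU (Metric.ball_subset_closedBall hy)))
  · exact integrable_intTrans ν hU hC hUC hv hvC hw hf.continuousOn hx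
  · exact hw.aestronglyMeasurable.smul (pa_meas ν hC hUC hv hvC hfd hx)
  · filter_upwards [hvC] with p hp y hy
    rw [norm_smul]
    exact mul_le_mul_of_nonneg_left (hM _ ⟨(y, v p), ⟨Metric.ball_subset_closedBall hy, hp⟩, rfl⟩) (norm_nonneg _)
  · exact hw.norm.mul_const M
  · filter_upwards [hvC] with p hp y hy
    have hyU : y + v p ∈ U := hUC y (hrU (Metric.ball_subset_closedBall hy)) _ hp
    have h1 : HasFDerivAt f (fderiv ℝ f (y + v p)) (y + v p) :=
      ((hf.contDiffAt (hU.mem_nhds hyU)).differentiableAt (by simp)).hasFDerivAt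
    have h2 : HasFDerivAt (fun y => f (y + v p)) (fderiv ℝ f (y + v p)) y := (hasFDerivAt_comp_add_right (v p)).2 h1
    exact h2.const_smul (w p)

theorem contDiffOn_intTrans (hf : ContDiffOn ℝ ∞ f U) : ContDiffOn ℝ ∞ (fun x => ∫ p, w p • f (x + v p) ∂ν) U := by
  have key : ∀ n : ℕ, ∀ (G : Type) [NormedAddCommGroup G] [NormedSpace ℝ G] [NormedSpace ℂ G] [IsScalarTower ℝ ℂ G]
      [CompleteSpace G] (g : E → G), ContDiffOn ℝ ∞ g U → ContDiffOn ℝ n (fun x => ∫ p, w p • g (x + v p) ∂ν) U := by
    intro n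
    induction n with
    | zero =>
      intro G _ _ _ _ _ g hg
      rw [Nat.cast_zero, contDiffOn_zero]
      intro x hx
      exact (hasFDerivAt_intTrans ν hU hC hUC hv hvC hw hg hx).continuousAt.continuousWithinAt
    | succ n ih =>
      intro G _ _ _ _ _ g hg
      rw [Nat.cast_succ, contDiffOn_succ_iff_fderiv_of_isOpen hU]
      refine ⟨fun x hx => (hasFDerivAt_intTrans ν hU hC hUC hv hvC hw hg hx).differentiableAt.differentiableWithinAt, by simp, ?_⟩
      have hg' : ContDiffOn ℝ ∞ (fderiv ℝ g) U := hg.fderiv_of_isOpen hU (by simp)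
      refine (ih (E →L[ℝ] G) (fderiv ℝ g) hg').congr ?_
      intro x hx
      exact (hasFDerivAt_intTrans ν hU hC hUC hv hvC hw hg hx).fderiv
  rw [contDiffOn_infty]
  intro n
  exact key n F f hf

end YT
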