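import Pool.Agent.Lib.MP_464db4_gt.YT.Defs

/-!
# YT-WirtA: algebra of Wirtinger derivatives
Everything follows from the definition (`dz`, `dzbar` are linear combinations of two values of `fderiv ℝ f x`) and `fderiv_add`, `fderiv_mul`,
`fderiv_const_mul`, `fderiv_sum`, `Filter.EventuallyEq.fderiv_eq`, ... ; for `dz_conj` use `ContinuousLinearEquiv.comp_fderiv` with
`Complex.conjCLE` (no differentiability needed).  For `fderiv_eq_sum`: `v = ∑ i, Pi.single i (v i)` and
`Pi.single i w = w.re • Pi.single i 1 + w.im • Pi.single i I` (real linearity).  For holomorphic `f`: `fderiv ℝ f x = (fderiv ℂ f x).restrictScalars ℝ`.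
-/

namespace YT

open Complex Matrix MeasureTheory
open scoped ContDiff ComplexConjugate ComplexOrder

variable {ι : Type} [Fintype ι] [DecidableEq ι] {f h : (ι → ℂ) → ℂ} {x : ι → ℂ}

theorem dz_congr (i : ι) (e : f =ᶠ[nhds x] h) : dz i f x = dz i h x := by
  unfold dz
  rw [e.fderiv_eq]

theorem dzbar_congr (i : ι) (e : f =ᶠ[nhds x] h) : dzbar i f x = dzbar i h x := by
  unfold dzbar
  rw [e.fderiv_eq]

theorem dz_congr_on {U : Set (ι → ℂ)} (hU : IsOpen U) (e : ∀ y ∈ U, f y = h y) (hx : x ∈ U) (i : ι) : dz i f x = dz i h x := by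
  exact dz_congr i (Filter.eventuallyEq_of_mem (hU.mem_nhds hx) e)

theorem dzbar_congr_on {U : Set (ι → ℂ)} (hU : IsOpen U) (e : ∀ y ∈ U, f y = h y) (hx : x ∈ U) (i : ι) :
    dzbar i f x = dzbar i h x := by

  exact dzbar_congr i (Filter.eventuallyEq_of_mem (hU.mem_nhds hx) e)

theorem dz_const (i : ι) (c : ℂ) : dz i (fun _ => c) x = 0 := by
  unfold dz
  simp

theorem dzbar_const (i : ι) (c : ℂ) : dzbar i (fun _ => c) x = 0 := by
  unfold dzbar
  simp

theorem dz_add (i : ι) (hf : DifferentiableAt ℝ f x) (hh : DifferentiableAt ℝ h x) :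
    dz i (fun y => f y + h y) x = dz i f x + dz i h x := by
  unfold dz
  rw [fderiv_fun_add hf hh]
  simp only [_root_.add_apply]
  ring

theorem dzbar_add (i : ι) (hf : DifferentiableAt ℝ f x) (hh : DifferentiableAt ℝ h x) :
    dzbar i (fun y => f y + h y) x = dzbar i f x + dzbar i h x := by
  unfold dzbar
  rw [fderiv_fun_add hf hh]
  simp only [_root_.add_apply]
  ring

theorem dz_sub (i : ι) (hf : DifferentiableAt ℝ f x) (hh : DifferentiableAt ℝ h x) :
    dz i (fun y => f y - h y) x = dz i f x - dz i h x := by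
  unfold dz
  rw [fderiv_fun_sub hf hh]
  simp only [_root_.sub_apply]
  ring

theorem dzbar_sub (i : ι) (hf : DifferentiableAt ℝ f x) (hh : DifferentiableAt ℝ h x) :
    dzbar i (fun y => f y - h y) x = dzbar i f x - dzbar i h x := by
  unfold dzbar
  rw [fderiv_fun_sub hf hh]
  simp only [_root_.sub_apply]
  ring

theorem dz_mul (i : ι) (hf : DifferentiableAt ℝ f x) (hh : DifferentiableAt ℝ h x) :
    dz i (fun y => f y * h y) x = dz i f x * h x + f x * dz i h x := by
  unfold dz
  rw [fderiv_fun_mul hf hh]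
  simp only [_root_.add_apply, _root_.smul_apply, smul_eq_mul]
  ring

theorem dzbar_mul (i : ι) (hf : DifferentiableAt ℝ f x) (hh : DifferentiableAt ℝ h x) :
    dzbar i (fun y => f y * h y) x = dzbar i f x * h x + f x * dzbar i h x := by
  unfold dzbar
  rw [fderiv_fun_mul hf hh]
  simp only [_root_.add_apply, _root_.smul_apply, smul_eq_mul]
  ring

theorem dz_const_mul (i : ι) (c : ℂ) (hf : DifferentiableAt ℝ f x) : dz i (fun y => c * f y) x = c * dz i f x := by
  unfold dz
  rw [fderiv_const_mul hf]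
  simp only [_root_.smul_apply, smul_eq_mul]
  ring

theorem dzbar_const_mul (i : ι) (c : ℂ) (hf : DifferentiableAt ℝ f x) : dzbar i (fun y => c * f y) x = c * dzbar i f x := by
  unfold dzbar
  rw [fderiv_const_mul hf]
  simp only [_root_.smul_apply, smul_eq_mul]
  ring

theorem dz_mul_const (i : ι) (c : ℂ) (hf : DifferentiableAt ℝ f x) : dz i (fun y => f y * c) x = dz i f x * c := by
  unfold dz
  rw [fderiv_mul_const hf]
  simp only [_root_.smul_apply, smul_eq_mul]
  ring

theorem dzbar_mul_const (i : ι) (c : ℂ) (hf : DifferentiableAt ℝ f x) : dzbar i (fun y => f y * c) x = dzbar i f x * c := by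
  unfold dzbar
  rw [fderiv_mul_const hf]
  simp only [_root_.smul_apply, smul_eq_mul]
  ring

theorem dz_sum {α : Type} (s : Finset α) (F : α → (ι → ℂ) → ℂ) (i : ι) (hF : ∀ a ∈ s, DifferentiableAt ℝ (F a) x) :
    dz i (fun y => ∑ a ∈ s, F a y) x = ∑ a ∈ s, dz i (F a) x := by
  unfold dz
  rw [fderiv_fun_sum hF]
  simp only [_root_.sum_apply, Finset.mul_sum, ← Finset.sum_sub_distrib, ← Finset.sum_div]

theorem dzbar_sum {α : Type} (s : Finset α) (F : α → (ι → ℂ) → ℂ) (i : ι) (hF : ∀ a ∈ s, DifferentiableAt ℝ (F a) x) :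
    dzbar i (fun y => ∑ a ∈ s, F a y) x = ∑ a ∈ s, dzbar i (F a) x := by
  unfold dzbar
  rw [fderiv_fun_sum hF]
  simp only [_root_.sum_apply, Finset.mul_sum, ← Finset.sum_add_distrib, ← Finset.sum_div]

theorem dz_conj (i : ι) (f : (ι → ℂ) → ℂ) (x : ι → ℂ) : dz i (fun y => conj (f y)) x = conj (dzbar i f x) := by
  have h := Complex.conjCLE.comp_fderiv (f := f) (x := x)
  have h' : fderiv ℝ (fun y => conj (f y)) x = (Complex.conjCLE : ℂ →L[ℝ] ℂ).comp (fderiv ℝ f x) := h
  have h2 : (starRingEnd ℂ) 2 = 2 := map_ofNat _ 2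
  unfold dz dzbar
  rw [h']
  simp only [ContinuousLinearMap.comp_apply, ContinuousLinearEquiv.coe_coe, Complex.conjCLE_apply, map_div₀, map_add,
    map_sub, map_mul, Complex.conj_I, h2]
  ring

theorem dzbar_conj (i : ι) (f : (ι → ℂ) → ℂ) (x : ι → ℂ) : dzbar i (fun y => conj (f y)) x = conj (dz i f x) := by
  have h := Complex.conjCLE.comp_fderiv (f := f) (x := x)
  have h' : fderiv ℝ (fun y => conj (f y)) x = (Complex.conjCLE : ℂ →L[ℝ] ℂ).comp (fderiv ℝ f x) := h
  have h2 : (starRingEnd ℂ) 2 = 2 := map_ofNat _ 2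
  unfold dz dzbar
  rw [h']
  simp only [ContinuousLinearMap.comp_apply, ContinuousLinearEquiv.coe_coe, Complex.conjCLE_apply, map_div₀, map_add,
    map_sub, map_mul, Complex.conj_I, h2]
  ring

theorem fderiv_eq_sum (f : (ι → ℂ) → ℂ) (x v : ι → ℂ) :
    fderiv ℝ f x v = ∑ i, (v i * dz i f x + conj (v i) * dzbar i f x) := by
  have key : ∀ i : ι, ∀ w : ℂ, fderiv ℝ f x (Pi.single i w) = w * dz i f x + conj w * dzbar i f x := by
    intro i w
    have e : (Pi.single i w : ι → ℂ) = w.re • (Pi.single i 1 : ι → ℂ) + w.im • (Pi.single i I : ι → ℂ) := by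
      rw [← Pi.single_smul, ← Pi.single_smul, ← Pi.single_add]
      congr 1
      apply Complex.ext <;> simp
    rw [e, map_add, map_smul, map_smul]
    unfold dz dzbar
    have hw : w = (w.re : ℂ) + (w.im : ℂ) * I := (Complex.re_add_im w).symm
    have hc : conj w = (w.re : ℂ) - (w.im : ℂ) * I := by
      apply Complex.ext <;> simp
    rw [hc]
    conv_rhs => rw [hw]
    simp only [Complex.real_smul, Complex.add_re, Complex.ofReal_re, Complex.mul_re, Complex.I_re, mul_zero,
      Complex.ofReal_im, Complex.I_im, mul_one, sub_self, add_zero, Complex.add_im, Complex.mul_im, zero_add]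
    linear_combination ((w.im : ℂ) * fderiv ℝ f x (Pi.single i I)) * Complex.I_sq
  have hv : v = ∑ i, Pi.single i (v i) := by
    funext j
    simp [Finset.sum_apply]
  conv_lhs => rw [hv]
  rw [map_sum]
  exact Finset.sum_congr rfl fun i _ => key i (v i)

theorem fderiv_eq_zero (h1 : ∀ i, dz i f x = 0) (h2 : ∀ i, dzbar i f x = 0) : fderiv ℝ f x = 0 := by
  ext v
  rw [fderiv_eq_sum]
  simp [h1, h2]

theorem dzbar_hol (i : ι) (hf : DifferentiableAt ℂ f x) : dzbar i f x = 0 := by
  have h := hf.fderiv_restrictScalars ℝ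
  unfold dzbar
  rw [h]
  simp only [ContinuousLinearMap.coe_restrictScalars']
  have e : (Pi.single i I : ι → ℂ) = I • (Pi.single i 1 : ι → ℂ) := by
    rw [← Pi.single_smul]
    simp
  rw [e, map_smul, smul_eq_mul]
  linear_combination (fderiv ℂ f x (Pi.single i 1) / 2) * Complex.I_sq

theorem dz_hol (i : ι) (hf : DifferentiableAt ℂ f x) : dz i f x = fderiv ℂ f x (Pi.single i 1) := by
  have h := hf.fderiv_restrictScalars ℝ
  unfold dz
  rw [h]
  simp only [ContinuousLinearMap.coe_restrictScalars']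
  have e : (Pi.single i I : ι → ℂ) = I • (Pi.single i 1 : ι → ℂ) := by
    rw [← Pi.single_smul]
    simp
  rw [e, map_smul, smul_eq_mul]
  linear_combination (-fderiv ℂ f x (Pi.single i 1) / 2) * Complex.I_sq

/-- translation -/
theorem dz_trans (i : ι) (f : (ι → ℂ) → ℂ) (x c : ι → ℂ) : dz i (fun y => f (y + c)) x = dz i f (x + c) := by
  unfold dz
  rw [fderiv_comp_add_right]

theorem dzbar_trans (i : ι) (f : (ι → ℂ) → ℂ) (x c : ι → ℂ) : dzbar i (fun y => f (y + c)) x = dzbar i f (x + c) := by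
  unfold dzbar
  rw [fderiv_comp_add_right]

end YT
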