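import Pool.Agent.Lib.MP_464db4_gt.YT.ParA

/-!
# YT-PoiA: the compactly supported Poincare lemma in a rectangle of `ℝ²`
`m(y) = ∫ F(t,y) dt`, `ρ` a smooth bump with `∫ ρ = 1` and support in `[a,b]` (`ContDiffBump.normed`), `H(x,y) = F(x,y) - ρ(x) m(y)`, `∫ H(t,y) dt = 0` for all `y`;
`q(x,y) = ∫_{-∞}^x H(t,y) dt`, `p(x,y) = -ρ(x) ∫_{-∞}^y m(s) ds`; `∂_x q = H`, `∂_y p = -ρ m`, so `∂_x q - ∂_y p = F`; both vanish outside of the rectangle
(for `q`: `x < a`: `H = 0` on `(-∞,x]`; `x > b`: the full integral is `0`; `y ∉ [c,d]`: `H(·,y) = 0`; for `p`: `ρ = 0` or `y < c` or (`y > d` and `∫ m = ∫∫ F = 0`)).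
Smoothness: `prim_smooth1`: for smooth `H` vanishing for `x < a`: near a point with `x < a + L` one has `∫_{-∞}^x H(t,y) dt = ∫_{[-L,0]} H(x+t, y) dt`, which is smooth by
`contDiffOn_intTrans` (`E = ℝ × ℝ`, `U = univ`, `P = ℝ`, `ν = volume.restrict (Icc (-L) 0)`, `v t = (t,0)`, `w = 1`, `F = ℂ`; for real functions compose with `Complex.ofReal` and `Complex.re`), and
`fderiv` in the direction `(1,0)` is `H` by the fundamental theorem of calculus (`intervalIntegral.integral_hasDerivAt_right`).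
-/

namespace YT

open Complex Matrix MeasureTheory
open scoped ContDiff ComplexConjugate ComplexOrder

private theorem poiA_smooth_trans {H : ℝ × ℝ → ℝ} (hH : ContDiff ℝ ∞ H) (ν : Measure ℝ) [IsFiniteMeasure ν]
    {v : ℝ → ℝ × ℝ} (hv : Continuous v) {C : Set (ℝ × ℝ)} (hC : IsCompact C) (hvC : ∀ᵐ p ∂ν, v p ∈ C) :
    ContDiff ℝ ∞ (fun x => ∫ p, H (x + v p) ∂ν) := by
  have h1 : ContDiffOn ℝ ∞ (fun x => ∫ p, (1 : ℂ) • ((H (x + v p) : ℝ) : ℂ) ∂ν) Set.univ :=
    contDiffOn_intTrans (E := ℝ × ℝ) (F := ℂ) (P := ℝ) ν isOpen_univ hC (fun _ _ _ _ => Set.mem_univ _)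
      hv.aestronglyMeasurable hvC (w := fun _ => (1 : ℂ)) (integrable_const _)
      (f := fun s => ((H s : ℝ) : ℂ)) (Complex.ofRealCLM.contDiff.comp hH).contDiffOn
  have h2 : (fun x => ∫ p, H (x + v p) ∂ν) = fun x => (∫ p, (1 : ℂ) • ((H (x + v p) : ℝ) : ℂ) ∂ν).re := by
    funext x
    simp only [one_smul]
    rw [integral_complex_ofReal, Complex.ofReal_re]
  rw [h2]
  exact Complex.reCLM.contDiff.comp (contDiffOn_univ.1 h1)

private theorem poiA_integrableOn {f : ℝ → ℝ} (hf : Continuous f) {a : ℝ} (ha : ∀ t, t < a → f t = 0) (x : ℝ) :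
    IntegrableOn f (Set.Iic x) := by
  have h1 : IntegrableOn f (Set.Iio a) := by
    have h0 : IntegrableOn (fun _ : ℝ => (0 : ℝ)) (Set.Iio a) := integrableOn_zero
    exact h0.congr_fun (fun t ht => (ha t ht).symm) measurableSet_Iio
  have h2 : IntegrableOn f (Set.Icc a x) := hf.continuousOn.integrableOn_compact isCompact_Icc
  refine (h1.union h2).mono_set fun t ht => ?_
  rcases lt_or_ge t a with h | h
  · exact Or.inl h
  · exact Or.inr ⟨h, ht⟩

private theorem poiA_Iic_zero {f : ℝ → ℝ} {a : ℝ} (ha : ∀ t, t < a → f t = 0) {x : ℝ} (hx : x < a) :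
    ∫ t in Set.Iic x, f t = 0 := by
  have h1 : ∫ t in Set.Iic x, f t = ∫ t in Set.Iic x, (0 : ℝ) :=
    setIntegral_congr_fun measurableSet_Iic fun t ht => ha t (lt_of_le_of_lt ht hx)
  rw [h1, integral_zero]

private theorem poiA_Iic {f : ℝ → ℝ} (hf : Continuous f) {a : ℝ} (ha : ∀ t, t < a → f t = 0) (x : ℝ)
    {y : ℝ} (hy : y < a) : ∫ t in Set.Iic x, f t = ∫ t in y..x, f t := by
  have h1 := intervalIntegral.integral_Iic_sub_Iic (poiA_integrableOn hf ha y) (poiA_integrableOn hf ha x)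
  rw [poiA_Iic_zero ha hy, sub_zero] at h1
  exact h1

/-- The primitive in the first variable. -/
theorem prim_smooth1 {H : ℝ × ℝ → ℝ} (hH : ContDiff ℝ ∞ H) {a : ℝ} (ha : ∀ s : ℝ × ℝ, s.1 < a → H s = 0) :
    ContDiff ℝ ∞ (fun s : ℝ × ℝ => ∫ t in Set.Iic s.1, H (t, s.2)) ∧
      ∀ s : ℝ × ℝ, fderiv ℝ (fun s : ℝ × ℝ => ∫ t in Set.Iic s.1, H (t, s.2)) s (1, 0) = H s := by
  have hc : ∀ y : ℝ, Continuous fun t => H (t, y) := fun y => hH.continuous.comp (by fun_prop)
  have hz : ∀ y t : ℝ, t < a → H (t, y) = 0 := fun y t ht => ha (t, y) ht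
  have hsm : ContDiff ℝ ∞ (fun s : ℝ × ℝ => ∫ t in Set.Iic s.1, H (t, s.2)) := by
    rw [contDiff_iff_contDiffAt]
    intro s0
    obtain ⟨L, hL0, hL⟩ : ∃ L : ℝ, 0 < L ∧ s0.1 < a + L := ⟨max 1 (s0.1 - a + 1), by positivity, by
      have := le_max_right 1 (s0.1 - a + 1)
      linarith⟩
    have h1 : ContDiff ℝ ∞ (fun x : ℝ × ℝ => ∫ p, H (x + (p, 0)) ∂(volume.restrict (Set.Ioc (-L) 0))) := by
      refine poiA_smooth_trans hH _ (v := fun p => (p, 0)) (by fun_prop) (C := Set.Icc (-L) 0 ×ˢ {0})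
        (isCompact_Icc.prod isCompact_singleton) ?_
      filter_upwards [ae_restrict_mem measurableSet_Ioc] with p hp
      exact ⟨⟨hp.1.le, hp.2⟩, rfl⟩
    refine h1.contDiffAt.congr_of_eventuallyEq ?_
    have hopen : {s : ℝ × ℝ | s.1 < a + L} ∈ nhds s0 :=
      (isOpen_lt continuous_fst continuous_const).mem_nhds hL
    filter_upwards [hopen] with s hs
    have hs' : s.1 - L < a := by
      have : s.1 < a + L := hs
      linarith
    rw [poiA_Iic (hc s.2) (hz s.2) s.1 hs']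
    rw [← intervalIntegral.integral_of_le (by linarith : -L ≤ 0)]
    have h2 := intervalIntegral.integral_comp_add_right (a := -L) (b := 0) (fun t => H (t, s.2)) s.1
    rw [show -L + s.1 = s.1 - L by ring, zero_add] at h2
    rw [← h2]
    refine intervalIntegral.integral_congr fun t _ => ?_
    congr 1
    ext
    · simp [add_comm]
    · simp
  refine ⟨hsm, fun s => ?_⟩
  have hd : DifferentiableAt ℝ (fun s : ℝ × ℝ => ∫ t in Set.Iic s.1, H (t, s.2)) s :=
    hsm.differentiable (by simp) s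
  have hline : HasDerivAt (fun x : ℝ => ((x, s.2) : ℝ × ℝ)) ((1, 0) : ℝ × ℝ) s.1 :=
    (hasDerivAt_id s.1).prodMk (hasDerivAt_const s.1 s.2)
  have h1 : HasDerivAt (fun x : ℝ => ∫ t in Set.Iic x, H (t, s.2))
      (fderiv ℝ (fun s : ℝ × ℝ => ∫ t in Set.Iic s.1, H (t, s.2)) s (1, 0)) s.1 := by
    have h := (show HasFDerivAt (fun s : ℝ × ℝ => ∫ t in Set.Iic s.1, H (t, s.2))
      (fderiv ℝ (fun s : ℝ × ℝ => ∫ t in Set.Iic s.1, H (t, s.2)) s) (s.1, s.2) from hd.hasFDerivAt).comp_hasDerivAt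
        s.1 hline
    exact h
  have h2 : HasDerivAt (fun x : ℝ => ∫ t in (a - 1)..x, H (t, s.2)) (H (s.1, s.2)) s.1 :=
    intervalIntegral.integral_hasDerivAt_right ((hc s.2).intervalIntegrable _ _)
      ((hc s.2).stronglyMeasurableAtFilter _ _) (hc s.2).continuousAt
  have h3 : (fun x : ℝ => ∫ t in Set.Iic x, H (t, s.2)) = fun x : ℝ => ∫ t in (a - 1)..x, H (t, s.2) := by
    funext x
    exact poiA_Iic (hc s.2) (hz s.2) x (by linarith)
  rw [h3] at h1
  exact h1.unique h2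

private theorem poiA_full {f : ℝ → ℝ} {b x : ℝ} (hb : ∀ t, b < t → f t = 0) (hx : b ≤ x) :
    ∫ t in Set.Iic x, f t = ∫ t, f t := by
  refine setIntegral_eq_integral_of_forall_compl_eq_zero fun t ht => hb t ?_
  have : x < t := by simpa using ht
  linarith

/-- The integral over the first variable. -/
theorem int_smooth1 {H : ℝ × ℝ → ℝ} (hH : ContDiff ℝ ∞ H) {a b : ℝ} (ha : ∀ s : ℝ × ℝ, s.1 ∉ Set.Icc a b → H s = 0) :
    ContDiff ℝ ∞ (fun y : ℝ => ∫ t, H (t, y)) := by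
  have h1 := (prim_smooth1 hH (a := a) fun s hs => ha s fun h => absurd h.1 (not_le.2 hs)).1
  have h2 : (fun y : ℝ => ∫ t, H (t, y)) = (fun s : ℝ × ℝ => ∫ t in Set.Iic s.1, H (t, s.2)) ∘ fun y : ℝ => (b, y) := by
    funext y
    simp only [Function.comp]
    exact (poiA_full (f := fun t => H (t, y)) (fun t ht => ha (t, y) fun h => absurd h.2 (not_le.2 ht)) le_rfl).symm
  rw [h2]
  exact h1.comp (by fun_prop)

theorem poincare_R2 {F : ℝ × ℝ → ℝ} (hF : ContDiff ℝ ∞ F) {a b c d : ℝ} (hab : a < b)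
    (hsupp : ∀ s : ℝ × ℝ, s ∉ Set.Icc a b ×ˢ Set.Icc c d → F s = 0) (h0 : ∫ s, F s = 0) :
    ∃ p q : ℝ × ℝ → ℝ, ContDiff ℝ ∞ p ∧ ContDiff ℝ ∞ q ∧ (∀ s : ℝ × ℝ, s ∉ Set.Icc a b ×ˢ Set.Icc c d → p s = 0 ∧ q s = 0) ∧
      ∀ s, F s = fderiv ℝ q s (1, 0) - fderiv ℝ p s (0, 1) := by
  classical
  -- the bump
  let φ : ContDiffBump ((a + b) / 2 : ℝ) := ⟨(b - a) / 4, (b - a) / 2, by linarith, by linarith⟩
  set ρ : ℝ → ℝ := φ.normed volume with hρ
  have hρs : ContDiff ℝ ∞ ρ := φ.contDiff_normed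
  have hρ1 : ∫ x, ρ x = 1 := φ.integral_normed
  have hρ0 : ∀ x, x ∉ Set.Icc a b → ρ x = 0 := by
    intro x hx
    by_contra hne
    have h1 : x ∈ Function.support ρ := hne
    rw [hρ, φ.support_normed_eq, Metric.mem_ball, Real.dist_eq] at h1
    have h2 : φ.rOut = (b - a) / 2 := rfl
    rw [h2, abs_lt] at h1
    exact hx ⟨by linarith [h1.1], by linarith [h1.2]⟩
  -- the function m
  set m : ℝ → ℝ := fun y => ∫ t, F (t, y) with hm
  have hF1 : ∀ s : ℝ × ℝ, s.1 ∉ Set.Icc a b → F s = 0 := fun s hs => hsupp s fun h => hs h.1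
  have hF2 : ∀ s : ℝ × ℝ, s.2 ∉ Set.Icc c d → F s = 0 := fun s hs => hsupp s fun h => hs h.2
  have hms : ContDiff ℝ ∞ m := int_smooth1 hF hF1
  have hm0 : ∀ y, y ∉ Set.Icc c d → m y = 0 := by
    intro y hy
    simp only [hm]
    rw [show (fun t => F (t, y)) = fun _ => (0 : ℝ) from funext fun t => hF2 (t, y) hy, integral_zero]
  have hFint : Integrable F := by
    refine hF.continuous.integrable_of_hasCompactSupport ?_
    refine HasCompactSupport.intro (isCompact_Icc.prod isCompact_Icc) fun s hs => hsupp s hs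
  have hmint : ∫ y, m y = 0 := by
    have h1 := integral_prod_symm (μ := (volume : Measure ℝ)) (ν := (volume : Measure ℝ)) F
      (by simpa [Measure.volume_eq_prod] using hFint)
    rw [← Measure.volume_eq_prod, h0] at h1
    exact h1.symm
  -- the function H
  set H : ℝ × ℝ → ℝ := fun s => F s - ρ s.1 * m s.2 with hH
  have hHs : ContDiff ℝ ∞ H := hF.sub ((hρs.comp contDiff_fst).mul (hms.comp contDiff_snd))
  have hH1 : ∀ s : ℝ × ℝ, s.1 ∉ Set.Icc a b → H s = 0 := by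
    intro s hs
    simp only [hH]
    rw [hF1 s hs, hρ0 s.1 hs]
    ring
  have hH2 : ∀ s : ℝ × ℝ, s.2 ∉ Set.Icc c d → H s = 0 := by
    intro s hs
    simp only [hH]
    rw [hF2 s hs, hm0 s.2 hs]
    ring
  have hFt : ∀ y, Integrable fun t => F (t, y) := by
    intro y
    refine (hF.continuous.comp (by fun_prop : Continuous fun t : ℝ => (t, y))).integrable_of_hasCompactSupport ?_
    exact HasCompactSupport.intro (isCompact_Icc (a := a) (b := b)) fun t ht => hF1 (t, y) ht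
  have hρi : Integrable ρ := by
    refine hρs.continuous.integrable_of_hasCompactSupport ?_
    exact HasCompactSupport.intro (isCompact_Icc (a := a) (b := b)) fun t ht => hρ0 t ht
  have hHint : ∀ y, ∫ t, H (t, y) = 0 := by
    intro y
    simp only [hH]
    rw [integral_sub (hFt y) (hρi.mul_const (m y)), integral_mul_const, hρ1, one_mul]
    simp only [hm, sub_self]
  obtain ⟨hq1, hq2⟩ := prim_smooth1 hHs (a := a) fun s hs => hH1 s fun h => absurd h.1 (not_le.2 hs)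
  obtain ⟨hM1, hM2⟩ := prim_smooth1 (H := fun s => m s.1) (hms.comp contDiff_fst) (a := c)
    fun s hs => hm0 s.1 fun h => absurd h.1 (not_le.2 hs)
  set M : ℝ × ℝ → ℝ := fun s => ∫ t in Set.Iic s.1, m t with hM
  have hM1' : ContDiff ℝ ∞ M := hM1
  have hM2' : ∀ s : ℝ × ℝ, fderiv ℝ M s (1, 0) = m s.1 := hM2
  have hp : ContDiff ℝ ∞ fun s : ℝ × ℝ => -(ρ s.1 * M (s.2, 0)) :=
    ((hρs.comp contDiff_fst).mul (hM1'.comp (by fun_prop : ContDiff ℝ ∞ fun s : ℝ × ℝ => ((s.2, 0) : ℝ × ℝ)))).neg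
  refine ⟨fun s => -(ρ s.1 * M (s.2, 0)), fun s => ∫ t in Set.Iic s.1, H (t, s.2), hp, hq1, ?_, ?_⟩
  · intro s hs
    by_cases h1 : s.1 ∈ Set.Icc a b
    · have h2 : s.2 ∉ Set.Icc c d := fun h => hs ⟨h1, h⟩
      constructor
      · have h3 : M (s.2, 0) = 0 := by
          simp only [hM]
          rcases lt_or_ge s.2 c with h | h
          · exact poiA_Iic_zero (fun t ht => hm0 t fun h => absurd h.1 (not_le.2 ht)) h
          · have h4 : d < s.2 := by
              by_contra h5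
              exact h2 ⟨h, not_lt.1 h5⟩
            rw [poiA_full (f := m) (fun t ht => hm0 t fun h => absurd h.2 (not_le.2 ht)) h4.le, hmint]
        simp [h3]
      · simp only
        rw [show (fun t => H (t, s.2)) = fun _ => (0 : ℝ) from funext fun t => hH2 (t, s.2) h2]
        simp
    · constructor
      · simp only
        rw [hρ0 s.1 h1]
        simp
      · simp only
        rcases lt_or_ge s.1 a with h | h
        · exact poiA_Iic_zero (fun t ht => hH1 (t, s.2) fun h => absurd h.1 (not_le.2 ht)) h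
        · have h4 : b < s.1 := by
            by_contra h5
            exact h1 ⟨h, not_lt.1 h5⟩
          rw [poiA_full (f := fun t => H (t, s.2)) (fun t ht => hH1 (t, s.2) fun h => absurd h.2 (not_le.2 ht)) h4.le,
            hHint]
  · intro s
    rw [hq2 s]
    have hd : fderiv ℝ (fun s : ℝ × ℝ => -(ρ s.1 * M (s.2, 0))) s (0, 1) = -(ρ s.1 * m s.2) := by
      have hline : HasDerivAt (fun y : ℝ => ((s.1, y) : ℝ × ℝ)) ((0, 1) : ℝ × ℝ) s.2 :=
        (hasDerivAt_const s.2 s.1).prodMk (hasDerivAt_id s.2)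
      have h1 := (show HasFDerivAt (fun s : ℝ × ℝ => -(ρ s.1 * M (s.2, 0)))
        (fderiv ℝ (fun s : ℝ × ℝ => -(ρ s.1 * M (s.2, 0))) s) (s.1, s.2) from
          (hp.differentiable (by simp) s).hasFDerivAt).comp_hasDerivAt s.2 hline
      have hline2 : HasDerivAt (fun y : ℝ => ((y, 0) : ℝ × ℝ)) ((1, 0) : ℝ × ℝ) s.2 :=
        (hasDerivAt_id s.2).prodMk (hasDerivAt_const s.2 0)
      have h5 : HasFDerivAt M (fderiv ℝ M (s.2, 0)) ((fun y : ℝ => ((y, 0) : ℝ × ℝ)) s.2) :=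
        (hM1'.differentiable (by simp) (s.2, 0)).hasFDerivAt
      have h2 : HasDerivAt (fun y : ℝ => M (y, 0)) (fderiv ℝ M (s.2, 0) (1, 0)) s.2 := by
        have h6 := HasFDerivAt.comp_hasDerivAt (l := M) (f := fun y : ℝ => ((y, 0) : ℝ × ℝ)) s.2 h5 hline2
        exact h6
      rw [hM2'] at h2
      have h3 : HasDerivAt (fun y : ℝ => -(ρ s.1 * M (y, 0))) (-(ρ s.1 * m s.2)) s.2 := (h2.const_mul (ρ s.1)).neg
      exact h1.unique h3
    rw [hd]
    simp only [hH]
    ring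

end YT
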