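import Pool.Agent.Lib.MP_464db4_gt.YT.Iff
import Pool.Agent.Lib.MP_464db4_gt.YT.Curve

/-!
# YT-Res: all modules
-/
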