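import Pool.Agent.Lib.MP_464db4_gt.YT.Blk

/-!
# YT-SchA: Schur complements, matrix algebra

Positivity, determinant, inverse and covariance of the Schur complement `P - Q h⁻¹ Qᴴ` of
`fromBlocks P Q Qᴴ h`.
-/

namespace YT

open Complex Matrix MeasureTheory
open scoped ContDiff ComplexConjugate ComplexOrder

variable {ι κ : Type} [Fintype ι] [DecidableEq ι] [Fintype κ] [DecidableEq κ]

omit [Fintype ι] [DecidableEq ι] [Fintype κ] [DecidableEq κ] in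
private theorem SchA_elim (v : ι ⊕ κ → ℂ) : Sum.elim (v ∘ Sum.inl) (v ∘ Sum.inr) = v :=
  Sum.elim_comp_inl_inr v

private theorem SchA_val (P : Matrix ι ι ℂ) (Q : Matrix ι κ ℂ) {h : Matrix κ κ ℂ} (hh : h.PosDef)
    (x : ι → ℂ) (y : κ → ℂ) :
    star (Sum.elim x y) ⬝ᵥ (fromBlocks P Q Qᴴ h *ᵥ Sum.elim x y) =
      star ((h⁻¹ * Qᴴ) *ᵥ x + y) ⬝ᵥ (h *ᵥ ((h⁻¹ * Qᴴ) *ᵥ x + y)) +
        star x ⬝ᵥ ((P - Q * h⁻¹ * Qᴴ) *ᵥ x) := by
  have : Invertible h := hh.isUnit.invertible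
  have key := schur_complement_eq₂₂ P Q x y hh.isHermitian
  rw [dotProduct_mulVec, dotProduct_mulVec, dotProduct_mulVec]
  exact key

theorem vert_posDef {M : Matrix (ι ⊕ κ) (ι ⊕ κ) ℂ} (hM : M.PosDef) : M.toBlocks₂₂.PosDef :=
  hM.submatrix Sum.inr_injective

private theorem SchA_h {P : Matrix ι ι ℂ} {Q : Matrix ι κ ℂ} {h : Matrix κ κ ℂ}
    (hM : (fromBlocks P Q Qᴴ h).PosDef) : h.PosDef := by
  have h1 := vert_posDef hM
  rwa [toBlocks_fromBlocks₂₂] at h1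

theorem schur_posDef {P : Matrix ι ι ℂ} {Q : Matrix ι κ ℂ} {h : Matrix κ κ ℂ} (hM : (fromBlocks P Q Qᴴ h).PosDef) :
    (P - Q * h⁻¹ * Qᴴ).PosDef := by
  have hh := SchA_h hM
  refine PosDef.of_dotProduct_mulVec_pos
    ((IsHermitian.fromBlocks₂₂ P Q hh.isHermitian).1 hM.isHermitian) fun x hx => ?_
  have hne : Sum.elim x (-((h⁻¹ * Qᴴ) *ᵥ x)) ≠ (0 : ι ⊕ κ → ℂ) := by
    intro h0
    apply hx
    funext i
    exact congrFun h0 (Sum.inl i)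
  have h1 := hM.dotProduct_mulVec_pos hne
  rw [SchA_val P Q hh, add_neg_cancel, mulVec_zero, dotProduct_zero, zero_add] at h1
  exact h1

/-- A Hermitian matrix is determined by three blocks. -/
theorem eq_fromBlocks {M : Matrix (ι ⊕ κ) (ι ⊕ κ) ℂ} (hM : M.IsHermitian) :
    M = fromBlocks M.toBlocks₁₁ M.toBlocks₁₂ (M.toBlocks₁₂)ᴴ M.toBlocks₂₂ := by
  have h1 : (M.toBlocks₁₂)ᴴ = M.toBlocks₂₁ := by
    ext i j
    exact hM.apply (Sum.inr i) (Sum.inl j)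
  rw [h1, fromBlocks_toBlocks]

theorem glue_posDef {β : Matrix ι ι ℂ} {Q : Matrix ι κ ℂ} {h : Matrix κ κ ℂ} (hβ : β.PosDef) (hh : h.PosDef) :
    (fromBlocks (β + Q * h⁻¹ * Qᴴ) Q Qᴴ h).PosDef := by
  have e1 : β + Q * h⁻¹ * Qᴴ - Q * h⁻¹ * Qᴴ = β := add_sub_cancel_right _ _
  refine PosDef.of_dotProduct_mulVec_pos
    ((IsHermitian.fromBlocks₂₂ _ Q hh.isHermitian).2 (by rw [e1]; exact hβ.isHermitian))
    fun v hv => ?_
  rw [← SchA_elim v, SchA_val _ Q hh, e1]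
  by_cases hx : v ∘ Sum.inl = 0
  · have hy : v ∘ Sum.inr ≠ 0 := by
      intro hy
      apply hv
      rw [← SchA_elim v, hx, hy]
      exact Sum.elim_zero_zero
    rw [hx, mulVec_zero, mulVec_zero, dotProduct_zero, zero_add, add_zero]
    exact hh.dotProduct_mulVec_pos hy
  · exact add_pos_of_nonneg_of_pos (hh.posSemidef.dotProduct_mulVec_nonneg _)
      (hβ.dotProduct_mulVec_pos hx)

theorem det_glue {β : Matrix ι ι ℂ} {Q : Matrix ι κ ℂ} {h : Matrix κ κ ℂ} (hh : h.PosDef) :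
    (fromBlocks (β + Q * h⁻¹ * Qᴴ) Q Qᴴ h).det = h.det * β.det := by
  have : Invertible h := hh.isUnit.invertible
  rw [det_fromBlocks₂₂, invOf_eq_nonsing_inv, add_sub_cancel_right]

theorem inv_glue {β : Matrix ι ι ℂ} {Q : Matrix ι κ ℂ} {h : Matrix κ κ ℂ} (hβ : β.PosDef) (hh : h.PosDef) :
    ((fromBlocks (β + Q * h⁻¹ * Qᴴ) Q Qᴴ h)⁻¹).toBlocks₁₁ = β⁻¹ := by
  have hβ1 : β * β⁻¹ = 1 := mul_nonsing_inv β ((isUnit_iff_isUnit_det β).1 hβ.isUnit)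
  have hh1 : h * h⁻¹ = 1 := mul_nonsing_inv h ((isUnit_iff_isUnit_det h).1 hh.isUnit)
  have key : fromBlocks (β + Q * h⁻¹ * Qᴴ) Q Qᴴ h *
      fromBlocks β⁻¹ (-(β⁻¹ * Q * h⁻¹)) (-(h⁻¹ * Qᴴ * β⁻¹))
        (h⁻¹ + h⁻¹ * Qᴴ * β⁻¹ * Q * h⁻¹) = 1 := by
    rw [fromBlocks_multiply, ← fromBlocks_one]
    congr 1
    · rw [Matrix.add_mul, hβ1, Matrix.mul_neg]
      simp only [Matrix.mul_assoc]
      abel
    · rw [Matrix.add_mul, Matrix.mul_neg, Matrix.mul_neg, Matrix.mul_add]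
      have e1 : β * (β⁻¹ * Q * h⁻¹) = Q * h⁻¹ := by
        rw [← Matrix.mul_assoc, ← Matrix.mul_assoc, hβ1, Matrix.one_mul]
      rw [e1]
      simp only [Matrix.mul_assoc]
      abel
    · rw [Matrix.mul_neg]
      have e1 : h * (h⁻¹ * Qᴴ * β⁻¹) = Qᴴ * β⁻¹ := by
        rw [← Matrix.mul_assoc, ← Matrix.mul_assoc, hh1, Matrix.one_mul]
      rw [e1, add_neg_cancel]
    · rw [Matrix.mul_neg, Matrix.mul_add, hh1]
      have e1 : h * (h⁻¹ * Qᴴ * β⁻¹ * Q * h⁻¹) = Qᴴ * (β⁻¹ * Q * h⁻¹) := by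
        rw [← Matrix.mul_assoc, ← Matrix.mul_assoc, ← Matrix.mul_assoc, ← Matrix.mul_assoc, hh1,
          Matrix.one_mul]
        simp only [Matrix.mul_assoc]
      rw [e1]
      abel
  rw [inv_eq_right_inv key, toBlocks_fromBlocks₁₁]

theorem schur_cov {P P' a : Matrix ι ι ℂ} {Q Q' : Matrix ι κ ℂ} {h A : Matrix κ κ ℂ} {t : Matrix κ ι ℂ} (hh : h.PosDef)
    (hJ : (fromBlocks a 0 t A)ᵀ * fromBlocks P' Q' Q'ᴴ h * mconj (fromBlocks a 0 t A) = fromBlocks P Q Qᴴ h) :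
    aᵀ * (P' - Q' * h⁻¹ * Q'ᴴ) * mconj a = P - Q * h⁻¹ * Qᴴ := by
  have hu : IsUnit h.det := (isUnit_iff_isUnit_det h).1 hh.isUnit
  have hh1 : h * h⁻¹ = 1 := mul_nonsing_inv h hu
  have hh2 : h⁻¹ * h = 1 := nonsing_inv_mul h hu
  have hm : mconj (fromBlocks a 0 t A) = fromBlocks (mconj a) 0 (mconj t) (mconj A) := by
    unfold mconj
    rw [fromBlocks_map]
    congr 1
    ext i j
    simp
  rw [hm, fromBlocks_transpose, transpose_zero, fromBlocks_multiply, fromBlocks_multiply,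
    fromBlocks_inj] at hJ
  obtain ⟨hP, hQ, hQ', hA⟩ := hJ
  simp only [Matrix.zero_mul, Matrix.mul_zero, zero_add] at hP hQ hQ' hA
  -- `Ā h⁻¹ Aᵀ = h⁻¹`
  have e0 : h⁻¹ * Aᵀ * h * mconj A = 1 := by
    have : h⁻¹ * (Aᵀ * h * mconj A) = 1 := by rw [hA, hh2]
    rw [← this]
    simp only [Matrix.mul_assoc]
  have e1 : mconj A * (h⁻¹ * Aᵀ * h) = 1 := mul_eq_one_comm.1 e0
  have e2 : mconj A * h⁻¹ * Aᵀ = h⁻¹ := by
    calc mconj A * h⁻¹ * Aᵀ = mconj A * h⁻¹ * Aᵀ * (h * h⁻¹) := by rw [hh1, Matrix.mul_one]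
      _ = mconj A * (h⁻¹ * Aᵀ * h) * h⁻¹ := by simp only [Matrix.mul_assoc]
      _ = h⁻¹ := by rw [e1, Matrix.one_mul]
  have e3 : Q * h⁻¹ * Qᴴ =
      (aᵀ * Q' + tᵀ * h) * h⁻¹ * (Q'ᴴ * mconj a + h * mconj t) := by
    have hQ2 : Qᴴ = Aᵀ * (Q'ᴴ * mconj a + h * mconj t) := by
      rw [← hQ', Matrix.mul_add]
      simp only [Matrix.mul_assoc]
    rw [hQ2, ← hQ]
    calc (aᵀ * Q' + tᵀ * h) * mconj A * h⁻¹ * (Aᵀ * (Q'ᴴ * mconj a + h * mconj t))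
        = (aᵀ * Q' + tᵀ * h) * (mconj A * h⁻¹ * Aᵀ) * (Q'ᴴ * mconj a + h * mconj t) := by
          simp only [Matrix.mul_assoc]
      _ = _ := by rw [e2]
  have e4 : (aᵀ * Q' + tᵀ * h) * h⁻¹ * (Q'ᴴ * mconj a + h * mconj t) =
      aᵀ * Q' * h⁻¹ * Q'ᴴ * mconj a + aᵀ * Q' * mconj t + tᵀ * Q'ᴴ * mconj a + tᵀ * h * mconj t := by
    have f1 : (aᵀ * Q' + tᵀ * h) * h⁻¹ = aᵀ * Q' * h⁻¹ + tᵀ := by
      rw [Matrix.add_mul, Matrix.mul_assoc tᵀ h h⁻¹, hh1, Matrix.mul_one]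
    rw [f1, Matrix.add_mul, Matrix.mul_add, Matrix.mul_add]
    have f2 : aᵀ * Q' * h⁻¹ * (h * mconj t) = aᵀ * Q' * mconj t := by
      rw [← Matrix.mul_assoc (aᵀ * Q' * h⁻¹) h (mconj t), Matrix.mul_assoc (aᵀ * Q') h⁻¹ h, hh2,
        Matrix.mul_one]
    rw [f2]
    simp only [Matrix.mul_assoc]
    abel
  rw [e3, e4, ← hP]
  simp only [Matrix.mul_sub, Matrix.sub_mul, Matrix.add_mul, Matrix.mul_assoc]
  abel

end YT
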